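import Mathlib

/-!
# [DLF-A1] traces vanishing outside a subgroup bound the index

`P` finite, `K ≤ P`, `ρ : P →* Module.End ℂ V` with `V ≠ 0` finite-dimensional and
`trace (ρ g) = 0` for all `g ∉ K`. Then `|P : K| ≤ (dim V)^2`.

Proof. Choose representatives `t : P ⧸ K → P` (`Quotient.out`). The endomorphisms `ρ (t c)`,
`c : P ⧸ K`, are linearly independent: if `∑ c, a c • ρ (t c) = 0`, multiply on the left by
`ρ (t c₀)⁻¹ = ρ ((t c₀)⁻¹)` and take traces: `trace (ρ ((t c₀)⁻¹ * t c)) = 0` for `c ≠ c₀`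
(then `(t c₀)⁻¹ * t c ∉ K`) and `trace (ρ 1) = dim V ≠ 0`, so `a c₀ * dim V = 0`, `a c₀ = 0`.
Hence `|P ⧸ K| ≤ finrank (Module.End ℂ V) = (dim V)^2` (`Module.finrank_linearMap`,
`LinearIndependent.fintype_card_le_finrank`).
-/

set_option autoImplicit false

namespace Pool.Agent.DLF

theorem index_le_sq {P V : Type*} [Group P] [Finite P] [AddCommGroup V] [Module ℂ V]
    [FiniteDimensional ℂ V] [Nontrivial V] (K : Subgroup P) (ρ : P →* Module.End ℂ V)
    (h : ∀ g : P, g ∉ K → LinearMap.trace ℂ V (ρ g) = 0) :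
    K.index ≤ Module.finrank ℂ V ^ 2 := by
  classical
  haveI : Fintype (P ⧸ K) := Fintype.ofFinite _
  have hli : LinearIndependent ℂ (fun c : P ⧸ K => ρ (Quotient.out c)) := by
    rw [Fintype.linearIndependent_iff]
    intro a ha c₀
    have h1 : LinearMap.trace ℂ V (ρ (Quotient.out c₀)⁻¹ * ∑ c, a c • ρ (Quotient.out c)) = 0 := by
      rw [ha, mul_zero, map_zero]
    rw [Finset.mul_sum, map_sum] at h1
    have h2 : ∀ c : P ⧸ K, LinearMap.trace ℂ V (ρ (Quotient.out c₀)⁻¹ * a c • ρ (Quotient.out c)) =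
        if c = c₀ then a c₀ * (Module.finrank ℂ V : ℂ) else 0 := by
      intro c
      rw [mul_smul_comm, map_smul, ← map_mul]
      by_cases hc : c = c₀
      · rw [if_pos hc, hc, inv_mul_cancel, map_one, LinearMap.trace_one, smul_eq_mul]
      · rw [if_neg hc, h, smul_zero]
        intro hmem
        apply hc
        have h3 : (QuotientGroup.mk (Quotient.out c₀) : P ⧸ K) = QuotientGroup.mk (Quotient.out c) :=
          QuotientGroup.eq.2 hmem
        rw [QuotientGroup.out_eq', QuotientGroup.out_eq'] at h3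
        exact h3.symm
    rw [Finset.sum_congr rfl (fun c _ => h2 c), Finset.sum_ite_eq' Finset.univ c₀, if_pos (Finset.mem_univ _)] at h1
    have h3 : (Module.finrank ℂ V : ℂ) ≠ 0 := by
      rw [Nat.cast_ne_zero]
      exact (Module.finrank_pos).ne'
    exact (mul_eq_zero.1 h1).resolve_right h3
  have h1 := hli.fintype_card_le_finrank
  rw [Module.finrank_linearMap] at h1
  rw [Subgroup.index, Nat.card_eq_fintype_card, sq]
  exact h1

end Pool.Agent.DLF
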