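import Mathlib

/-!
# [DLF-A2] the section with a faithful central character

`P` a finite nilpotent group that is not abelian. There are a proper normal subgroup `K` and a
homomorphism `lam : K →* ℂˣ`, invariant under conjugation by `P`, such that for each `t ∉ K` there
is `y ∈ P` with `y t y⁻¹ t⁻¹ ∈ K` and `lam (y t y⁻¹ t⁻¹) ≠ 1`.

Proof. Choose a normal subgroup `N₀` of `P`, of maximal order such that `P ⧸ N₀` is not abelian, i.e.
`commutator P` is not contained in `N₀` (finitely many subgroups, `⊥` is one of them). Put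
`Q = P ⧸ N₀`, finite nilpotent, not abelian.
(i) every nontrivial normal subgroup `L` of `Q` contains `commutator Q`: the preimage of `L` in `P` is
normal and strictly bigger than `N₀`, so contains `commutator P`.
(ii) `commutator Q ⊓ center Q ≠ ⊥` (a nontrivial normal subgroup of a nilpotent group meets the
center: Mathlib may have it, e.g. `Group.IsNilpotent...`; else: let `i` be maximal with
`H_i := commutator Q`-type lower central term `≠ ⊥`: the last nontrivial term `γ` of the lower
central series is central, nontrivial and (the class being `≥ 2`) contained in `commutator Q`).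
It is normal (subgroup of the center), so by (i) it contains `commutator Q`: `commutator Q ≤ center Q`.
(iii) so each nontrivial subgroup `L` of `commutator Q` is central, hence normal, hence
`L = commutator Q` by (i).
Let `Z = center Q`, a finite abelian group, and `z ∈ commutator Q`, `z ≠ 1`. There is a homomorphism
`mu : Z →* ℂˣ` with `mu z ≠ 1` (`CommGroup.exists_apply_ne_one_of_hasEnoughRootsOfUnity`). The kernel
of `mu` restricted to `commutator Q` is a subgroup of `commutator Q` not containing `z`, so it is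
trivial by (iii): `mu w ≠ 1` for each `w ∈ commutator Q`, `w ≠ 1`.
Let `K` = preimage of `Z` in `P` (`K ≠ ⊤` because `Q` is not abelian), `lam k = mu (image of k)`.
Invariance: the image of `k` is central, so the image of `x k x⁻¹` is the image of `k`.
Let `t ∉ K`: the image of `t` is not central, so there is `y` with `y t y⁻¹ t⁻¹ ∉ N₀`; its image is a
nontrivial element of `commutator Q ≤ Z`, so `y t y⁻¹ t⁻¹ ∈ K` and `lam` of it is `≠ 1`.
-/

set_option autoImplicit false

namespace Pool.Agent.DLF

open scoped commutatorElement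

private theorem a2_Q {Q : Type*} [Group Q] [Finite Q] [Group.IsNilpotent Q]
    (hna : _root_.commutator Q ≠ ⊥)
    (hmin : ∀ L : Subgroup Q, L.Normal → L ≠ ⊥ → _root_.commutator Q ≤ L) :
    _root_.commutator Q ≤ Subgroup.center Q ∧ ∃ mu : Subgroup.center Q →* ℂˣ,
      ∀ (w : Q) (hw : w ∈ Subgroup.center Q), w ∈ _root_.commutator Q → w ≠ 1 → mu ⟨w, hw⟩ ≠ 1 := by
  classical
  have hex : ∃ n, (⊤ : Subgroup Q).lowerCentralSeries n = ⊥ :=
    Subgroup.nilpotent_iff_lowerCentralSeries.1 inferInstance
  have hn := Nat.find_spec hex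
  have hmin' := fun m (hm : m < Nat.find hex) => Nat.find_min hex hm
  have hle : _root_.commutator Q ≤ Subgroup.center Q := by
    obtain ⟨m, hm⟩ : ∃ m, Nat.find hex = m + 2 := by
      rcases h0 : Nat.find hex with _ | _ | m
      · exfalso
        rw [h0] at hn
        apply hna
        rw [eq_bot_iff, ← hn]
        exact le_top
      · exfalso
        rw [h0] at hn
        exact hna hn
      · exact ⟨m, rfl⟩
    rw [hm] at hn
    have h1 : (⊤ : Subgroup Q).lowerCentralSeries (m + 1) ≠ ⊥ := hmin' (m + 1) (by omega)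
    have h2 : (⊤ : Subgroup Q).lowerCentralSeries (m + 1) ≤ Subgroup.center Q := by
      have h3 : ⁅(⊤ : Subgroup Q).lowerCentralSeries (m + 1), (⊤ : Subgroup Q)⁆ = ⊥ := hn
      intro x hx
      rw [Subgroup.mem_center_iff]
      intro g
      have h4 : ⁅x, g⁆ ∈ ⁅(⊤ : Subgroup Q).lowerCentralSeries (m + 1), (⊤ : Subgroup Q)⁆ :=
        Subgroup.commutator_mem_commutator hx (Subgroup.mem_top g)
      rw [h3, Subgroup.mem_bot, commutatorElement_eq_one_iff_mul_comm] at h4
      exact h4.symm
    exact (hmin _ inferInstance h1).trans h2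
  refine ⟨hle, ?_⟩
  obtain ⟨z, hz, hz1⟩ : ∃ z ∈ _root_.commutator Q, z ≠ 1 := by
    by_contra hcon
    push Not at hcon
    exact hna ((Subgroup.eq_bot_iff_forall _).2 hcon)
  obtain ⟨mu, hmu⟩ : ∃ mu : Subgroup.center Q →* ℂˣ, mu ⟨z, hle hz⟩ ≠ 1 := by
    letI : CommGroup (Subgroup.center Q) :=
      { (inferInstance : Group (Subgroup.center Q)) with
        mul_comm := fun a b => Subtype.ext ((Subgroup.mem_center_iff.1 b.2) a) }
    exact CommGroup.exists_apply_ne_one_of_hasEnoughRootsOfUnity (Subgroup.center Q) ℂ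
      (a := ⟨z, hle hz⟩) (fun h => hz1 (congrArg Subtype.val h))
  refine ⟨mu, fun w hw hwc hw1 hmw => hmu ?_⟩
  have hnorm : (Subgroup.zpowers w).Normal := by
    refine ⟨fun n hn g => ?_⟩
    have h1 : n ∈ Subgroup.center Q := (Subgroup.zpowers_le.2 hw) hn
    have h2 : g * n * g⁻¹ = n := by
      rw [(Subgroup.mem_center_iff.1 h1) g, mul_inv_cancel_right]
    rwa [h2]
  have h1 := hmin (Subgroup.zpowers w) hnorm (by
    rw [Ne, Subgroup.zpowers_eq_bot]
    exact hw1) hz
  obtain ⟨k, hk⟩ := Subgroup.mem_zpowers_iff.1 h1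
  have h2 : (⟨z, hle hz⟩ : Subgroup.center Q) = (⟨w, hw⟩ : Subgroup.center Q) ^ k := Subtype.ext hk.symm
  rw [h2, map_zpow, hmw, one_zpow]

theorem exists_section {P : Type*} [Group P] [Finite P] [Group.IsNilpotent P]
    (h : ¬ ∀ a b : P, a * b = b * a) :
    ∃ K : Subgroup P, K.Normal ∧ K ≠ ⊤ ∧ ∃ lam : ↥K →* ℂˣ,
      (∀ (x : P) (k : ↥K) (hk : x * (k : P) * x⁻¹ ∈ K), lam ⟨x * (k : P) * x⁻¹, hk⟩ = lam k) ∧
      ∀ t : P, t ∉ K → ∃ (y : P) (hy : y * t * y⁻¹ * t⁻¹ ∈ K),
        lam ⟨y * t * y⁻¹ * t⁻¹, hy⟩ ≠ 1 := by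
  classical
  have hne : ({N : Subgroup P | N.Normal ∧ ¬ _root_.commutator P ≤ N}).Nonempty := by
    refine ⟨⊥, inferInstance, fun hcon => h fun a b => ?_⟩
    have h1 : ⁅a, b⁆ ∈ _root_.commutator P :=
      Subgroup.commutator_mem_commutator (Subgroup.mem_top a) (Subgroup.mem_top b)
    have h2 := hcon h1
    rwa [Subgroup.mem_bot, commutatorElement_eq_one_iff_mul_comm] at h2
  obtain ⟨N, ⟨hN, hNc⟩, hmax⟩ := (Set.toFinite _).exists_maximal hne
  have := hN
  have hcomm : ∀ g t : P ⧸ N, g * t * g⁻¹ * t⁻¹ ∈ _root_.commutator (P ⧸ N) := by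
    intro g t
    have h1 : ⁅g, t⁆ ∈ _root_.commutator (P ⧸ N) :=
      Subgroup.commutator_mem_commutator (Subgroup.mem_top g) (Subgroup.mem_top t)
    rwa [commutatorElement_def] at h1
  have hmap : _root_.commutator (P ⧸ N) = (_root_.commutator P).map (QuotientGroup.mk' N) := by
    rw [_root_.commutator_def, _root_.commutator_def, Subgroup.map_commutator,
      Subgroup.map_top_of_surjective _ (QuotientGroup.mk'_surjective N)]
  have hna : _root_.commutator (P ⧸ N) ≠ ⊥ := by
    rw [hmap, Ne, Subgroup.map_eq_bot_iff, QuotientGroup.ker_mk']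
    exact hNc
  have hmin : ∀ L : Subgroup (P ⧸ N), L.Normal → L ≠ ⊥ → _root_.commutator (P ⧸ N) ≤ L := by
    intro L hL hL1
    rw [hmap, Subgroup.map_le_iff_le_comap]
    by_contra hcon
    have h1 : L.comap (QuotientGroup.mk' N) ≤ N := by
      refine hmax (y := L.comap (QuotientGroup.mk' N)) ⟨hL.comap _, hcon⟩ ?_
      intro x hx
      rw [Subgroup.mem_comap]
      have h2 : QuotientGroup.mk' N x = 1 := (QuotientGroup.eq_one_iff x).2 hx
      rw [h2]
      exact L.one_mem
    apply hL1
    rw [Subgroup.eq_bot_iff_forall]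
    intro q hq
    obtain ⟨x, rfl⟩ := QuotientGroup.mk'_surjective N q
    exact (QuotientGroup.eq_one_iff x).2 (h1 hq)
  obtain ⟨hle, mu, hmu⟩ := a2_Q hna hmin
  refine ⟨(Subgroup.center (P ⧸ N)).comap (QuotientGroup.mk' N), inferInstance, ?_,
    mu.comp ((QuotientGroup.mk' N).subgroupComap (Subgroup.center (P ⧸ N))), ?_, ?_⟩
  · intro hcon
    apply hNc
    intro x hx
    have h1 : _root_.commutator (P ⧸ N) = ⊥ := by
      rw [_root_.commutator_def, Subgroup.commutator_eq_bot_iff_le_centralizer]
      intro g _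
      rw [Subgroup.mem_centralizer_iff]
      intro t _
      obtain ⟨y, rfl⟩ := QuotientGroup.mk'_surjective N g
      have h2 : y ∈ (Subgroup.center (P ⧸ N)).comap (QuotientGroup.mk' N) := by
        rw [hcon]
        exact Subgroup.mem_top y
      exact (Subgroup.mem_center_iff.1 (Subgroup.mem_comap.1 h2)) t
    exact absurd h1 hna
  · intro x k hk
    show mu _ = mu _
    congr 1
    apply Subtype.ext
    show (QuotientGroup.mk' N) (x * (k : P) * x⁻¹) = (QuotientGroup.mk' N) (k : P)
    have h1 : (QuotientGroup.mk' N) (k : P) ∈ Subgroup.center (P ⧸ N) := k.2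
    rw [map_mul, map_mul, map_inv, (Subgroup.mem_center_iff.1 h1) _, mul_inv_cancel_right]
  · intro t ht
    have h1 : QuotientGroup.mk' N t ∉ Subgroup.center (P ⧸ N) := ht
    rw [Subgroup.mem_center_iff] at h1
    push Not at h1
    obtain ⟨g, hg⟩ := h1
    obtain ⟨y, rfl⟩ := QuotientGroup.mk'_surjective N g
    have h2 : QuotientGroup.mk' N (y * t * y⁻¹ * t⁻¹) ∈ _root_.commutator (P ⧸ N) := by
      rw [map_mul, map_mul, map_mul, map_inv, map_inv]
      exact hcomm _ _
    refine ⟨y, hle h2, ?_⟩
    refine hmu _ (hle h2) h2 ?_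
    intro hcon
    apply hg
    rw [map_mul, map_mul, map_mul, map_inv, map_inv, mul_inv_eq_one, mul_inv_eq_iff_eq_mul] at hcon
    exact hcon

end Pool.Agent.DLF
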