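import Pool.Agent.DLF.G1

/-!
# [DLF-A3] an irreducible representation of `P` over an irreducible representation of `K`

`K ≤ P` finite, `θ` an irreducible representation of `K` of degree `e > 0`. There is an irreducible
representation `η` of `P` and an injective linear `T : ℂ^e → ℂ^d` with
`T (θ k v) = η k (T v)` for `k ∈ K`.

Proof. Let `F = (P → ℂ)` with the right translations `(R g f) x = f (x * g)`, a representation
`R : P →* Module.End ℂ F`, `F` finite-dimensional. Fix `i : Fin e` (`i = ⟨0, he⟩`) and define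
`Φ : (Fin e → ℂ) →ₗ F` by `Φ v x = ((θ ⟨x, _⟩).mulVec v) i` if `x ∈ K` and `0` otherwise. Then
`Φ (θ k v) = R k (Φ v)` for `k ∈ K` (`x k ∈ K ↔ x ∈ K`), and `Φ ≠ 0` (`Φ v 1 = v i`).
`F` is a sum of `P`-invariant irreducible subspaces. Formal way to avoid direct sums: strong induction
on the dimension for the following statement. For every finite-dimensional representation
`R : P →* Module.End ℂ F` and every linear `Φ : ℂ^e → F`, `Φ ≠ 0`, with `Φ (θ k v) = R k (Φ v)` for
all `k ∈ K`, the conclusion holds: if `F` has no invariant subspaces besides `⊥` and `⊤`, take a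
basis of `F` (matrix representation, as in G1), `T` = `Φ` in coordinates, injective since `ker Φ` is
`θ`-invariant and not `⊤` (so `⊥` by `hθ`). Otherwise `F = W ⊕ U` with `W`, `U` invariant of smaller
dimension (`exists_invariant_compl` of G1); one of the two projections composed with `Φ` is nonzero and
equivariant, apply the induction hypothesis to it.
-/

set_option autoImplicit false

namespace Pool.Agent.DLF

universe u

open Module

/-- restriction of a representation to an invariant subspace -/
private def a3_res {P : Type*} [Group P] {F : Type*} [AddCommGroup F] [Module ℂ F] (R : P →* Module.End ℂ F)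
    (W : Submodule ℂ F) (hW : ∀ g : P, ∀ v ∈ W, R g v ∈ W) : P →* Module.End ℂ W where
  toFun g := (R g).restrict (hW g)
  map_one' := by
    ext v
    rw [LinearMap.coe_restrict_apply, map_one]
    rfl
  map_mul' g h := by
    ext v
    rw [LinearMap.coe_restrict_apply, map_mul]
    rfl

private theorem a3_res_apply {P : Type*} [Group P] {F : Type*} [AddCommGroup F] [Module ℂ F]
    (R : P →* Module.End ℂ F) (W : Submodule ℂ F) (hW : ∀ g : P, ∀ v ∈ W, R g v ∈ W) (g : P) (w : W) :
    ((a3_res R W hW g w : W) : F) = R g w := rfl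

private theorem a3_proj {P : Type*} [Group P] {F : Type*} [AddCommGroup F] [Module ℂ F]
    (R : P →* Module.End ℂ F) (W U : Submodule ℂ F) (hW : ∀ g : P, ∀ v ∈ W, R g v ∈ W)
    (hU : ∀ g : P, ∀ v ∈ U, R g v ∈ U) (h : IsCompl W U) (g : P) (v : F) :
    W.projectionOnto U h (R g v) = a3_res R W hW g (W.projectionOnto U h v) := by
  have hπU : ∀ u : W, W.projectionOnto U h (u : F) = u := fun u => Submodule.projectionOnto_apply_left h u
  have hπU' : ∀ v ∈ U, W.projectionOnto U h v = 0 := fun v hv => (Submodule.projectionOnto_apply_eq_zero_iff h).2 hv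
  obtain ⟨u, u', hv⟩ : ∃ u : W, ∃ u' : U, (u : F) + u' = v := by
    have h1 : v ∈ W ⊔ U := by
      rw [h.sup_eq_top]
      exact Submodule.mem_top
    obtain ⟨y, hy, z, hz, h2⟩ := Submodule.mem_sup.1 h1
    exact ⟨⟨y, hy⟩, ⟨z, hz⟩, h2⟩
  rw [← hv, map_add, map_add, map_add, hπU, hπU' _ u'.2, add_zero, hπU' _ (hU g u' u'.2), add_zero]
  have h1 : W.projectionOnto U h (R g (u : F)) = (⟨R g u, hW g u u.2⟩ : W) := hπU ⟨R g u, hW g u u.2⟩
  rw [h1]
  apply Subtype.ext
  rw [a3_res_apply]

private theorem a3_aux {P : Type*} [Group P] [Finite P] (K : Subgroup P) {e : ℕ}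
    (θ : ↥K →* Matrix (Fin e) (Fin e) ℂ) (hθ : Irr θ) (n : ℕ) :
    ∀ (F : Type u) [AddCommGroup F] [Module ℂ F] [FiniteDimensional ℂ F] (R : P →* Module.End ℂ F)
      (Φ : (Fin e → ℂ) →ₗ[ℂ] F), finrank ℂ F = n → Φ ≠ 0 →
      (∀ (k : ↥K) (v : Fin e → ℂ), Φ (Matrix.mulVec (θ k) v) = R k (Φ v)) →
      ∃ (d : ℕ) (η : P →* Matrix (Fin d) (Fin d) ℂ), 0 < d ∧ Irr η ∧
        ∃ T : (Fin e → ℂ) →ₗ[ℂ] (Fin d → ℂ), Function.Injective T ∧
          ∀ (k : ↥K) (v : Fin e → ℂ),
            T (Matrix.mulVec (θ k) v) = Matrix.mulVec (η (k : P)) (T v) := by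
  induction n using Nat.strong_induction_on with
  | _ n ih =>
    intro F _ _ _ R Φ hn hΦ hΦeq
    obtain ⟨v₀, hv₀⟩ : ∃ v, Φ v ≠ 0 := by
      by_contra hcon
      push Not at hcon
      exact hΦ (LinearMap.ext hcon)
    by_cases hirr : ∀ W : Submodule ℂ F, (∀ g : P, ∀ v ∈ W, R g v ∈ W) → W = ⊥ ∨ W = ⊤
    · have : Nontrivial F := ⟨⟨Φ v₀, 0, hv₀⟩⟩
      set b := Module.finBasis ℂ F with hb
      set η : P →* Matrix (Fin (finrank ℂ F)) (Fin (finrank ℂ F)) ℂ :=
        ((LinearMap.toMatrixAlgEquiv b : Module.End ℂ F ≃ₐ[ℂ] _) : Module.End ℂ F →* _).comp R with hη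
      have hηb : ∀ g v, b.equivFun (R g v) = Matrix.mulVec (η g) (b.equivFun v) := by
        intro g v
        have h1 := LinearMap.toMatrix_mulVec_repr b b (R g) v
        exact h1.symm
      refine ⟨finrank ℂ F, η, finrank_pos, ?_, b.equivFun.toLinearMap ∘ₗ Φ, ?_, ?_⟩
      · intro W hW
        have hW' : ∀ g : P, ∀ v ∈ W.comap b.equivFun.toLinearMap, R g v ∈ W.comap b.equivFun.toLinearMap := by
          intro g v hv
          rw [Submodule.mem_comap] at hv ⊢
          have h1 : b.equivFun.toLinearMap (R g v) = Matrix.mulVec (η g) (b.equivFun.toLinearMap v) := hηb g v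
          rw [h1]
          exact hW g _ hv
        have hmap : (W.comap b.equivFun.toLinearMap).map b.equivFun.toLinearMap = W :=
          Submodule.map_comap_eq_of_surjective b.equivFun.surjective W
        rcases hirr _ hW' with h1 | h1
        · left
          rw [← hmap, h1, Submodule.map_bot]
        · right
          rw [← hmap, h1, Submodule.map_top]
          exact LinearMap.range_eq_top.2 b.equivFun.surjective
      · have hker : LinearMap.ker Φ = ⊥ := by
          rcases hθ (LinearMap.ker Φ) (by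
            intro k v hv
            rw [LinearMap.mem_ker] at hv ⊢
            rw [hΦeq, hv, map_zero]) with h1 | h1
          · exact h1
          · exfalso
            apply hv₀
            have h2 : v₀ ∈ LinearMap.ker Φ := by
              rw [h1]
              exact Submodule.mem_top
            exact h2
        intro x y hxy
        have h1 : Φ x = Φ y := b.equivFun.injective hxy
        exact LinearMap.ker_eq_bot.1 hker h1
      · intro k v
        show b.equivFun (Φ (Matrix.mulVec (θ k) v)) = Matrix.mulVec (η k) (b.equivFun (Φ v))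
        rw [hΦeq, hηb]
    · push Not at hirr
      obtain ⟨W, hW, hW1, hW2⟩ := hirr
      obtain ⟨U, hU, hc⟩ := exists_invariant_compl R W hW
      have hUtop : U ≠ ⊤ := by
        intro hcon
        apply hW1
        have := hc.inf_eq_bot
        rwa [hcon, inf_top_eq] at this
      by_cases h1 : W.projectionOnto U hc ∘ₗ Φ = 0
      · have h2 : U.projectionOnto W hc.symm ∘ₗ Φ ≠ 0 := by
          intro h2
          apply hv₀
          have h3 : W.projectionOnto U hc (Φ v₀) = 0 := LinearMap.congr_fun h1 v₀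
          have h4 : U.projectionOnto W hc.symm (Φ v₀) = 0 := LinearMap.congr_fun h2 v₀
          rw [Submodule.projectionOnto_apply_eq_zero_iff] at h3 h4
          have h5 : Φ v₀ ∈ W ⊓ U := ⟨h4, h3⟩
          rw [hc.inf_eq_bot, Submodule.mem_bot] at h5
          exact h5
        refine ih (finrank ℂ U) ?_ U (a3_res R U hU) _ rfl h2 ?_
        · rw [← hn]
          exact Submodule.finrank_lt hUtop
        · intro k v
          show U.projectionOnto W hc.symm (Φ (Matrix.mulVec (θ k) v)) = _
          rw [hΦeq, a3_proj R U W hU hW hc.symm]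
          rfl
      · refine ih (finrank ℂ W) ?_ W (a3_res R W hW) _ rfl h1 ?_
        · rw [← hn]
          exact Submodule.finrank_lt hW2
        · intro k v
          show W.projectionOnto U hc (Φ (Matrix.mulVec (θ k) v)) = _
          rw [hΦeq, a3_proj R W U hW hU hc]
          rfl

theorem exists_irr_over {P : Type*} [Group P] [Finite P] (K : Subgroup P) {e : ℕ} (he : 0 < e)
    (θ : ↥K →* Matrix (Fin e) (Fin e) ℂ) (hθ : Irr θ) :
    ∃ (d : ℕ) (η : P →* Matrix (Fin d) (Fin d) ℂ), 0 < d ∧ Irr η ∧
      ∃ T : (Fin e → ℂ) →ₗ[ℂ] (Fin d → ℂ), Function.Injective T ∧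
        ∀ (k : ↥K) (v : Fin e → ℂ),
          T (Matrix.mulVec (θ k) v) = Matrix.mulVec (η (k : P)) (T v) := by
  classical
  let R : P →* Module.End ℂ (P → ℂ) :=
    { toFun := fun g => LinearMap.funLeft ℂ ℂ (fun x => x * g)
      map_one' := by
        ext f x
        simp [LinearMap.funLeft]
      map_mul' := by
        intro g h
        apply LinearMap.ext
        intro f
        funext x
        show f (x * (g * h)) = f (x * g * h)
        rw [mul_assoc] }
  have hR : ∀ g f x, R g f x = f (x * g) := fun _ _ _ => rfl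
  let Φ : (Fin e → ℂ) →ₗ[ℂ] (P → ℂ) :=
    { toFun := fun v x => if h : x ∈ K then (Matrix.mulVec (θ ⟨x, h⟩) v) ⟨0, he⟩ else 0
      map_add' := by
        intro v w
        funext x
        show _ = (if h : x ∈ K then (Matrix.mulVec (θ ⟨x, h⟩) v) ⟨0, he⟩ else 0) +
          (if h : x ∈ K then (Matrix.mulVec (θ ⟨x, h⟩) w) ⟨0, he⟩ else 0)
        by_cases h : x ∈ K
        · simp only [dif_pos h, Matrix.mulVec_add, Pi.add_apply]
        · simp only [dif_neg h, add_zero]
      map_smul' := by
        intro c v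
        funext x
        show _ = c * (if h : x ∈ K then (Matrix.mulVec (θ ⟨x, h⟩) v) ⟨0, he⟩ else 0)
        by_cases h : x ∈ K
        · simp only [dif_pos h, Matrix.mulVec_smul, Pi.smul_apply, smul_eq_mul]
        · simp only [dif_neg h, mul_zero] }
  have hΦx : ∀ v x, Φ v x = if h : x ∈ K then (Matrix.mulVec (θ ⟨x, h⟩) v) ⟨0, he⟩ else 0 := fun _ _ => rfl
  refine a3_aux K θ hθ (finrank ℂ (P → ℂ)) (P → ℂ) R Φ rfl ?_ ?_
  · intro hcon
    have h1 := congrFun (LinearMap.congr_fun hcon (Pi.single ⟨0, he⟩ 1)) 1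
    rw [hΦx, dif_pos K.one_mem] at h1
    have h2 : (⟨1, K.one_mem⟩ : K) = 1 := rfl
    rw [h2, map_one, Matrix.one_mulVec, Pi.single_eq_same] at h1
    exact one_ne_zero h1
  · intro k v
    funext x
    rw [hR, hΦx, hΦx]
    by_cases h : x ∈ K
    · have h' : x * k ∈ K := K.mul_mem h k.2
      rw [dif_pos h, dif_pos h', Matrix.mulVec_mulVec, ← map_mul]
      rfl
    · have h' : x * k ∉ K := fun h' => h ((Subgroup.mul_mem_cancel_right K k.2).1 h')
      rw [dif_neg h, dif_neg h']

end Pool.Agent.DLF
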