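import Pool.Agent.DLF.G1

/-!
# [DLF-A4] dimension of the space of equivariant maps

`K` finite, `ρ` on `V`, `σ` on `W` finite-dimensional. If every nonzero `ρ`-invariant subspace of `V`
has dimension `≥ e`, then `e^2 * dim Hom_K(V, W) ≤ dim V * dim W`.

Proof.
(1) Claim: if `V` is irreducible (invariant subspaces are `⊥` or `⊤`, `V ≠ 0`), then
`dim V * dim Hom_K(V, W) ≤ dim W`. Strong induction on `dim W`. If `Hom_K(V, W) = 0`, done. Else take
`f ≠ 0` in it; `ker f` is invariant and `≠ ⊤`, so `f` is injective; `range f` is invariant,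
`dim = dim V`; let `U` be an invariant complement of `range f` in `W` (`exists_invariant_compl`).
`Hom_K(V, W) → Hom_K(V, range f) × Hom_K(V, U)` (compose with the two projections) is injective, and
`dim Hom_K(V, range f) ≤ 1` by Schur (an equivariant map `h : V → range f`; `f⁻¹ ∘ h` is an
equivariant endomorphism of `V`, it has an eigenvalue `c` (`Module.End.exists_eigenvalue`), the
eigenspace is invariant and nonzero so all of `V`, so `h = c f`). So
`dim V * dim Hom_K(V,W) ≤ dim V * (1 + dim Hom_K(V,U)) ≤ dim V + dim U = dim W`.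
(2) General `V`: strong induction on `dim V`. `V = 0`: trivial. `V` irreducible: by (1)
`e^2 * dim Hom ≤ e * dim V * dim Hom ≤ e * dim W ≤ dim V * dim W` (`e ≤ dim V` by hypothesis).
Otherwise `V = X ⊕ U`, `X`, `U` invariant, nonzero, smaller (`exists_invariant_compl`), both satisfy
the hypothesis, and `Hom_K(V, W) → Hom_K(X, W) × Hom_K(U, W)` (restriction) is injective, so
`e^2 * dim Hom_K(V,W) ≤ dim X * dim W + dim U * dim W = dim V * dim W`.
(All types in one universe per variable; submodules `↥X` with the restricted representations.)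
-/

set_option autoImplicit false

namespace Pool.Agent.DLF

open Module

/-- the representation on an invariant subspace -/
def a4_res {K V : Type*} [Group K] [AddCommGroup V] [Module ℂ V] (ρ : K →* Module.End ℂ V)
    (X : Submodule ℂ V) (hX : ∀ k : K, ∀ x ∈ X, ρ k x ∈ X) : K →* Module.End ℂ ↥X where
  toFun k := (ρ k).restrict (hX k)
  map_one' := by
    ext x
    simp
  map_mul' a b := by
    ext x
    simp

theorem a4_res_apply {K V : Type*} [Group K] [AddCommGroup V] [Module ℂ V] (ρ : K →* Module.End ℂ V)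
    (X : Submodule ℂ V) (hX : ∀ k : K, ∀ x ∈ X, ρ k x ∈ X) (k : K) (x : X) :
    ((a4_res ρ X hX k x : X) : V) = ρ k x := rfl

/-- Schur's lemma -/
theorem a4_schur {K V W : Type*} [Group K] [AddCommGroup V] [Module ℂ V]
    [AddCommGroup W] [Module ℂ W] [FiniteDimensional ℂ V] [Nontrivial V]
    (ρ : K →* Module.End ℂ V) (σ : K →* Module.End ℂ W)
    (hirr : ∀ Y : Submodule ℂ V, (∀ k : K, ∀ v ∈ Y, ρ k v ∈ Y) → Y = ⊥ ∨ Y = ⊤)
    {f h : V →ₗ[ℂ] W} (hf : f ∈ homK ρ σ) (hh : h ∈ homK ρ σ) (hinj : Function.Injective f)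
    (hr : ∀ v, h v ∈ LinearMap.range f) : ∃ c : ℂ, h = c • f := by
  have hg : ∀ v, f ((LinearEquiv.ofInjective f hinj).symm ⟨h v, hr v⟩) = h v := by
    intro v
    have h1 := (LinearEquiv.ofInjective f hinj).apply_symm_apply ⟨h v, hr v⟩
    exact congrArg Subtype.val h1
  obtain ⟨c, hc⟩ := Module.End.exists_eigenvalue
    ((LinearEquiv.ofInjective f hinj).symm.toLinearMap ∘ₗ (h.codRestrict (LinearMap.range f) hr))
  obtain ⟨v, hv⟩ := hc.exists_hasEigenvector
  have hv1 : (LinearEquiv.ofInjective f hinj).symm ⟨h v, hr v⟩ = c • v := hv.apply_eq_smul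
  have hv2 : h v = c • f v := by
    rw [← hg v, hv1, map_smul]
  refine ⟨c, ?_⟩
  have hE := hirr (LinearMap.ker (h - c • f)) (by
    intro k x hx
    rw [LinearMap.mem_ker, LinearMap.sub_apply, LinearMap.smul_apply] at hx ⊢
    rw [hh k x, hf k x, ← map_smul, ← map_sub, hx, map_zero])
  rcases hE with hE | hE
  · exfalso
    apply hv.2
    have h2 : v ∈ LinearMap.ker (h - c • f) := by
      rw [LinearMap.mem_ker, LinearMap.sub_apply, LinearMap.smul_apply, hv2, sub_self]
    rw [hE] at h2
    exact (Submodule.mem_bot ℂ).1 h2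
  · exact sub_eq_zero.1 (LinearMap.ker_eq_top.1 hE)

/-- composition with an equivariant map -/
def a4_post {K V W U : Type*} [Group K] [AddCommGroup V] [Module ℂ V] [AddCommGroup W] [Module ℂ W]
    [AddCommGroup U] [Module ℂ U] (ρ : K →* Module.End ℂ V) (σ : K →* Module.End ℂ W)
    (τ : K →* Module.End ℂ U) (q : W →ₗ[ℂ] U) (hq : ∀ k w, q (σ k w) = τ k (q w)) :
    homK ρ σ →ₗ[ℂ] homK ρ τ where
  toFun f := ⟨q ∘ₗ f.1, fun k v => by
    rw [LinearMap.comp_apply, LinearMap.comp_apply, f.2 k v, hq]⟩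
  map_add' f g := by
    ext v
    simp
  map_smul' c f := by
    ext v
    simp

/-- the irreducible case -/
theorem a4_irr {K : Type*} [Group K] [Finite K] {V : Type*} [AddCommGroup V] [Module ℂ V]
    [FiniteDimensional ℂ V] [Nontrivial V] (ρ : K →* Module.End ℂ V)
    (hirr : ∀ Y : Submodule ℂ V, (∀ k : K, ∀ v ∈ Y, ρ k v ∈ Y) → Y = ⊥ ∨ Y = ⊤) (n : ℕ) :
    ∀ {W : Type*} [AddCommGroup W] [Module ℂ W] [FiniteDimensional ℂ W] (σ : K →* Module.End ℂ W),
      finrank ℂ W = n → finrank ℂ V * finrank ℂ (homK ρ σ) ≤ finrank ℂ W := by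
  induction n using Nat.strong_induction_on with
  | _ n ih =>
    intro W _ _ _ σ hn
    by_cases h0 : homK ρ σ = ⊥
    · rw [h0, finrank_bot, mul_zero]
      exact Nat.zero_le _
    · obtain ⟨f, hf, hf0⟩ := (Submodule.ne_bot_iff _).1 h0
      have hker : LinearMap.ker f = ⊥ := by
        rcases hirr (LinearMap.ker f) (by
          intro k v hv
          rw [LinearMap.mem_ker] at hv ⊢
          rw [hf k v, hv, map_zero]) with h1 | h1
        · exact h1
        · exact absurd (LinearMap.ker_eq_top.1 h1) hf0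
      have hinj : Function.Injective f := LinearMap.ker_eq_bot.1 hker
      have hR : ∀ k : K, ∀ w ∈ LinearMap.range f, σ k w ∈ LinearMap.range f := by
        rintro k w ⟨v, rfl⟩
        exact ⟨ρ k v, hf k v⟩
      obtain ⟨U, hU, hc⟩ := exists_invariant_compl σ (LinearMap.range f) hR
      have hdim : finrank ℂ (LinearMap.range f) + finrank ℂ U = finrank ℂ W :=
        Submodule.finrank_add_eq_of_isCompl hc
      have hRV : finrank ℂ (LinearMap.range f) = finrank ℂ V := LinearMap.finrank_range_of_inj hinj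
      have hVpos : 0 < finrank ℂ V := finrank_pos
      have hUlt : finrank ℂ U < n := by omega
      have hq : ∀ k w, (U.projectionOnto _ hc.symm) (σ k w) =
          a4_res σ U hU k ((U.projectionOnto _ hc.symm) w) := by
        intro k w
        obtain ⟨r, u, hru, -⟩ := Submodule.existsUnique_add_of_isCompl hc w
        rw [← hru, map_add, map_add, map_add]
        have e1 : (U.projectionOnto _ hc.symm) (r : W) = 0 :=
          Submodule.projectionOnto_apply_right hc.symm r
        have e2 : (U.projectionOnto _ hc.symm) (u : W) = u :=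
          Submodule.projectionOnto_apply_left hc.symm u
        have e3 : (U.projectionOnto _ hc.symm) (σ k (r : W)) = 0 :=
          Submodule.projectionOnto_apply_right hc.symm ⟨σ k r, hR k r r.2⟩
        have e4 : (U.projectionOnto _ hc.symm) (σ k (u : W)) = ⟨σ k u, hU k u u.2⟩ :=
          Submodule.projectionOnto_apply_left hc.symm ⟨σ k u, hU k u u.2⟩
        rw [e1, e2, e3, e4, zero_add, zero_add]
        rfl
      have hkerdim : finrank ℂ (LinearMap.ker (a4_post ρ σ (a4_res σ U hU) _ hq)) ≤ 1 := by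
        refine finrank_le_one (⟨⟨f, hf⟩, ?_⟩ : LinearMap.ker (a4_post ρ σ (a4_res σ U hU) _ hq)) ?_
        · rw [LinearMap.mem_ker]
          apply Subtype.ext
          apply LinearMap.ext
          intro v
          exact Submodule.projectionOnto_apply_right hc.symm ⟨f v, v, rfl⟩
        · rintro ⟨⟨h, hh⟩, hh2⟩
          have hr : ∀ v, h v ∈ LinearMap.range f := by
            intro v
            rw [LinearMap.mem_ker] at hh2
            have h3 := LinearMap.congr_fun (congrArg Subtype.val hh2) v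
            exact (Submodule.projectionOnto_apply_eq_zero_iff hc.symm).1 h3
          obtain ⟨c, hc2⟩ := a4_schur ρ σ hirr hf hh hinj hr
          refine ⟨c, ?_⟩
          apply Subtype.ext
          apply Subtype.ext
          exact hc2.symm
      have h4 := LinearMap.finrank_range_add_finrank_ker (K := ℂ) (V := homK ρ σ)
        (V₂ := homK ρ (a4_res σ U hU)) (a4_post ρ σ (a4_res σ U hU) _ hq)
      have h5 : finrank ℂ (LinearMap.range (a4_post ρ σ (a4_res σ U hU) _ hq)) ≤
          finrank ℂ (homK ρ (a4_res σ U hU)) := Submodule.finrank_le _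
      have h6 := ih _ hUlt (a4_res σ U hU) rfl
      have h7 : finrank ℂ (homK ρ σ) ≤ finrank ℂ (homK ρ (a4_res σ U hU)) + 1 := by omega
      calc finrank ℂ V * finrank ℂ (homK ρ σ) ≤ finrank ℂ V * (finrank ℂ (homK ρ (a4_res σ U hU)) + 1) :=
            Nat.mul_le_mul_left _ h7
        _ = finrank ℂ V * finrank ℂ (homK ρ (a4_res σ U hU)) + finrank ℂ V := by ring
        _ ≤ finrank ℂ U + finrank ℂ V := by omega
        _ = finrank ℂ W := by omega

/-- restriction to an invariant subspace -/
def a4_pre {K V W : Type*} [Group K] [AddCommGroup V] [Module ℂ V] [AddCommGroup W] [Module ℂ W]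
    (ρ : K →* Module.End ℂ V) (σ : K →* Module.End ℂ W) (X : Submodule ℂ V)
    (hX : ∀ k : K, ∀ x ∈ X, ρ k x ∈ X) : homK ρ σ →ₗ[ℂ] homK (a4_res ρ X hX) σ where
  toFun f := ⟨f.1 ∘ₗ X.subtype, fun k v => f.2 k v⟩
  map_add' f g := by
    ext v
    simp
  map_smul' c f := by
    ext v
    simp

theorem a4_sub {K V : Type*} [Group K] [AddCommGroup V] [Module ℂ V] (ρ : K →* Module.End ℂ V) (e : ℕ)
    (he : ∀ U : Submodule ℂ V, (∀ k : K, ∀ u ∈ U, ρ k u ∈ U) → U ≠ ⊥ → e ≤ finrank ℂ U)
    (X : Submodule ℂ V) (hX : ∀ k : K, ∀ x ∈ X, ρ k x ∈ X) :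
    ∀ U : Submodule ℂ X, (∀ k : K, ∀ u ∈ U, a4_res ρ X hX k u ∈ U) → U ≠ ⊥ → e ≤ finrank ℂ U := by
  intro U hU hne
  have h1 := he (U.map X.subtype) (by
    rintro k _ ⟨u, hu, rfl⟩
    exact ⟨a4_res ρ X hX k u, hU k u hu, rfl⟩) (by
    intro h0
    apply hne
    apply Submodule.map_injective_of_injective X.injective_subtype
    rw [h0, Submodule.map_bot])
  rwa [(Submodule.equivMapOfInjective X.subtype X.injective_subtype U).finrank_eq]

theorem a4_main {K : Type*} [Group K] [Finite K] {W : Type*} [AddCommGroup W] [Module ℂ W]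
    [FiniteDimensional ℂ W] (σ : K →* Module.End ℂ W) (e : ℕ) (n : ℕ) :
    ∀ {V : Type*} [AddCommGroup V] [Module ℂ V] [FiniteDimensional ℂ V] (ρ : K →* Module.End ℂ V),
      (∀ U : Submodule ℂ V, (∀ k : K, ∀ u ∈ U, ρ k u ∈ U) → U ≠ ⊥ → e ≤ finrank ℂ U) →
      finrank ℂ V = n → e ^ 2 * finrank ℂ (homK ρ σ) ≤ finrank ℂ V * finrank ℂ W := by
  induction n using Nat.strong_induction_on with
  | _ n ih =>
    intro V _ _ _ ρ he hn
    by_cases hV : finrank ℂ V = 0
    · have h1 : finrank ℂ (homK ρ σ) ≤ finrank ℂ (V →ₗ[ℂ] W) := Submodule.finrank_le _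
      rw [finrank_linearMap, hV, zero_mul, Nat.le_zero] at h1
      rw [h1, mul_zero]
      exact Nat.zero_le _
    · have hnt : Nontrivial V := finrank_pos_iff.1 (Nat.pos_of_ne_zero hV)
      by_cases hirr : ∀ Y : Submodule ℂ V, (∀ k : K, ∀ v ∈ Y, ρ k v ∈ Y) → Y = ⊥ ∨ Y = ⊤
      · have h1 := a4_irr ρ hirr _ σ rfl
        have h2 : e ≤ finrank ℂ V := by
          have h3 := he ⊤ (fun _ _ _ => Submodule.mem_top) top_ne_bot
          rwa [finrank_top] at h3
        calc e ^ 2 * finrank ℂ (homK ρ σ) = e * (e * finrank ℂ (homK ρ σ)) := by ring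
          _ ≤ e * (finrank ℂ V * finrank ℂ (homK ρ σ)) :=
            Nat.mul_le_mul_left _ (Nat.mul_le_mul_right _ h2)
          _ ≤ e * finrank ℂ W := Nat.mul_le_mul_left _ h1
          _ ≤ finrank ℂ V * finrank ℂ W := Nat.mul_le_mul_right _ h2
      · push Not at hirr
        obtain ⟨X, hX, hXb, hXt⟩ := hirr
        obtain ⟨U, hU, hc⟩ := exists_invariant_compl ρ X hX
        have hdim : finrank ℂ X + finrank ℂ U = finrank ℂ V := Submodule.finrank_add_eq_of_isCompl hc
        have hXpos : 0 < finrank ℂ X := by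
          rw [Nat.pos_iff_ne_zero]
          intro h0
          exact hXb (Submodule.finrank_eq_zero.1 h0)
        have hXlt : finrank ℂ X < finrank ℂ V := Submodule.finrank_lt hXt
        have h1 := ih (finrank ℂ X) (by omega) (a4_res ρ X hX) (a4_sub ρ e he X hX) rfl
        have h2 := ih (finrank ℂ U) (by omega) (a4_res ρ U hU) (a4_sub ρ e he U hU) rfl
        have hinj : Function.Injective ((a4_pre ρ σ X hX).prod (a4_pre ρ σ U hU)) := by
          rw [← LinearMap.ker_eq_bot, LinearMap.ker_eq_bot']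
          intro f hf0
          have h3 := congrArg Prod.fst hf0
          have h4 := congrArg Prod.snd hf0
          apply Subtype.ext
          apply LinearMap.ext
          intro v
          obtain ⟨x, u, hxu, -⟩ := Submodule.existsUnique_add_of_isCompl hc v
          have h5 : f.1 (x : V) = 0 := LinearMap.congr_fun (congrArg Subtype.val h3) x
          have h6 : f.1 (u : V) = 0 := LinearMap.congr_fun (congrArg Subtype.val h4) u
          rw [← hxu, map_add, h5, h6, add_zero]
          rfl
        have h7 := LinearMap.finrank_le_finrank_of_injective hinj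
        rw [finrank_prod] at h7
        calc e ^ 2 * finrank ℂ (homK ρ σ) ≤
              e ^ 2 * (finrank ℂ (homK (a4_res ρ X hX) σ) + finrank ℂ (homK (a4_res ρ U hU) σ)) :=
            Nat.mul_le_mul_left _ h7
          _ = e ^ 2 * finrank ℂ (homK (a4_res ρ X hX) σ) +
              e ^ 2 * finrank ℂ (homK (a4_res ρ U hU) σ) := by ring
          _ ≤ finrank ℂ X * finrank ℂ W + finrank ℂ U * finrank ℂ W := by omega
          _ = finrank ℂ V * finrank ℂ W := by rw [← hdim]; ring

theorem finrank_homK_le {K V W : Type*} [Group K] [Finite K] [AddCommGroup V] [Module ℂ V]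
    [AddCommGroup W] [Module ℂ W] [FiniteDimensional ℂ V] [FiniteDimensional ℂ W]
    (ρ : K →* Module.End ℂ V) (σ : K →* Module.End ℂ W) (e : ℕ)
    (he : ∀ U : Submodule ℂ V, (∀ k : K, ∀ u ∈ U, ρ k u ∈ U) → U ≠ ⊥ → e ≤ finrank ℂ U) :
    e ^ 2 * finrank ℂ (homK ρ σ) ≤ finrank ℂ V * finrank ℂ W := by
  exact a4_main σ e _ ρ he rfl

end Pool.Agent.DLF
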