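import Pool.Agent.DLF.G1

/-!
# [DLF-A5] Clifford: all invariant subspaces are at least as big as one irreducible one

`K` normal in `P` finite, `ρ` an irreducible representation of `P` on `V`, `X` a nonzero subspace
invariant and irreducible under `K`. Every nonzero `K`-invariant subspace `U` of `V` satisfies
`dim X ≤ dim U`.

Proof. For `t ∈ P` let `tX = X.map (ρ t)`. The subspace `⨆ t, tX` is `P`-invariant and nonzero, so it
is `⊤`. Let `π : V → U` be a `K`-equivariant projection onto `U` (from `exists_invariant_compl` applied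
to the restriction of `ρ` to `K`: `Submodule.linearProjOfIsCompl`; it is equivariant because both `U` and
the complement are invariant). `π ≠ 0`, so there is `t` with `π` not zero on `tX`. Consider
`g = π ∘ ρ t : X → U`. Its kernel in `X`, `Y = {x ∈ X | π (ρ t x) = 0}`, is `K`-invariant:
for `k ∈ K`, `ρ t (ρ k x) = ρ (t k t⁻¹) (ρ t x)` and `t k t⁻¹ ∈ K`, so
`π (ρ t (ρ k x)) = ρ (t k t⁻¹) (π (ρ t x)) = 0`. `Y ≠ X` so `Y = ⊥` by irreducibility of `X`, hence
`g` is injective and `dim X ≤ dim U`.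
-/

set_option autoImplicit false

namespace Pool.Agent.DLF

open Module

theorem clifford_min {P V : Type*} [Group P] [Finite P] (K : Subgroup P) [K.Normal]
    [AddCommGroup V] [Module ℂ V] [FiniteDimensional ℂ V] (ρ : P →* Module.End ℂ V)
    (hρ : ∀ W : Submodule ℂ V, (∀ g : P, ∀ v ∈ W, ρ g v ∈ W) → W = ⊥ ∨ W = ⊤)
    (X : Submodule ℂ V) (hX : X ≠ ⊥) (hXinv : ∀ k ∈ K, ∀ x ∈ X, ρ k x ∈ X)
    (hXirr : ∀ Y : Submodule ℂ V, Y ≤ X → (∀ k ∈ K, ∀ y ∈ Y, ρ k y ∈ Y) → Y = ⊥ ∨ Y = X)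
    (U : Submodule ℂ V) (hUinv : ∀ k ∈ K, ∀ u ∈ U, ρ k u ∈ U) (hU : U ≠ ⊥) :
    finrank ℂ X ≤ finrank ℂ U := by
  classical
  -- the invariant complement of `U` for `K`
  obtain ⟨U', hU'inv, hcompl⟩ := exists_invariant_compl (ρ.comp K.subtype) U
    (fun g v hv => hUinv g.1 g.2 v hv)
  have hU'inv' : ∀ k ∈ K, ∀ u ∈ U', ρ k u ∈ U' := fun k hk u hu => hU'inv ⟨k, hk⟩ u hu
  set π : V →ₗ[ℂ] U := U.projectionOnto U' hcompl with hπ
  have hπU : ∀ u : U, π (u : V) = u := fun u => Submodule.projectionOnto_apply_left hcompl u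
  have hπU' : ∀ v ∈ U', π v = 0 := fun v hv => (Submodule.projectionOnto_apply_eq_zero_iff hcompl).2 hv
  have hπeq : ∀ k ∈ K, ∀ v : V, ((π (ρ k v) : U) : V) = ρ k (π v) := by
    intro k hk v
    obtain ⟨u, u', hv⟩ : ∃ u : U, ∃ u' : U', (u : V) + u' = v := by
      have h1 : v ∈ U ⊔ U' := by
        rw [hcompl.sup_eq_top]
        exact Submodule.mem_top
      obtain ⟨y, hy, z, hz, h2⟩ := Submodule.mem_sup.1 h1
      exact ⟨⟨y, hy⟩, ⟨z, hz⟩, h2⟩
    rw [← hv, map_add, map_add, map_add, hπU, hπU' _ u'.2, add_zero]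
    have h1 : π (ρ k (u : V)) = (⟨ρ k u, hUinv k hk u u.2⟩ : U) := hπU ⟨ρ k u, hUinv k hk u u.2⟩
    rw [h1, hπU' _ (hU'inv' k hk u' u'.2), add_zero]
  -- the sum of the translates is everything
  have htop : (⨆ t : P, X.map (ρ t)) = ⊤ := by
    have hinv : ∀ g : P, ∀ v ∈ (⨆ t : P, X.map (ρ t)), ρ g v ∈ (⨆ t : P, X.map (ρ t)) := by
      intro g v hv
      have h1 : (⨆ t : P, X.map (ρ t)) ≤ (⨆ t : P, X.map (ρ t)).comap (ρ g) := by
        refine iSup_le fun t => ?_
        rintro _ ⟨x, hx, rfl⟩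
        rw [Submodule.mem_comap]
        have h2 : ρ g (ρ t x) = ρ (g * t) x := by
          rw [map_mul]
          rfl
        rw [h2]
        exact (le_iSup (fun t : P => X.map (ρ t)) (g * t)) ⟨x, hx, rfl⟩
      exact h1 hv
    rcases hρ (⨆ t : P, X.map (ρ t)) hinv with h1 | h1
    · exfalso
      apply hX
      rw [eq_bot_iff, ← h1]
      have h2 : X ≤ X.map (ρ 1) := by
        intro x hx
        refine ⟨x, hx, ?_⟩
        rw [map_one]
        rfl
      exact h2.trans (le_iSup (fun t : P => X.map (ρ t)) 1)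
    · exact h1
  -- a translate that is not killed
  obtain ⟨t, ht⟩ : ∃ t : P, ¬ X.map (ρ t) ≤ LinearMap.ker π := by
    by_contra hcon
    push Not at hcon
    have h1 : (⊤ : Submodule ℂ V) ≤ LinearMap.ker π := by
      rw [← htop]
      exact iSup_le hcon
    obtain ⟨u, hu, hu0⟩ := (Submodule.ne_bot_iff U).1 hU
    apply hu0
    have h2 : π u = 0 := h1 (Submodule.mem_top (x := u))
    have h3 : π u = (⟨u, hu⟩ : U) := hπU ⟨u, hu⟩
    rw [h3] at h2
    exact congrArg Subtype.val h2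
  -- the map `X → U`
  have hY := hXirr (X ⊓ (LinearMap.ker π).comap (ρ t)) inf_le_left (by
    rintro k hk y ⟨hy1, hy2⟩
    refine ⟨hXinv k hk y hy1, ?_⟩
    have hy3 : π (ρ t y) = 0 := hy2
    show π (ρ t (ρ k y)) = 0
    have h1 : ρ t (ρ k y) = ρ (t * k * t⁻¹) (ρ t y) := by
      rw [← Module.End.mul_apply, ← map_mul, ← Module.End.mul_apply, ← map_mul, inv_mul_cancel_right]
    rw [h1]
    apply Subtype.ext
    rw [hπeq _ (Subgroup.Normal.conj_mem inferInstance k hk t), hy3]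
    simp)
  rcases hY with hY | hY
  · have hinj : Function.Injective (π ∘ₗ ρ t ∘ₗ X.subtype) := by
      rw [← LinearMap.ker_eq_bot, LinearMap.ker_eq_bot']
      intro x hx
      have h1 : (x : V) ∈ X ⊓ (LinearMap.ker π).comap (ρ t) := ⟨x.2, hx⟩
      rw [hY, Submodule.mem_bot] at h1
      exact Subtype.ext h1
    exact LinearMap.finrank_le_finrank_of_injective hinj
  · exfalso
    apply ht
    rintro _ ⟨x, hx, rfl⟩
    rw [← hY] at hx
    exact hx.2

end Pool.Agent.DLF
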