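import Pool.Agent.DLF.A1
import Pool.Agent.DLF.A3
import Pool.Agent.DLF.A4
import Pool.Agent.DLF.A5

/-!
# [DLF-A6] the index of `K` is bounded by the ratio of the degrees
-/

set_option autoImplicit false

namespace Pool.Agent.DLF

open Module

/-- the representation on column vectors -/
noncomputable def toEnd {G : Type*} [Group G] {d : ℕ} (ρ : G →* Matrix (Fin d) (Fin d) ℂ) :
    G →* Module.End ℂ (Fin d → ℂ) :=
  (Matrix.toLinAlgEquiv' : Matrix (Fin d) (Fin d) ℂ ≃ₐ[ℂ] _).toMulEquiv.toMonoidHom.comp ρ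

theorem toEnd_apply {G : Type*} [Group G] {d : ℕ} (ρ : G →* Matrix (Fin d) (Fin d) ℂ) (g : G)
    (v : Fin d → ℂ) : toEnd ρ g v = Matrix.mulVec (ρ g) v := by
  simp [toEnd]

/-- an injective equivariant map has an equivariant left inverse -/
theorem exists_equivariant_leftInverse {K V W : Type*} [Group K] [Finite K] [AddCommGroup V]
    [Module ℂ V] [AddCommGroup W] [Module ℂ W] (ρ : K →* Module.End ℂ V)
    (σ : K →* Module.End ℂ W) (T : V →ₗ[ℂ] W) (hT : Function.Injective T)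
    (hTe : ∀ k v, T (ρ k v) = σ k (T v)) :
    ∃ L : W →ₗ[ℂ] V, (∀ v, L (T v) = v) ∧ ∀ k w, L (σ k w) = ρ k (L w) := by
  classical
  have : Fintype K := Fintype.ofFinite K
  obtain ⟨L₀, hL₀⟩ := LinearMap.exists_leftInverse_of_injective T (LinearMap.ker_eq_bot.2 hT)
  have hL₀' : ∀ v, L₀ (T v) = v := fun v => by
    have := LinearMap.congr_fun hL₀ v
    simpa using this
  have hcard : ((Fintype.card K : ℕ) : ℂ) ≠ 0 := by
    exact_mod_cast Fintype.card_ne_zero
  refine ⟨((Fintype.card K : ℕ) : ℂ)⁻¹ • ∑ k : K, (ρ k⁻¹ ∘ₗ L₀ ∘ₗ σ k), ?_, ?_⟩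
  · intro v
    rw [LinearMap.smul_apply, LinearMap.sum_apply]
    have : ∀ k : K, (ρ k⁻¹ ∘ₗ L₀ ∘ₗ σ k) (T v) = v := by
      intro k
      rw [LinearMap.comp_apply, LinearMap.comp_apply, ← hTe, hL₀', ← Module.End.mul_apply, ← map_mul]
      simp
    rw [Finset.sum_congr rfl (fun k _ => this k), Finset.sum_const, Finset.card_univ,
      ← Nat.cast_smul_eq_nsmul ℂ, smul_smul, inv_mul_cancel₀ hcard, one_smul]
  · intro m w
    rw [LinearMap.smul_apply, LinearMap.sum_apply, LinearMap.smul_apply, LinearMap.sum_apply,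
      map_smul, map_sum]
    congr 1
    rw [← Equiv.sum_comp (Equiv.mulRight m) (fun k => ρ m ((ρ k⁻¹ ∘ₗ L₀ ∘ₗ σ k) w))]
    apply Finset.sum_congr rfl
    intro k _
    simp only [Equiv.coe_mulRight, LinearMap.comp_apply, mul_inv_rev, map_mul, Module.End.mul_apply]
    rw [← Module.End.mul_apply (ρ m), ← map_mul]
    simp

set_option maxHeartbeats 1600000 in
/-- Let `K` be a normal subgroup of `P` with a conjugation invariant homomorphism `lam : K → ℂˣ` such
that every `t ∉ K` has a commutator in `K` on which `lam` is nontrivial. For every irreducible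
representation of `K` of degree `e` there is an irreducible representation of `P` of degree `d`
with `|P : K| * e ^ 4 ≤ d ^ 4`. -/
theorem index_mul_pow_le {P : Type*} [Group P] [Finite P] (K : Subgroup P) [K.Normal]
    (lam : ↥K →* ℂˣ)
    (hinv : ∀ (x : P) (k : ↥K) (hk : x * (k : P) * x⁻¹ ∈ K),
      lam ⟨x * (k : P) * x⁻¹, hk⟩ = lam k)
    (hlam : ∀ t : P, t ∉ K → ∃ (y : P) (hy : y * t * y⁻¹ * t⁻¹ ∈ K),
      lam ⟨y * t * y⁻¹ * t⁻¹, hy⟩ ≠ 1)
    {e : ℕ} (he : 0 < e) (θ : ↥K →* Matrix (Fin e) (Fin e) ℂ) (hθ : Irr θ) :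
    ∃ (d : ℕ) (η : P →* Matrix (Fin d) (Fin d) ℂ), 0 < d ∧ Irr η ∧ K.index * e ^ 4 ≤ d ^ 4 := by
  classical
  -- the twist of `θ`
  let θ' : ↥K →* Matrix (Fin e) (Fin e) ℂ :=
    { toFun := fun k => ((lam k : ℂˣ) : ℂ) • θ k
      map_one' := by simp
      map_mul' := by
        intro a b
        simp only [map_mul, Units.val_mul, Matrix.smul_mul, Matrix.mul_smul, smul_smul]
        rw [mul_comm ((lam b : ℂˣ) : ℂ)] }
  have hθ'a : ∀ k, θ' k = ((lam k : ℂˣ) : ℂ) • θ k := fun k => rfl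
  have hθ' : Irr θ' := by
    intro W hW
    apply hθ W
    intro k v hv
    have h1 := hW k v hv
    rw [hθ'a, Matrix.smul_mulVec] at h1
    have h2 := W.smul_mem (((lam k : ℂˣ) : ℂ)⁻¹) h1
    rwa [smul_smul, inv_mul_cancel₀ (Units.ne_zero _), one_smul] at h2
  obtain ⟨d₁, η₁, hd₁, hη₁, T₁, hT₁, hT₁e⟩ := exists_irr_over K he θ hθ
  obtain ⟨d₂, η₂, hd₂, hη₂, T₂, hT₂, hT₂e⟩ := exists_irr_over K he θ' hθ'
  let ρV : P →* Module.End ℂ (Fin d₁ → ℂ) := toEnd η₁
  let ρW : P →* Module.End ℂ (Fin d₂ → ℂ) := toEnd η₂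
  let σ : ↥K →* Module.End ℂ (Fin d₂ → ℂ) :=
    { toFun := fun k => ((lam k : ℂˣ) : ℂ)⁻¹ • ρW (k : P)
      map_one' := by simp
      map_mul' := by
        intro a b
        simp only [map_mul, Units.val_mul, mul_inv, Subgroup.coe_mul]
        ext v
        simp [mul_assoc, mul_left_comm] }
  have hσ : ∀ k w, σ k w = ((lam k : ℂˣ) : ℂ)⁻¹ • ρW (k : P) w := fun k w => rfl
  let ρK : ↥K →* Module.End ℂ (Fin d₁ → ℂ) := ρV.comp K.subtype
  have hρK : ∀ k v, ρK k v = ρV (k : P) v := fun k v => rfl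
  let H := homK ρK σ
  -- the action of `P` on `H`
  let act : P → ((Fin d₁ → ℂ) →ₗ[ℂ] (Fin d₂ → ℂ)) → ((Fin d₁ → ℂ) →ₗ[ℂ] (Fin d₂ → ℂ)) :=
    fun g f => ρW g ∘ₗ f ∘ₗ ρV g⁻¹
  have hact : ∀ g, ∀ f ∈ H, act g f ∈ H := by
    intro g f hf k v
    have hmem : g⁻¹ * (k : P) * g⁻¹⁻¹ ∈ K := (inferInstance : K.Normal).conj_mem _ k.2 g⁻¹
    have h1 := hf ⟨_, hmem⟩ (ρV g⁻¹ v)
    rw [hρK, hσ] at h1
    show ρW g (f (ρV g⁻¹ (ρK k v))) = σ k (ρW g (f (ρV g⁻¹ v)))
    rw [hρK, hσ]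
    have h2 : ρV g⁻¹ (ρV (k : P) v) = ρV (g⁻¹ * (k : P) * g⁻¹⁻¹) (ρV g⁻¹ v) := by
      rw [← Module.End.mul_apply, ← Module.End.mul_apply, ← map_mul, ← map_mul]
      congr 2
      group
    rw [h2]
    rw [show ρV (g⁻¹ * (k : P) * g⁻¹⁻¹) (ρV g⁻¹ v)
      = ρV ((⟨_, hmem⟩ : ↥K) : P) (ρV g⁻¹ v) from rfl, h1, map_smul, hinv g⁻¹ k hmem,
      ← Module.End.mul_apply, ← map_mul]
    congr 1
    rw [← Module.End.mul_apply (ρW (k : P)), ← map_mul]
    congr 2
    simp only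
    group
  let R : P →* Module.End ℂ ↥H :=
    { toFun := fun g =>
        { toFun := fun f => ⟨act g f, hact g f f.2⟩
          map_add' := by
            intro a b
            apply Subtype.ext
            show act g ((a : (Fin d₁ → ℂ) →ₗ[ℂ] (Fin d₂ → ℂ)) + b) = act g a + act g b
            apply LinearMap.ext
            intro v
            simp [act]
          map_smul' := by
            intro c a
            apply Subtype.ext
            show act g (c • (a : (Fin d₁ → ℂ) →ₗ[ℂ] (Fin d₂ → ℂ))) = c • act g a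
            apply LinearMap.ext
            intro v
            simp [act] }
      map_one' := by
        apply LinearMap.ext
        intro f
        apply Subtype.ext
        show act 1 (f : (Fin d₁ → ℂ) →ₗ[ℂ] (Fin d₂ → ℂ)) = f
        apply LinearMap.ext
        intro v
        simp [act]
      map_mul' := by
        intro g h
        apply LinearMap.ext
        intro f
        apply Subtype.ext
        show act (g * h) (f : (Fin d₁ → ℂ) →ₗ[ℂ] (Fin d₂ → ℂ)) = act g (act h f)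
        apply LinearMap.ext
        intro v
        simp [act, mul_inv_rev, map_mul, Module.End.mul_apply] }
  have hR : ∀ (g : P) (f : ↥H) (v), ((R g f : ↥H) : (Fin d₁ → ℂ) →ₗ[ℂ] (Fin d₂ → ℂ)) v
      = ρW g ((f : (Fin d₁ → ℂ) →ₗ[ℂ] (Fin d₂ → ℂ)) (ρV g⁻¹ v)) := fun g f v => rfl
  have hRK : ∀ k : ↥K, R (k : P) = ((lam k : ℂˣ) : ℂ) • (1 : Module.End ℂ ↥H) := by
    intro k
    apply LinearMap.ext
    intro f
    apply Subtype.ext
    apply LinearMap.ext
    intro v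
    rw [hR]
    have h1 := f.2 k⁻¹ v
    rw [hρK, hσ] at h1
    rw [show (((k : P))⁻¹ : P) = ((k⁻¹ : ↥K) : P) from rfl, h1, map_smul,
      ← Module.End.mul_apply (ρW (k : P)), ← map_mul]
    simp
  -- `H ≠ 0`
  have hne : Nontrivial ↥H := by
    obtain ⟨L, hL1, hL2⟩ := exists_equivariant_leftInverse (K := ↥K)
      (toEnd θ) ρK T₁ hT₁ (by
        intro k v
        rw [toEnd_apply, hT₁e, hρK, toEnd_apply])
    have hmem : T₂ ∘ₗ L ∈ H := by
      intro k v
      rw [LinearMap.comp_apply, LinearMap.comp_apply, hL2, hσ, toEnd_apply]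
      have h3 := hT₂e k (L v)
      rw [hθ'a, Matrix.smul_mulVec, map_smul] at h3
      show _ = _ • toEnd η₂ (k : P) (T₂ (L v))
      rw [toEnd_apply, ← h3, smul_smul, inv_mul_cancel₀ (Units.ne_zero _), one_smul]
    refine ⟨⟨⟨_, hmem⟩, 0, ?_⟩⟩
    intro h0
    have h4 : T₂ ∘ₗ L = 0 := congrArg Subtype.val h0
    have h5 := LinearMap.congr_fun h4 (T₁ (fun _ => 1))
    rw [LinearMap.comp_apply, hL1, LinearMap.zero_apply] at h5
    have h6 : (fun _ => 1 : Fin e → ℂ) = 0 := hT₂ (by rw [h5, map_zero])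
    have h7 := congrFun h6 ⟨0, he⟩
    simp at h7
  -- traces vanish outside `K`
  have htr : ∀ g : P, g ∉ K → LinearMap.trace ℂ ↥H (R g) = 0 := by
    intro t ht
    obtain ⟨y, hy, hne1⟩ := hlam t ht
    have h1 : R (y * t * y⁻¹) = ((lam ⟨_, hy⟩ : ℂˣ) : ℂ) • R t := by
      have : y * t * y⁻¹ = (y * t * y⁻¹ * t⁻¹) * t := by group
      conv_lhs => rw [this]
      rw [map_mul, show R (y * t * y⁻¹ * t⁻¹) = R ((⟨_, hy⟩ : ↥K) : P) from rfl, hRK]
      simp
    have h2 : LinearMap.trace ℂ ↥H (R (y * t * y⁻¹)) = LinearMap.trace ℂ ↥H (R t) := by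
      rw [map_mul, LinearMap.trace_mul_comm, ← map_mul]
      congr 2
      group
    rw [h1, map_smul, smul_eq_mul] at h2
    have h3 : (((lam ⟨_, hy⟩ : ℂˣ) : ℂ) - 1) * LinearMap.trace ℂ ↥H (R t) = 0 := by
      rw [sub_mul, h2, one_mul, sub_self]
    rcases mul_eq_zero.1 h3 with h4 | h4
    · exfalso
      apply hne1
      apply Units.ext
      rw [Units.val_one]
      exact sub_eq_zero.1 h4
    · exact h4
  have hidx : K.index ≤ finrank ℂ ↥H ^ 2 := index_le_sq (V := ↥H) K R htr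
  -- dimension of `H`
  have hT₁inj : LinearMap.ker T₁ = ⊥ := LinearMap.ker_eq_bot.2 hT₁
  have hXdim : finrank ℂ (LinearMap.range T₁) = e := by
    rw [LinearMap.finrank_range_of_inj hT₁]; simp
  have hmin : ∀ U : Submodule ℂ (Fin d₁ → ℂ), (∀ k : ↥K, ∀ u ∈ U, ρK k u ∈ U) → U ≠ ⊥ →
      e ≤ finrank ℂ U := by
    intro U hU hU0
    rw [← hXdim]
    refine clifford_min K ρV ?_ (LinearMap.range T₁) ?_ ?_ ?_ U ?_ hU0
    · intro W hW
      apply hη₁ W
      intro g v hv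
      have := hW g v hv
      rwa [toEnd_apply] at this
    · intro h0
      rw [h0, finrank_bot] at hXdim
      omega
    · rintro k hk x ⟨v, rfl⟩
      refine ⟨Matrix.mulVec (θ ⟨k, hk⟩) v, ?_⟩
      rw [hT₁e]
      exact (toEnd_apply η₁ k _).symm
    · intro Y hYX hY
      have h1 := hθ (Y.comap T₁) (by
        intro k v hv
        rw [Submodule.mem_comap] at hv ⊢
        rw [hT₁e]
        have := hY (k : P) k.2 _ hv
        rwa [toEnd_apply] at this)
      rcases h1 with h1 | h1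
      · left
        rw [eq_bot_iff]
        intro y hy
        obtain ⟨v, rfl⟩ := hYX hy
        have : v ∈ Y.comap T₁ := hy
        rw [h1, Submodule.mem_bot] at this
        rw [this, map_zero]
        exact Submodule.zero_mem _
      · right
        apply le_antisymm hYX
        rintro _ ⟨v, rfl⟩
        have : v ∈ Y.comap T₁ := by rw [h1]; trivial
        exact this
    · intro k hk u hu
      exact hU ⟨k, hk⟩ u hu
  have hdim : e ^ 2 * finrank ℂ ↥H ≤ d₁ * d₂ := by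
    have := finrank_homK_le ρK σ e hmin
    simpa using this
  have hfin : K.index * e ^ 4 ≤ (d₁ * d₂) ^ 2 := by
    calc K.index * e ^ 4 ≤ finrank ℂ ↥H ^ 2 * e ^ 4 := Nat.mul_le_mul_right _ hidx
      _ = (e ^ 2 * finrank ℂ ↥H) ^ 2 := by ring
      _ ≤ _ := Nat.pow_le_pow_left hdim 2
  rcases le_total d₁ d₂ with h12 | h12
  · refine ⟨d₂, η₂, hd₂, hη₂, hfin.trans ?_⟩
    calc (d₁ * d₂) ^ 2 ≤ (d₂ * d₂) ^ 2 := Nat.pow_le_pow_left (Nat.mul_le_mul_right _ h12) 2
      _ = d₂ ^ 4 := by ring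
  · refine ⟨d₁, η₁, hd₁, hη₁, hfin.trans ?_⟩
    calc (d₁ * d₂) ^ 2 ≤ (d₁ * d₁) ^ 2 := Nat.pow_le_pow_left (Nat.mul_le_mul_left _ h12) 2
      _ = d₁ ^ 4 := by ring

end Pool.Agent.DLF
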