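import Pool.Agent.DLF.A2
import Pool.Agent.DLF.A6

/-!
# [DLF-A7] a large abelian subgroup of a nilpotent group
-/

set_option autoImplicit false

namespace Pool.Agent.DLF

theorem exists_abelian_aux (n : ℕ) : ∀ (P : Type*) [Group P] [Finite P] [Group.IsNilpotent P],
    Nat.card P = n → ∃ A : Subgroup P, (∀ a ∈ A, ∀ b ∈ A, a * b = b * a) ∧
      ∃ (d : ℕ) (ρ : P →* Matrix (Fin d) (Fin d) ℂ), 0 < d ∧ Irr ρ ∧ A.index ≤ d ^ 4 := by
  induction n using Nat.strong_induction_on with
  | _ n ih =>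
    intro P _ _ _ hn
    by_cases hab : ∀ a b : P, a * b = b * a
    · exact ⟨⊤, fun a _ b _ => hab a b, 1, 1, one_pos, irr_of_one 1, by simp⟩
    · obtain ⟨K, hKn, hKtop, lam, hinv, hlam⟩ := exists_section hab
      have hcard : Nat.card ↥K < n := by
        rw [← hn]
        have h1 := K.card_mul_index
        have h2 := K.one_lt_index_of_ne_top hKtop
        have h3 : 0 < Nat.card ↥K := Nat.card_pos
        nlinarith
      obtain ⟨A, hA, e, θ, he, hθ, hAe⟩ := ih _ hcard ↥K rfl
      obtain ⟨d, η, hd, hη, hidx⟩ := index_mul_pow_le K lam hinv hlam he θ hθ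
      refine ⟨A.map K.subtype, ?_, d, η, hd, hη, ?_⟩
      · rintro _ ⟨a, ha, rfl⟩ _ ⟨b, hb, rfl⟩
        rw [← map_mul, ← map_mul, hA a ha b hb]
      · rw [Subgroup.index_map_subtype]
        calc A.index * K.index ≤ e ^ 4 * K.index := Nat.mul_le_mul_right _ hAe
          _ = K.index * e ^ 4 := mul_comm _ _
          _ ≤ _ := hidx

/-- A finite nilpotent group has an abelian subgroup of index at most `d ^ 4` for the degree `d` of
some irreducible representation. -/
theorem exists_abelian (P : Type*) [Group P] [Finite P] [Group.IsNilpotent P] :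
    ∃ A : Subgroup P, (∀ a ∈ A, ∀ b ∈ A, a * b = b * a) ∧
      ∃ (d : ℕ) (ρ : P →* Matrix (Fin d) (Fin d) ℂ), 0 < d ∧ Irr ρ ∧ A.index ≤ d ^ 4 :=
  exists_abelian_aux _ P rfl

end Pool.Agent.DLF
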