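import Pool.Agent.DLF.Defs

/-!
# [DLF-K7] from `p`-groups to nilpotent groups

Let `N` be a finite nilpotent group and `r : ℕ` such that for every prime `p` and every Sylow
`p`-subgroup `Q` of `N`, `derivedSeries Q r = ⊥`. Then `derivedSeries N r = ⊥`.

Proof. Mathlib: a finite nilpotent group is the direct product of its Sylow subgroups
(`Group.isNilpotent_of_finite_tfae`, item 5: `Nonempty ((∀ p : (Nat.card G).primeFactors, ∀ P : Sylow p G,
(↑P : Subgroup G)) ≃* G)`, or `Sylow.directProductOfNormal`). Let
`φ : N →* ∀ p, ∀ P, P` be the inverse isomorphism, `φ x p P` its components. For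
`x ∈ derivedSeries N r` each component `φ x p P` is in `derivedSeries P r = ⊥`
(`map_derivedSeries_le_derivedSeries` for the composition with the evaluation homomorphisms), so
`φ x = 1` and `x = 1`.
-/

set_option autoImplicit false

namespace Pool.Agent.DLF

theorem derivedSeries_eq_bot_of_sylow {N : Type*} [Group N] [Finite N] [Group.IsNilpotent N]
    (r : ℕ) (h : ∀ (p : ℕ) [Fact p.Prime] (Q : Sylow p N), derivedSeries ↥(Q : Subgroup N) r = ⊥) :
    derivedSeries N r = ⊥ := by
  have hN : Group.IsNilpotent N := inferInstance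
  obtain ⟨e⟩ := ((Group.isNilpotent_of_finite_tfae (G := N)).out 0 4 rfl rfl).1 hN
  rw [eq_bot_iff]
  intro x hx
  rw [Subgroup.mem_bot]
  have h2 : e.symm x = 1 := by
    funext p P
    have hp : Fact (p : ℕ).Prime := ⟨Nat.prime_of_mem_primeFactors p.2⟩
    let f : N →* (P : Subgroup N) := (Pi.evalMonoidHom (fun P : Sylow (p : ℕ) N => (P : Subgroup N)) P).comp
      ((Pi.evalMonoidHom (fun p : (Nat.card N).primeFactors => ∀ P : Sylow (p : ℕ) N, (P : Subgroup N)) p).comp
        e.symm.toMonoidHom)
    have h3 : f x ∈ derivedSeries (P : Subgroup N) r :=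
      map_derivedSeries_le_derivedSeries f r (Subgroup.mem_map_of_mem f hx)
    rw [h p P, Subgroup.mem_bot] at h3
    exact h3
  have h4 := congrArg e h2
  rw [MulEquiv.apply_symm_apply, map_one] at h4
  exact h4

end Pool.Agent.DLF
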