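import Pool.Agent.DLF.K4
import Pool.Agent.DLF.K7

/-!
# [DLF-K6] the number of degrees bounds the derived length of a nilpotent normal subgroup
-/

set_option autoImplicit false

namespace Pool.Agent.DLF

open Module
open scoped commutatorElement

/-- the common kernel, in `K`, of the irreducible representations of `G` of degree not divisible
by `p ^ a` -/
def lowP {G : Type*} [Group G] (K : Subgroup G) (p a : ℕ) : Subgroup ↥K where
  carrier := {x | ∀ (d : ℕ) (ρ : G →* Matrix (Fin d) (Fin d) ℂ), Irr ρ → ¬ p ^ a ∣ d →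
    ρ (x : G) = 1}
  one_mem' := by
    intro d ρ _ _
    simp
  mul_mem' := by
    intro a b ha hb d ρ hρ hd
    rw [Subgroup.coe_mul, map_mul, ha d ρ hρ hd, hb d ρ hρ hd, one_mul]
  inv_mem' := by
    intro a ha d ρ hρ hd
    have h1 := ha d ρ hρ hd
    have h2 : ρ ((a : G)⁻¹) * ρ (a : G) = 1 := by rw [← map_mul]; simp
    rw [h1, mul_one] at h2
    simpa using h2

/-- exponents of the `p`-parts of the degrees in `cd(G|K)` -/
def partExp (G : Type*) [Group G] (K : Subgroup G) (p : ℕ) : Set ℕ :=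
  {e | ∃ d ∈ cdOver G K, p ^ e ∣ d ∧ ¬ p ^ (e + 1) ∣ d}

theorem ncard_partExp_le {G : Type*} [Group G] [Finite G] (K : Subgroup G) {p : ℕ}
    (a : ℕ) : {e | e ∈ partExp G K p ∧ e < a}.ncard ≤ (cdOver G K).ncard := by
  classical
  have hex : ∀ e ∈ {e | e ∈ partExp G K p ∧ e < a}, ∃ d, d ∈ cdOver G K ∧ p ^ e ∣ d ∧
      ¬ p ^ (e + 1) ∣ d := by
    rintro e ⟨⟨d, h1, h2⟩, _⟩
    exact ⟨d, h1, h2⟩
  choose! f hf using hex
  refine Set.ncard_le_ncard_of_injOn f (fun e he => (hf e he).1) ?_ (cdOver_finite G K)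
  intro e he e' he' hee
  have h1 := hf e he
  have h2 := hf e' he'
  rw [← hee] at h2
  rcases lt_trichotomy e e' with h | h | h
  · exact absurd ((pow_dvd_pow p h).trans h2.2.1) h1.2.2
  · exact h
  · exact absurd ((pow_dvd_pow p h).trans h1.2.1) h2.2.2

theorem pgroup_chain {G : Type*} [Group G] [Finite G] {p : ℕ} [hp : Fact p.Prime]
    (K : Subgroup G) [hKn : K.Normal] (hK : IsPGroup p ↥K) (a : ℕ) :
    derivedSeries ↥K {e | e ∈ partExp G K p ∧ e < a}.ncard ≤ lowP K p a := by
  classical
  obtain ⟨P, hKP⟩ := hK.exists_le_sylow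
  induction a with
  | zero =>
    intro x _ d ρ _ hd
    exact absurd (by simp) hd
  | succ a ih =>
    have hfin : {e | e ∈ partExp G K p ∧ e < a}.Finite :=
      (Set.finite_lt_nat a).subset (fun e he => he.2)
    by_cases hmem : a ∈ partExp G K p
    · have h1 : {e | e ∈ partExp G K p ∧ e < a + 1}
          = insert a {e | e ∈ partExp G K p ∧ e < a} := by
        ext e
        simp only [Set.mem_ofPred_eq, Set.mem_insert_iff]
        constructor
        · rintro ⟨h1, h2⟩
          by_cases h : e = a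
          · exact Or.inl h
          · exact Or.inr ⟨h1, by omega⟩
        · rintro (rfl | ⟨h1, h2⟩)
          · exact ⟨hmem, by omega⟩
          · exact ⟨h1, by omega⟩
      rw [h1, Set.ncard_insert_of_notMem (by
        simp only [Set.mem_ofPred_eq]; omega) hfin]
      set n := {e | e ∈ partExp G K p ∧ e < a}.ncard with hn
      let L : Subgroup G := (derivedSeries ↥K n).map K.subtype
      have hLn : L.Normal := inferInstance
      have hLP : L ≤ (P : Subgroup G) := by
        refine le_trans ?_ hKP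
        rintro _ ⟨x, _, rfl⟩
        exact x.2
      have hL : ∀ (d : ℕ) (ρ : G →* Matrix (Fin d) (Fin d) ℂ), Irr ρ → ¬ p ^ a ∣ d →
          ∀ x ∈ L, ρ x = 1 := by
        rintro d ρ hρ hd _ ⟨x, hx, rfl⟩
        exact ih hx d ρ hρ hd
      intro x hx d ρ hρ hd
      apply step_p P L hLP a hL d ρ hρ hd
      have : (derivedSeries ↥K (n + 1)).map K.subtype ≤ ⁅L, L⁆ := by
        rw [derivedSeries_succ, Subgroup.map_commutator]
      exact this ⟨x, hx, rfl⟩
    · have h1 : {e | e ∈ partExp G K p ∧ e < a + 1} = {e | e ∈ partExp G K p ∧ e < a} := by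
        ext e
        simp only [Set.mem_ofPred_eq]
        constructor
        · rintro ⟨h1, h2⟩
          refine ⟨h1, ?_⟩
          by_contra h
          have : e = a := by omega
          rw [this] at h1
          exact hmem h1
        · rintro ⟨h1, h2⟩
          exact ⟨h1, by omega⟩
      rw [h1]
      intro x hx d ρ hρ hd
      by_cases hda : p ^ a ∣ d
      · by_contra hne
        apply hmem
        refine ⟨d, ⟨?_, ρ, hρ, x, x.2, hne⟩, hda, hd⟩
        rcases Nat.eq_zero_or_pos d with rfl | h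
        · exact absurd (dvd_zero _) hd
        · exact h
      · exact ih hx d ρ hρ hda

theorem derivedSeries_pgroup {G : Type*} [Group G] [Finite G] {p : ℕ} [hp : Fact p.Prime]
    (K : Subgroup G) [hKn : K.Normal] (hK : IsPGroup p ↥K) :
    derivedSeries ↥K (cdOver G K).ncard = ⊥ := by
  classical
  have h1 := pgroup_chain K hK (Nat.card G)
  have h2 : lowP K p (Nat.card G) ≤ lowKer K (Nat.card G) := by
    intro x hx d ρ hρ hd
    rcases Nat.eq_zero_or_pos d with rfl | h
    · ext i; exact i.elim0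
    · apply hx d ρ hρ
      intro hdvd
      have h3 := Nat.le_of_dvd h hdvd
      have h4 : Nat.card G < p ^ Nat.card G := Nat.lt_pow_self hp.out.one_lt
      omega
  rw [kerUpTo_card K le_rfl] at h2
  rw [eq_bot_iff]
  exact (derivedSeries_antitone _ (ncard_partExp_le K (Nat.card G))).trans (h1.trans h2)

theorem cdOver_mono {G : Type*} [Group G] {K N : Subgroup G} (h : K ≤ N) :
    cdOver G K ⊆ cdOver G N := by
  rintro d ⟨hd, ρ, hρ, x, hx, hne⟩
  exact ⟨hd, ρ, hρ, x, h hx, hne⟩

theorem derivedSeries_nilpotent {G : Type*} [Group G] [Finite G]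
    (K : Subgroup G) [hKn : K.Normal] (hK : Group.IsNilpotent ↥K) :
    derivedSeries ↥K (cdOver G K).ncard = ⊥ := by
  classical
  apply derivedSeries_eq_bot_of_sylow
  intro p hp Q
  have hQn : (Q : Subgroup ↥K).Normal := by
    have h := ((Group.isNilpotent_of_finite_tfae (G := ↥K)).out 0 3).1 hK
    exact h p hp Q
  have hQc : (Q : Subgroup ↥K).Characteristic := Q.characteristic_of_normal hQn
  let Kp : Subgroup G := (Q : Subgroup ↥K).map K.subtype
  have hKpn : Kp.Normal := inferInstance
  let e : ↥(Q : Subgroup ↥K) ≃* ↥Kp :=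
    (Q : Subgroup ↥K).equivMapOfInjective K.subtype K.subtype_injective
  have hKpp : IsPGroup p ↥Kp := Q.isPGroup'.of_equiv e
  have h1 := derivedSeries_pgroup Kp hKpp
  have h2 : derivedSeries ↥Kp (cdOver G K).ncard = ⊥ := by
    rw [eq_bot_iff, ← h1]
    apply derivedSeries_antitone
    apply Set.ncard_le_ncard _ (cdOver_finite G K)
    apply cdOver_mono
    rintro _ ⟨x, _, rfl⟩
    exact x.2
  rw [eq_bot_iff]
  intro x hx
  have h3 := map_derivedSeries_le_derivedSeries e.toMonoidHom (cdOver G K).ncard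
  have h4 : e x ∈ derivedSeries ↥Kp (cdOver G K).ncard := h3 ⟨x, hx, rfl⟩
  rw [h2, Subgroup.mem_bot] at h4
  rw [Subgroup.mem_bot]
  exact e.map_eq_one_iff.1 h4

theorem map_derivedSeries_add {G : Type*} [Group G] (N : Subgroup G) (n c : ℕ) :
    (derivedSeries ↥N (n + c)).map N.subtype ≤
      (derivedSeries ↥((derivedSeries ↥N n).map N.subtype) c).map
        ((derivedSeries ↥N n).map N.subtype).subtype := by
  induction c with
  | zero =>
    rintro x hx
    exact ⟨⟨x, hx⟩, Subgroup.mem_top _, rfl⟩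
  | succ c ih =>
    rw [← add_assoc, derivedSeries_succ, derivedSeries_succ, Subgroup.map_commutator,
      Subgroup.map_commutator]
    exact Subgroup.commutator_mono ih ih

/-- The final bound. -/
theorem final_bound {G : Type*} [Group G] [Finite G] (N : Subgroup G) [N.Normal]
    (hN : Group.IsNilpotent ↥N) (q m : ℕ) (hq : 2 ≤ q) (hm : 1 ≤ m)
    (hp : ∀ p : ℕ, p.Prime → p ∣ Nat.card ↥N → q ≤ p) :
    derivedSeries ↥N ({d | d ∈ cdOver G N ∧ q ^ m < d}.ncard + 5 +
      Nat.log 2 (m * ({d | d ∈ cdOver G N ∧ q ^ m < d}.ncard + 1))) = ⊥ := by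
  classical
  set c := {d | d ∈ cdOver G N ∧ q ^ m < d}.ncard with hc
  set n := 5 + Nat.log 2 (m * (c + 1)) with hn
  have h0 : derivedSeries ↥N n ≤ lowKer N (q ^ m) := by
    intro x hx d ρ hρ hd
    exact main N hN q m hq hm hp hx ρ hρ hd
  let K : Subgroup G := (derivedSeries ↥N n).map N.subtype
  have hKn : K.Normal := inferInstance
  have hKnil : Group.IsNilpotent ↥K := by
    have e := (derivedSeries ↥N n).equivMapOfInjective N.subtype N.subtype_injective
    exact Group.isNilpotent_congr e |>.1 inferInstance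
  have hcd : cdOver G K ⊆ {d | d ∈ cdOver G N ∧ q ^ m < d} := by
    rintro d ⟨hd, ρ, hρ, x, hx, hne⟩
    obtain ⟨y, hy, rfl⟩ := hx
    refine ⟨⟨hd, ρ, hρ, y, y.2, hne⟩, ?_⟩
    by_contra hle
    exact hne (h0 hy d ρ hρ (by omega))
  have h1 := derivedSeries_nilpotent K hKnil
  have h2 : (cdOver G K).ncard ≤ c :=
    Set.ncard_le_ncard hcd ((cdOver_finite G N).subset (fun d hd => hd.1))
  have h3 : derivedSeries ↥K c = ⊥ := by
    rw [eq_bot_iff, ← h1]
    exact derivedSeries_antitone _ h2
  have h4 := map_derivedSeries_add N n c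
  rw [show derivedSeries ↥((derivedSeries ↥N n).map N.subtype) c = ⊥ from h3,
    Subgroup.map_bot] at h4
  rw [show c + 5 + Nat.log 2 (m * (c + 1)) = n + c by rw [hn]; ring]
  rw [eq_bot_iff]
  intro x hx
  have h5 := h4 ⟨x, hx, rfl⟩
  rw [Subgroup.mem_bot] at h5 ⊢
  exact Subtype.ext h5

end Pool.Agent.DLF
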