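import Pool.Agent.DLF.V2
import Pool.Agent.DLF.K6

/-!
# [DLF-B1] the block lemma and the final bounds
-/

set_option autoImplicit false

namespace Pool.Agent.DLF

open Module
open scoped commutatorElement

/-- `lowKer` as a subgroup of `G` is normal if `N` is -/
theorem lowKer_map_normal {G : Type*} [Group G] (N : Subgroup G) [hN : N.Normal] (D : ℕ) :
    ((lowKer N D).map N.subtype).Normal := by
  refine ⟨?_⟩
  rintro _ ⟨x, hx, rfl⟩ g
  have hmem : g * (x : G) * g⁻¹ ∈ N := hN.conj_mem _ x.2 g
  refine ⟨⟨_, hmem⟩, ?_, rfl⟩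
  intro d ρ hρ hd
  show ρ (g * (x : G) * g⁻¹) = 1
  rw [map_mul, map_mul, hx d ρ hρ hd, mul_one, ← map_mul]
  simp

/-- the gap lemma for the quotient -/
theorem degree_quotient_le {G : Type*} [Group G] [Finite G] (N : Subgroup G) {D v : ℕ}
    (hv : 1 ≤ v) (hgap : ∀ d ∈ cdOver G N, ¬ (v < d ∧ d ≤ v * D)) {s : ℕ} (hs : 0 < s)
    (σ : ↥N ⧸ lowKer N D →* Matrix (Fin s) (Fin s) ℂ) (hσ : Irr σ) : s ≤ v := by
  refine gap N hv hgap hs (σ.comp (QuotientGroup.mk' (lowKer N D))) ?_ ?_
  · intro W hW
    apply hσ W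
    intro g v hv
    obtain ⟨y, rfl⟩ := QuotientGroup.mk'_surjective (lowKer N D) g
    exact hW y v hv
  · intro y hy
    have hyM : y ∈ lowKer N D := hy
    have : (QuotientGroup.mk' (lowKer N D)) y = 1 := by
      rw [QuotientGroup.mk'_apply, QuotientGroup.eq_one_iff]
      exact hyM
    rw [MonoidHom.comp_apply, this, map_one]

/-- derived series against the lower central series of a subgroup -/
theorem map_derivedSeries_le_lcs {G : Type*} [Group G] (N : Subgroup G) (n : ℕ) :
    (derivedSeries ↥N n).map N.subtype ≤ N.lowerCentralSeries (2 ^ n - 1) := by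
  rw [← Subgroup.top_subtype_lowerCentralSeries]
  exact Subgroup.map_mono (derivedSeries_le_lcs n)

/-- **The block lemma.** -/
theorem block {G : Type*} [Group G] [Finite G] (N : Subgroup G) [hNn : N.Normal]
    (hN : Group.IsNilpotent ↥N) (w κ D : ℕ) (hw : 2 ≤ w)
    (hdeg : (∀ d ∈ cdOver G N, w ≤ d) ∨ (∀ p : ℕ, p.Prime → p ∣ Nat.card ↥N → w ≤ p))
    (hgap : ∀ d ∈ cdOver G N, ¬ (w ^ κ < d ∧ d ≤ w ^ κ * D)) :
    derivedSeries ↥N (6 + Nat.log 2 κ) ≤ lowKer N D := by
  classical
  have hwκ : 1 ≤ w ^ κ := Nat.one_le_pow _ _ (by omega)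
  rcases hdeg with hdeg | hdeg
  · set M := lowKer N D with hM
    obtain ⟨A, hA, d, ρ, hd, hρ, hidx⟩ := exists_abelian (↥N ⧸ M)
    obtain ⟨B', hBc, hB, hBidx⟩ := chermak_delgado A hA
    have hdk : d ≤ w ^ κ := degree_quotient_le N hwκ hgap hd ρ hρ
    have hidx8 : B'.index ≤ w ^ (8 * κ) := by
      calc B'.index ≤ A.index ^ 2 := hBidx
        _ ≤ (d ^ 4) ^ 2 := Nat.pow_le_pow_left hidx 2
        _ = d ^ 8 := by ring
        _ ≤ (w ^ κ) ^ 8 := Nat.pow_le_pow_left hdk 8
        _ = w ^ (8 * κ) := by rw [← pow_mul, mul_comm]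
    -- the preimage of `B'` in `G`
    let BN : Subgroup ↥N := B'.comap (QuotientGroup.mk' M)
    let B : Subgroup G := BN.map N.subtype
    have hBle : B ≤ N := by
      rintro _ ⟨x, _, rfl⟩
      exact x.2
    have hBn : B.Normal := by
      refine ⟨?_⟩
      rintro _ ⟨x, hx, rfl⟩ g
      have hmem : g * (x : G) * g⁻¹ ∈ N := hNn.conj_mem _ x.2 g
      refine ⟨⟨_, hmem⟩, ?_, rfl⟩
      -- conjugation by `g` induces an automorphism of `N ⧸ M`
      let e : ↥N ≃* ↥N := MulAut.conjNormal g
      have he : ∀ y : ↥N, ((e y : ↥N) : G) = g * y * g⁻¹ := fun y => MulAut.conjNormal_apply g y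
      have heM : M.map e.toMonoidHom = M := by
        apply le_antisymm
        · rintro _ ⟨y, hy, rfl⟩
          intro d ρ hρ hd
          show ρ ((e y : ↥N) : G) = 1
          rw [he, map_mul, map_mul, hy d ρ hρ hd, mul_one, ← map_mul]
          simp
        · intro y hy
          refine ⟨e.symm y, ?_, e.apply_symm_apply y⟩
          intro d ρ hρ hd
          have h1 : (y : G) = g * (e.symm y : ↥N) * g⁻¹ := by
            rw [← he, e.apply_symm_apply]
          have h2 : ((e.symm y : ↥N) : G) = g⁻¹ * y * g := by rw [h1]; group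
          show ρ ((e.symm y : ↥N) : G) = 1
          rw [h2, map_mul, map_mul, hy d ρ hρ hd, mul_one, ← map_mul]
          simp
      let φ : (↥N ⧸ M) ≃* (↥N ⧸ M) := QuotientGroup.congr M M e heM
      have hφ : ∀ y : ↥N, φ (QuotientGroup.mk' M y) = QuotientGroup.mk' M (e y) := fun y => rfl
      have h1 : QuotientGroup.mk' M x ∈ B' := hx
      have h2 : B'.map φ.toMonoidHom = B' :=
        (Subgroup.characteristic_iff_map_eq.1 hBc) φ
      have h3 : φ (QuotientGroup.mk' M x) ∈ B' := by
        rw [← h2]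
        exact ⟨_, h1, rfl⟩
      rw [hφ] at h3
      have h4 : e x = ⟨g * (x : G) * g⁻¹, hmem⟩ := Subtype.ext (he x)
      rw [h4] at h3
      exact h3
    have hrel : B.relIndex N ≤ w ^ (8 * κ) := by
      have h1 : B.relIndex N = BN.index := by
        show (B.subgroupOf N).index = BN.index
        congr 1
        exact Subgroup.comap_map_eq_self_of_injective N.subtype_injective BN
      have h2 : BN.index = B'.index :=
        Subgroup.index_comap_of_surjective B' (QuotientGroup.mk'_surjective M)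
      rw [h1, h2]
      exact hidx8
    have hlcs := lcs_le_of_relIndex N B hBle hN w (8 * κ) hw (by
      intro d ρ hρ hd x hx
      rcases Nat.eq_zero_or_pos d with rfl | h0
      · ext i; exact i.elim0
      by_contra hne
      have := hdeg d ⟨h0, ρ, hρ, x, hx, hne⟩
      omega) hrel
    have hder : derivedSeries ↥N (5 + Nat.log 2 κ) ≤ BN := by
      have h1 := map_derivedSeries_le_lcs N (5 + Nat.log 2 κ)
      have h2 : N.lowerCentralSeries (2 ^ (5 + Nat.log 2 κ) - 1) ≤ B := by
        refine le_trans (N.lowerCentralSeries_antitone ?_) hlcs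
        have h3 : κ < 2 ^ (Nat.log 2 κ + 1) := Nat.lt_pow_succ_log_self (by norm_num) κ
        have h4 : 2 ^ (5 + Nat.log 2 κ) = 16 * 2 ^ (Nat.log 2 κ + 1) := by
          rw [show 5 + Nat.log 2 κ = 4 + (Nat.log 2 κ + 1) by ring, pow_add]
          norm_num
        omega
      intro x hx
      obtain ⟨y, hy, hyx⟩ := h2 (h1 ⟨x, hx, rfl⟩)
      have : y = x := Subtype.ext hyx
      rw [← this]
      exact hy
    rw [show 6 + Nat.log 2 κ = (5 + Nat.log 2 κ) + 1 by ring, derivedSeries_succ,
      Subgroup.commutator_le]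
    intro a ha b hb
    have ha' : QuotientGroup.mk' M a ∈ B' := hder ha
    have hb' : QuotientGroup.mk' M b ∈ B' := hder hb
    have hab := hB _ ha' _ hb'
    have h5 : QuotientGroup.mk' M ⁅a, b⁆ = 1 := by
      rw [map_commutatorElement, commutatorElement_eq_one_iff_mul_comm]
      exact hab
    rwa [QuotientGroup.mk'_apply, QuotientGroup.eq_one_iff] at h5
  · -- large primes
    have hQ : derivedSeries (↥N ⧸ lowKer N D) (5 + Nat.log 2 κ) = ⊥ := by
      apply derivedSeries_eq_bot_of_degree_le w κ hw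
      · intro p hp1 hp2
        exact hdeg p hp1 (hp2.trans (Subgroup.card_quotient_dvd_card _))
      · intro s σ hs hσ
        exact degree_quotient_le N hwκ hgap hs σ hσ
    have h6 := map_derivedSeries_le_derivedSeries (QuotientGroup.mk' (lowKer N D))
      (5 + Nat.log 2 κ)
    rw [hQ] at h6
    have h7 := Subgroup.map_le_iff_le_comap.1 h6
    rw [MonoidHom.comap_bot, QuotientGroup.ker_mk'] at h7
    exact (derivedSeries_antitone _ (by omega)).trans h7

end Pool.Agent.DLF
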