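import Pool.Agent.DLF.B1

/-!
# [DLF-B2] the two final bounds
-/

set_option autoImplicit false

namespace Pool.Agent.DLF

open Module
open scoped commutatorElement

/-- composition of derived series of subgroups of `G` -/
theorem derivedSeries_comp {G : Type*} [Group G] {N K L : Subgroup G} {a b : ℕ}
    (h1 : (derivedSeries ↥N a).map N.subtype ≤ K) (h2 : (derivedSeries ↥K b).map K.subtype ≤ L) :
    (derivedSeries ↥N (a + b)).map N.subtype ≤ L := by
  refine le_trans ?_ h2
  clear h2
  induction b with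
  | zero =>
    intro x hx
    exact ⟨⟨x, h1 hx⟩, Subgroup.mem_top _, rfl⟩
  | succ b ih =>
    rw [← add_assoc, derivedSeries_succ, derivedSeries_succ, Subgroup.map_commutator,
      Subgroup.map_commutator]
    exact Subgroup.commutator_mono ih ih

/-- the common kernel in `N` of the irreducible representations of degree at most `D`, as a
subgroup of `G` -/
def lowG {G : Type*} [Group G] (N : Subgroup G) (D : ℕ) : Subgroup G :=
  (lowKer N D).map N.subtype

theorem mem_lowG {G : Type*} [Group G] {N : Subgroup G} {D : ℕ} {x : G} :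
    x ∈ lowG N D ↔ x ∈ N ∧ ∀ (d : ℕ) (ρ : G →* Matrix (Fin d) (Fin d) ℂ), Irr ρ → d ≤ D →
      ρ x = 1 := by
  constructor
  · rintro ⟨y, hy, rfl⟩
    exact ⟨y.2, hy⟩
  · rintro ⟨h1, h2⟩
    exact ⟨⟨x, h1⟩, h2, rfl⟩

instance lowG_normal {G : Type*} [Group G] (N : Subgroup G) [N.Normal] (D : ℕ) :
    (lowG N D).Normal := lowKer_map_normal N D

theorem lowG_le {G : Type*} [Group G] (N : Subgroup G) (D : ℕ) : lowG N D ≤ N :=
  fun _ hx => (mem_lowG.1 hx).1

theorem lowG_nilpotent {G : Type*} [Group G] (N : Subgroup G) (hN : Group.IsNilpotent ↥N) (D : ℕ) :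
    Group.IsNilpotent ↥(lowG N D) := by
  have e := (lowKer N D).equivMapOfInjective N.subtype N.subtype_injective
  exact (Group.isNilpotent_congr e).1 inferInstance

theorem cdOver_lowG {G : Type*} [Group G] (N : Subgroup G) (D : ℕ) :
    cdOver G (lowG N D) ⊆ {d | d ∈ cdOver G N ∧ D < d} := by
  rintro d ⟨hd, ρ, hρ, x, hx, hne⟩
  rw [mem_lowG] at hx
  refine ⟨⟨hd, ρ, hρ, x, hx.1, hne⟩, ?_⟩
  by_contra hle
  exact hne (hx.2 d ρ hρ (by omega))

theorem map_le_lowG {G : Type*} [Group G] {N : Subgroup G} {D n : ℕ}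
    (h : derivedSeries ↥N n ≤ lowKer N D) : (derivedSeries ↥N n).map N.subtype ≤ lowG N D :=
  Subgroup.map_mono h

theorem derivedSeries_one_le {G : Type*} [Group G] (N : Subgroup G) :
    derivedSeries ↥N 1 ≤ lowKer N 1 := by
  rw [derivedSeries_one, commutator_def, Subgroup.commutator_le]
  intro a _ b _ d ρ hρ hd
  apply map_commutator_eq_one ρ (a := (a : G)) (b := (b : G))
  interval_cases d
  · ext i; exact i.elim0
  · ext i j
    have hi : i = 0 := Subsingleton.elim _ _
    have hj : j = 0 := Subsingleton.elim _ _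
    subst hi; subst hj
    simp [Matrix.mul_apply, mul_comm]

theorem eq_bot_of_map_le_bot {G : Type*} [Group G] {N : Subgroup G} {n : ℕ}
    (h : (derivedSeries ↥N n).map N.subtype ≤ ⊥) : derivedSeries ↥N n = ⊥ := by
  rw [eq_bot_iff]
  intro x hx
  have h5 := h ⟨x, hx, rfl⟩
  rw [Subgroup.mem_bot] at h5 ⊢
  exact Subtype.ext h5

/-- **First bound.** -/
theorem bound_one {G : Type*} [Group G] [Finite G] (N : Subgroup G) [hNn : N.Normal]
    (hN : Group.IsNilpotent ↥N) (w m : ℕ) (hw : 2 ≤ w) (hm : 1 ≤ m)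
    (hdeg : (∀ d ∈ cdOver G N, 1 < d → w ≤ d) ∨
      (∀ p : ℕ, p.Prime → p ∣ Nat.card ↥N → w ≤ p)) :
    derivedSeries ↥N ({d | d ∈ cdOver G N ∧ w ^ m < d}.ncard + 7 +
      Nat.log 2 (m * ({d | d ∈ cdOver G N ∧ w ^ m < d}.ncard + 1))) = ⊥ := by
  classical
  set c := {d | d ∈ cdOver G N ∧ w ^ m < d}.ncard with hc
  have hfin : {d | d ∈ cdOver G N ∧ w ^ m < d}.Finite :=
    (cdOver_finite G N).subset (fun d hd => hd.1)
  let K := lowG N 1
  have hKnil : Group.IsNilpotent ↥K := lowG_nilpotent N hN 1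
  have hKdeg : (∀ d ∈ cdOver G K, w ≤ d) ∨
      (∀ p : ℕ, p.Prime → p ∣ Nat.card ↥K → w ≤ p) := by
    rcases hdeg with h | h
    · left
      intro d hd
      have h1 := cdOver_lowG N 1 hd
      exact h d h1.1 h1.2
    · right
      intro p hp hpK
      exact h p hp (hpK.trans (Subgroup.card_dvd_of_le (lowG_le N 1)))
  have hD : 2 ≤ w ^ m := hw.trans (Nat.le_self_pow (by omega) w)
  obtain ⟨i, hi1, hic, hgap⟩ := exists_gap (cdOver G K) (cdOver_finite G K) (w ^ m) hD
  have hic' : i ≤ c + 1 := by
    refine hic.trans (Nat.add_le_add_right ?_ 1)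
    apply Set.ncard_le_ncard _ hfin
    rintro d ⟨h1, h2⟩
    exact ⟨(cdOver_lowG N 1 h1).1, h2⟩
  have hblock := block K hKnil w (m * i) (w ^ m) hw hKdeg (by
    intro d hd
    rw [pow_mul]
    exact hgap d hd)
  -- last part
  have hlast : (derivedSeries ↥(lowG K (w ^ m)) c).map (lowG K (w ^ m)).subtype ≤ ⊥ := by
    have h1 := derivedSeries_nilpotent (lowG K (w ^ m)) (lowG_nilpotent K hKnil _)
    have h2 : (cdOver G (lowG K (w ^ m))).ncard ≤ c := by
      apply Set.ncard_le_ncard _ hfin
      intro d hd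
      have h3 := cdOver_lowG K (w ^ m) hd
      exact ⟨(cdOver_lowG N 1 h3.1).1, h3.2⟩
    have h3 : derivedSeries ↥(lowG K (w ^ m)) c = ⊥ := by
      rw [eq_bot_iff, ← h1]
      exact derivedSeries_antitone _ h2
    rw [h3, Subgroup.map_bot]
  have h1 := derivedSeries_comp (map_le_lowG (derivedSeries_one_le N))
    (derivedSeries_comp (map_le_lowG hblock) hlast)
  apply eq_bot_of_map_le_bot
  refine le_trans (Subgroup.map_mono (derivedSeries_antitone _ ?_)) h1
  have h2 : Nat.log 2 (m * i) ≤ Nat.log 2 (m * (c + 1)) :=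
    Nat.log_mono_right (Nat.mul_le_mul_left _ hic')
  omega

theorem eq_bot_of_cdOver_empty {G : Type*} [Group G] [Finite G] (K : Subgroup G)
    (h : ∀ d, d ∉ cdOver G K) : ∀ x ∈ K, x = 1 := by
  intro x hx
  have h1 : (⟨x, hx⟩ : ↥K) ∈ lowKer K (Nat.card G) := by
    intro d ρ hρ _
    rcases Nat.eq_zero_or_pos d with rfl | h0
    · ext i; exact i.elim0
    · by_contra hne
      exact h d ⟨h0, ρ, hρ, x, hx, hne⟩
  rw [kerUpTo_card K le_rfl, Subgroup.mem_bot] at h1
  exact congrArg Subtype.val h1

theorem chain_bound_aux {G : Type*} [Group G] [Finite G] (r t : ℕ) (ht : 1 ≤ t) (J : ℕ) :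
    ∀ (K : Subgroup G) [K.Normal], Group.IsNilpotent ↥K → (∀ d ∈ cdOver G K, 1 < d) →
      (cdOver G K).ncard ≤ r →
      (¬ ∃ f : Fin (J + 1) → ℕ, (∀ i, f i ∈ cdOver G K) ∧ ∀ i j, i < j → f i ^ t < f j) →
      derivedSeries ↥K (J * (6 + Nat.log 2 (t * r))) = ⊥ := by
  induction J with
  | zero =>
    intro K _ _ _ _ hch
    have h1 : ∀ d, d ∉ cdOver G K := by
      intro d hd
      apply hch
      refine ⟨fun _ => d, fun _ => hd, ?_⟩
      intro i j hij
      exact absurd hij (by
        have : i = j := Subsingleton.elim (α := Fin 1) i j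
        rw [this]; exact lt_irrefl _)
    have h2 := eq_bot_of_cdOver_empty K h1
    rw [eq_bot_iff]
    intro x _
    rw [Subgroup.mem_bot]
    exact Subtype.ext (h2 x x.2)
  | succ J ih =>
    intro K hKn hKnil hK1 hKr hch
    classical
    by_cases hemp : ∀ d, d ∉ cdOver G K
    · have h2 := eq_bot_of_cdOver_empty K hemp
      rw [eq_bot_iff]
      intro x _
      rw [Subgroup.mem_bot]
      exact Subtype.ext (h2 x x.2)
    · push Not at hemp
      obtain ⟨w, hwS, hwmin⟩ := Set.exists_min_image (cdOver G K) id (cdOver_finite G K) hemp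
      have hwmin' : ∀ d ∈ cdOver G K, w ≤ d := hwmin
      have hw2 : 2 ≤ w := hK1 w hwS
      have hD : 2 ≤ w ^ t := hw2.trans (Nat.le_self_pow (by omega) w)
      obtain ⟨i, hi1, hic, hgap⟩ := exists_gap (cdOver G K) (cdOver_finite G K) (w ^ t) hD
      have hir : i ≤ r := by
        have h1 : insert w {d | d ∈ cdOver G K ∧ w ^ t < d} ⊆ cdOver G K := by
          intro d hd
          rcases hd with rfl | hd
          · exact hwS
          · exact hd.1
        have h2 : w ∉ {d | d ∈ cdOver G K ∧ w ^ t < d} := by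
          intro h
          have h3 : w ≤ w ^ t := Nat.le_self_pow (by omega) w
          exact absurd h.2 (by omega)
        have hfin' : {d | d ∈ cdOver G K ∧ w ^ t < d}.Finite :=
          (cdOver_finite G K).subset (fun d hd => hd.1)
        have h3 := Set.ncard_le_ncard h1 (cdOver_finite G K)
        rw [Set.ncard_insert_of_notMem h2 hfin'] at h3
        omega
      have hblock := block K hKnil w (t * i) (w ^ t) hw2 (Or.inl hwmin') (by
        intro d hd
        rw [pow_mul]
        exact hgap d hd)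
      have hrest : derivedSeries ↥(lowG K (w ^ t)) (J * (6 + Nat.log 2 (t * r))) = ⊥ := by
        apply ih (lowG K (w ^ t)) (lowG_nilpotent K hKnil _)
        · intro d hd
          exact hK1 d (cdOver_lowG K _ hd).1
        · exact (Set.ncard_le_ncard (fun d hd => (cdOver_lowG K _ hd).1)
            (cdOver_finite G K)).trans hKr
        · rintro ⟨f, hf1, hf2⟩
          apply hch
          refine ⟨Fin.cons w f, ?_, ?_⟩
          · intro i
            refine Fin.cases ?_ ?_ i
            · simpa using hwS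
            · intro i
              simpa using (cdOver_lowG K _ (hf1 i)).1
          · intro i j
            refine Fin.cases ?_ ?_ i
            · refine Fin.cases ?_ ?_ j
              · intro h; exact absurd h (lt_irrefl _)
              · intro j _
                simpa using (cdOver_lowG K _ (hf1 j)).2
            · intro i
              refine Fin.cases ?_ ?_ j
              · intro h
                exact absurd h (Fin.not_lt_zero _)
              · intro j h
                simpa using hf2 i j (by simpa using h)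
      have hlog : Nat.log 2 (t * i) ≤ Nat.log 2 (t * r) :=
        Nat.log_mono_right (Nat.mul_le_mul_left _ hir)
      have h1 := derivedSeries_comp (map_le_lowG hblock) (L := ⊥)
        (b := J * (6 + Nat.log 2 (t * r))) (by rw [hrest, Subgroup.map_bot])
      apply eq_bot_of_map_le_bot
      refine le_trans (Subgroup.map_mono (derivedSeries_antitone _ ?_)) h1
      rw [add_mul, one_mul]
      omega

/-- **Second bound.** If `cd(G|N)` contains no chain of `J + 1` degrees, larger than `1`, in which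
each is larger than the `t`-th power of the preceding one, then
`dl(N) ≤ 1 + J (6 + log₂ (t |cd(G|N)|))`. -/
theorem bound_two {G : Type*} [Group G] [Finite G] (N : Subgroup G) [hNn : N.Normal]
    (hN : Group.IsNilpotent ↥N) (t J : ℕ) (ht : 1 ≤ t)
    (hch : ¬ ∃ f : Fin (J + 1) → ℕ, (∀ i, f i ∈ cdOver G N ∧ 1 < f i) ∧
      ∀ i j, i < j → f i ^ t < f j) :
    derivedSeries ↥N (1 + J * (6 + Nat.log 2 (t * (cdOver G N).ncard))) = ⊥ := by
  have h1 := chain_bound_aux (G := G) (cdOver G N).ncard t ht J (lowG N 1) (lowG_nilpotent N hN 1)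
    (fun d hd => (cdOver_lowG N 1 hd).2)
    (Set.ncard_le_ncard (fun d hd => (cdOver_lowG N 1 hd).1) (cdOver_finite G N)) (by
      rintro ⟨f, hf1, hf2⟩
      exact hch ⟨f, fun i => ⟨(cdOver_lowG N 1 (hf1 i)).1, (cdOver_lowG N 1 (hf1 i)).2⟩, hf2⟩)
  have h2 := derivedSeries_comp (map_le_lowG (derivedSeries_one_le N)) (L := ⊥)
    (b := J * (6 + Nat.log 2 (t * (cdOver G N).ncard))) (by rw [h1, Subgroup.map_bot])
  exact eq_bot_of_map_le_bot h2

end Pool.Agent.DLF
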