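import Pool.Agent.DLF.B2

/-!
# [DLF-B3] the bound by the number of occupied scales
-/

set_option autoImplicit false

namespace Pool.Agent.DLF

open Module

theorem scales_finite {β : ℕ} (hβ : 2 ≤ β) {C : Set ℕ} (hC : C.Finite) : (scales β C).Finite := by
  obtain ⟨M, hM⟩ := hC.bddAbove
  apply (Set.finite_le_nat M).subset
  rintro k ⟨d, hd, h1, _⟩
  have h2 : k < 2 ^ k := Nat.lt_two_pow_self
  have h3 : 2 ^ k < β ^ 2 ^ k := Nat.lt_pow_self hβ
  have h4 : d ≤ M := hM hd
  show k ≤ M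
  omega

/-- every `d ≥ β` lies in some scale -/
theorem exists_scale {β : ℕ} (hβ : 2 ≤ β) {d : ℕ} (hd : β ≤ d) :
    ∃ k : ℕ, β ^ 2 ^ k ≤ d ∧ d < β ^ 2 ^ (k + 1) := by
  classical
  have hex : ∃ k : ℕ, d < β ^ 2 ^ (k + 1) := by
    refine ⟨d, ?_⟩
    have h2 : d + 1 < 2 ^ (d + 1) := Nat.lt_two_pow_self
    have h3 : 2 ^ (d + 1) < β ^ 2 ^ (d + 1) := Nat.lt_pow_self hβ
    omega
  refine ⟨Nat.find hex, ?_, Nat.find_spec hex⟩
  rcases Nat.eq_zero_or_pos (Nat.find hex) with h | h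
  · rw [h]; simpa using hd
  · have h1 := Nat.find_min hex (m := Nat.find hex - 1) (by omega)
    rw [Nat.sub_add_cancel h] at h1
    omega

theorem scales_aux {G : Type*} [Group G] [Finite G] (β : ℕ) (hβ : 2 ≤ β) (C : Set ℕ)
    (hC : C.Finite) (n : ℕ) : ∀ k₀ : ℕ, {k | k ∈ scales β C ∧ k₀ ≤ k}.ncard = n →
    ∀ (K : Subgroup G) [K.Normal], Group.IsNilpotent ↥K →
      (∀ d ∈ cdOver G K, d ∈ C ∧ β ^ 2 ^ k₀ ≤ d) →
      derivedSeries ↥K (n + 6 * {k | k ∈ scales β C ∧ k + 1 ∉ scales β C ∧ k₀ ≤ k}.ncard) = ⊥ := by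
  classical
  have hSfin := scales_finite hβ hC
  set S := scales β C with hS
  have hmono : ∀ {a b : ℕ}, a ≤ b → β ^ 2 ^ a ≤ β ^ 2 ^ b := fun h =>
    Nat.pow_le_pow_right (by omega) (Nat.pow_le_pow_right (by norm_num) h)
  induction n using Nat.strong_induction_on with
  | _ n ih =>
    intro k₀ hn K hKn hKnil hKd
    -- each degree of `K` lies in an occupied scale `≥ k₀`
    have hsc : ∀ d ∈ cdOver G K, ∃ k, k ∈ S ∧ k₀ ≤ k ∧ β ^ 2 ^ k ≤ d ∧ d < β ^ 2 ^ (k + 1) := by
      intro d hd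
      obtain ⟨hdC, hdk⟩ := hKd d hd
      have h1 : β ^ 2 ^ 0 ≤ β ^ 2 ^ k₀ := hmono (Nat.zero_le _)
      obtain ⟨k, hk1, hk2⟩ := exists_scale hβ (d := d) (by
        have : β ^ 2 ^ 0 = β := by simp
        omega)
      refine ⟨k, ⟨d, hdC, hk1, hk2⟩, ?_, hk1, hk2⟩
      by_contra hlt
      have h2 : β ^ 2 ^ (k + 1) ≤ β ^ 2 ^ k₀ := hmono (by omega)
      omega
    by_cases hemp : ∀ d, d ∉ cdOver G K
    · have h2 := eq_bot_of_cdOver_empty K hemp
      rw [eq_bot_iff]
      intro x _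
      rw [Subgroup.mem_bot]
      exact Subtype.ext (h2 x x.2)
    · push Not at hemp
      obtain ⟨d₁, hd₁⟩ := hemp
      obtain ⟨j₁, hj₁S, hj₁k, _, _⟩ := hsc d₁ hd₁
      -- the smallest occupied scale `≥ k₀`
      have hexk : ∃ k, k ∈ S ∧ k₀ ≤ k := ⟨j₁, hj₁S, hj₁k⟩
      obtain ⟨k, ⟨hkS, hkk₀⟩, hkmin⟩ : ∃ k, (k ∈ S ∧ k₀ ≤ k) ∧ ∀ j, j ∈ S ∧ k₀ ≤ j → k ≤ j :=
        ⟨Nat.find hexk, Nat.find_spec hexk, fun j hj => Nat.find_min' hexk hj⟩
      -- the end of its run
      have hexe : ∃ e, e ∈ S ∧ e + 1 ∉ S ∧ k ≤ e := by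
        obtain ⟨e, he, hemax⟩ := Set.exists_max_image S id hSfin ⟨k, hkS⟩
        refine ⟨e, he, ?_, hemax k hkS⟩
        intro h
        have := hemax _ h
        simp only [id] at this
        omega
      obtain ⟨e, ⟨heS, heS', hke⟩, hemin⟩ : ∃ e, (e ∈ S ∧ e + 1 ∉ S ∧ k ≤ e) ∧
          ∀ j, (j ∈ S ∧ j + 1 ∉ S ∧ k ≤ j) → e ≤ j :=
        ⟨Nat.find hexe, Nat.find_spec hexe, fun j hj => Nat.find_min' hexe hj⟩
      have hrun : ∀ i, k + i ≤ e → k + i ∈ S := by
        intro i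
        induction i with
        | zero => intro _; exact hkS
        | succ i ihi =>
          intro hi
          have h1 := ihi (by omega)
          by_contra h2
          have := hemin (k + i) ⟨h1, h2, by omega⟩
          omega
      -- the block
      set v := β ^ 2 ^ (e + 1) with hv
      have hv2 : 2 ≤ v := by
        have h1 : β ^ 2 ^ 0 ≤ v := hmono (Nat.zero_le _)
        have : β ^ 2 ^ 0 = β := by simp
        omega
      have hwpow : (β ^ 2 ^ k) ^ 2 ^ (e + 1 - k) = v := by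
        rw [← pow_mul, ← pow_add, hv]
        congr 2
        omega
      have hw2 : 2 ≤ β ^ 2 ^ k := by
        have h1 : β ^ 2 ^ 0 ≤ β ^ 2 ^ k := hmono (Nat.zero_le _)
        have : β ^ 2 ^ 0 = β := by simp
        omega
      have hno : ∀ d ∈ cdOver G K, v ≤ d → v * v ≤ d := by
        intro d hd hvd
        by_contra hlt
        apply heS'
        refine ⟨d, (hKd d hd).1, hvd, ?_⟩
        have : β ^ 2 ^ (e + 1 + 1) = v * v := by
          rw [hv, ← pow_add]
          congr 1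
          rw [pow_succ 2 (e + 1)]
          ring
        omega
      have hblock := block K hKnil (β ^ 2 ^ k) (2 ^ (e + 1 - k)) (v - 1) hw2 (Or.inl (by
        intro d hd
        obtain ⟨j, hjS, hjk, hj1, _⟩ := hsc d hd
        exact (hmono (hkmin j ⟨hjS, hjk⟩)).trans hj1)) (by
        intro d hd
        rw [hwpow]
        rintro ⟨h1, h2⟩
        have h3 := hno d hd h1.le
        have h4 : v * (v - 1) < v * v := Nat.mul_lt_mul_of_pos_left (by omega) (by omega)
        omega)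
      rw [Nat.log_pow (by norm_num)] at hblock
      -- counting
      have hsplit : {j | j ∈ S ∧ k₀ ≤ j} = Set.Icc k e ∪ {j | j ∈ S ∧ e + 1 ≤ j} := by
        ext j
        simp only [Set.mem_ofPred_eq, Set.mem_union, Set.mem_Icc]
        constructor
        · rintro ⟨h1, h2⟩
          have h3 := hkmin j ⟨h1, h2⟩
          by_cases h : j ≤ e
          · exact Or.inl ⟨h3, h⟩
          · exact Or.inr ⟨h1, by omega⟩
        · rintro (⟨h1, h2⟩ | ⟨h1, h2⟩)
          · have := hrun (j - k) (by omega)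
            rw [show k + (j - k) = j by omega] at this
            exact ⟨this, by omega⟩
          · exact ⟨h1, by omega⟩
      have hfin1 : {j | j ∈ S ∧ e + 1 ≤ j}.Finite := hSfin.subset (fun j hj => hj.1)
      have hcount : n = (e + 1 - k) + {j | j ∈ S ∧ e + 1 ≤ j}.ncard := by
        rw [← hn, hsplit, Set.ncard_union_eq _ (Set.finite_Icc k e) hfin1]
        · congr 1
          rw [Set.ncard_eq_toFinset_card', Set.toFinset_Icc, Nat.card_Icc]
        · rw [Set.disjoint_left]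
          rintro j ⟨_, h1⟩ ⟨_, h2⟩
          omega
      have hrho : {j | j ∈ S ∧ j + 1 ∉ S ∧ k₀ ≤ j}.ncard
          = {j | j ∈ S ∧ j + 1 ∉ S ∧ e + 1 ≤ j}.ncard + 1 := by
        have h1 : {j | j ∈ S ∧ j + 1 ∉ S ∧ k₀ ≤ j}
            = insert e {j | j ∈ S ∧ j + 1 ∉ S ∧ e + 1 ≤ j} := by
          ext j
          simp only [Set.mem_ofPred_eq, Set.mem_insert_iff]
          constructor
          · rintro ⟨h1, h2, h3⟩
            have h4 := hkmin j ⟨h1, h3⟩
            have h5 := hemin j ⟨h1, h2, h4⟩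
            by_cases h : j = e
            · exact Or.inl h
            · exact Or.inr ⟨h1, h2, by omega⟩
          · rintro (rfl | ⟨h1, h2, h3⟩)
            · exact ⟨heS, heS', by omega⟩
            · exact ⟨h1, h2, by omega⟩
        rw [h1, Set.ncard_insert_of_notMem _ (hSfin.subset (fun j hj => hj.1))]
        simp only [Set.mem_ofPred_eq]
        omega
      -- induction
      have hrest := ih {j | j ∈ S ∧ e + 1 ≤ j}.ncard (by omega) (e + 1) rfl
        (lowG K (v - 1)) (lowG_nilpotent K hKnil _) (by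
          intro d hd
          have h1 := cdOver_lowG K _ hd
          refine ⟨(hKd d h1.1).1, ?_⟩
          have h2 : v - 1 < d := h1.2
          show v ≤ d
          omega)
      have h1 := derivedSeries_comp (map_le_lowG hblock) (L := ⊥)
        (b := {j | j ∈ S ∧ e + 1 ≤ j}.ncard + 6 * {j | j ∈ S ∧ j + 1 ∉ S ∧ e + 1 ≤ j}.ncard)
        (by rw [hrest, Subgroup.map_bot])
      apply eq_bot_of_map_le_bot
      refine le_trans (Subgroup.map_mono (derivedSeries_antitone _ ?_)) h1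
      rw [hrho]
      omega

/-- **The bound by occupied scales.** -/
theorem bound_scales {G : Type*} [Group G] [Finite G] (N : Subgroup G) [hNn : N.Normal]
    (hN : Group.IsNilpotent ↥N) (β : ℕ) (hβ : 2 ≤ β) (hdeg : ∀ d ∈ cdOver G N, 1 < d → β ≤ d) :
    derivedSeries ↥N (1 + (scales β (cdOver G N)).ncard +
      6 * {k | k ∈ scales β (cdOver G N) ∧ k + 1 ∉ scales β (cdOver G N)}.ncard) = ⊥ := by
  have h0 := scales_aux (G := G) β hβ (cdOver G N) (cdOver_finite G N) _ 0 rfl (lowG N 1)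
    (lowG_nilpotent N hN 1) (by
      intro d hd
      have h1 := cdOver_lowG N 1 hd
      refine ⟨h1.1, ?_⟩
      simpa using hdeg d h1.1 h1.2)
  have e1 : {k | k ∈ scales β (cdOver G N) ∧ 0 ≤ k} = scales β (cdOver G N) := by
    ext k; simp
  have e2 : {k | k ∈ scales β (cdOver G N) ∧ k + 1 ∉ scales β (cdOver G N) ∧ 0 ≤ k}
      = {k | k ∈ scales β (cdOver G N) ∧ k + 1 ∉ scales β (cdOver G N)} := by
    ext k; simp
  rw [e1, e2] at h0
  have h2 := derivedSeries_comp (map_le_lowG (derivedSeries_one_le N)) (L := ⊥)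
    (b := (scales β (cdOver G N)).ncard +
      6 * {k | k ∈ scales β (cdOver G N) ∧ k + 1 ∉ scales β (cdOver G N)}.ncard)
    (by rw [h0, Subgroup.map_bot])
  have h3 := eq_bot_of_map_le_bot h2
  rw [add_assoc]
  exact h3

end Pool.Agent.DLF
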