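import Mathlib

/-!
# [DLF-C1] Chermak-Delgado

A finite group with an abelian subgroup `A` of index `n` has a characteristic abelian subgroup `B`
of index at most `n^2`.

Proof. For `H ≤ P` put `m(H) = |H| * |C_P(H)|` (`Subgroup.centralizer`). Let `M` be the maximum of `m`
and let `L` be the (finite, nonempty) set of the subgroups `H` with `m(H) = M`.
(1) `L` is closed under intersection. For `H, K ∈ L`: `|H ⊔ K| ≥ |H| |K| / |H ⊓ K|` (the product set
has `|H||K|/|H ⊓ K|` elements: `Subgroup.card_mul_index`-type lemma or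
`Subgroup.relIndex_inf_le` / `Subgroup.card_mul_card_eq...`), `C(H ⊔ K) = C(H) ⊓ C(K)` and
`C(H ⊓ K) ≥ C(H) ⊔ C(K)`, so `|C(H ⊓ K)| ≥ |C(H)| |C(K)| / |C(H) ⊓ C(K)|`. Multiply:
`m(H ⊔ K) * m(H ⊓ K) ≥ m(H) * m(K) = M^2`; as both factors are `≤ M`, both are `= M`.
(2) let `B` be an element of `L` of minimal order. For `H ∈ L`, `H ⊓ B ∈ L` has order `≤ |B|`, so
`H ⊓ B = B`, `B ≤ H`. So `B` is the smallest element of `L`.
(3) `B` is normal: a conjugate of `B` is in `L` (conjugation preserves orders and centralizers), so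
`B ≤ B^g` for all `g`. (Even characteristic.)
(4) `C(B) ∈ L`: `m(C(B)) = |C(B)| |C(C(B))| ≥ |C(B)| |B| = M`. So `B ≤ C(B)`: `B` is abelian.
(5) `|B| |P| ≥ |B| |C(B)| = M ≥ m(A) = |A| |C(A)| ≥ |A|^2`, so
`|P : B| = |P| / |B| ≤ |P|^2 / |A|^2 = |P : A|^2`.
-/

set_option autoImplicit false

namespace Pool.Agent.DLF

/-- the Chermak-Delgado measure -/
noncomputable def c1_m {P : Type*} [Group P] (H : Subgroup P) : ℕ :=
  Nat.card H * Nat.card (Subgroup.centralizer (H : Set P))

theorem c1_card {P : Type*} [Group P] (H K : Subgroup P) :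
    Nat.card (H ⊓ K : Subgroup P) * H.relIndex K = Nat.card K := by
  have h := Subgroup.relIndex_inf_mul_relIndex ⊥ H K
  rwa [bot_inf_eq, Subgroup.relIndex_bot_left, Subgroup.relIndex_bot_left] at h

theorem c1_prod {P : Type*} [Group P] [Finite P] (H K : Subgroup P) :
    Nat.card H * Nat.card K ≤ Nat.card (H ⊔ K : Subgroup P) * Nat.card (H ⊓ K : Subgroup P) := by
  have h1 : Nat.card (H ⊓ K : Subgroup P) * K.relIndex H = Nat.card H := by
    rw [inf_comm]
    exact c1_card K H
  have h2 : Nat.card K * K.relIndex (H ⊔ K) = Nat.card (H ⊔ K : Subgroup P) := by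
    have h3 := c1_card K (H ⊔ K)
    rwa [inf_eq_left.2 (le_sup_right : K ≤ H ⊔ K)] at h3
  have h4 : K.relIndex H ≤ K.relIndex (H ⊔ K) :=
    Subgroup.relIndex_le_of_le_right le_sup_left (by
      show (K.subgroupOf (H ⊔ K)).index ≠ 0
      exact Subgroup.index_ne_zero_of_finite)
  calc Nat.card H * Nat.card K = Nat.card (H ⊓ K : Subgroup P) * Nat.card K * K.relIndex H := by
        rw [← h1]
        ring
    _ ≤ Nat.card (H ⊓ K : Subgroup P) * Nat.card K * K.relIndex (H ⊔ K) := Nat.mul_le_mul_left _ h4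
    _ = Nat.card (H ⊔ K : Subgroup P) * Nat.card (H ⊓ K : Subgroup P) := by
        rw [← h2]
        ring

theorem c1_mono {P : Type*} [Group P] [Finite P] {H K : Subgroup P} (h : H ≤ K) : Nat.card H ≤ Nat.card K :=
  Subgroup.card_le_of_le h

theorem c1_mul {P : Type*} [Group P] [Finite P] (H K : Subgroup P) :
    c1_m H * c1_m K ≤ c1_m (H ⊔ K) * c1_m (H ⊓ K) := by
  have h1 := c1_prod H K
  have h2 := c1_prod (Subgroup.centralizer (H : Set P)) (Subgroup.centralizer (K : Set P))
  have h3 : Subgroup.centralizer (H : Set P) ⊓ Subgroup.centralizer (K : Set P) ≤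
      Subgroup.centralizer ((H ⊔ K : Subgroup P) : Set P) := by
    rw [Subgroup.le_centralizer_iff]
    refine sup_le ?_ ?_
    · rw [Subgroup.le_centralizer_iff]
      exact inf_le_left
    · rw [Subgroup.le_centralizer_iff]
      exact inf_le_right
  have h4 : Subgroup.centralizer (H : Set P) ⊔ Subgroup.centralizer (K : Set P) ≤
      Subgroup.centralizer ((H ⊓ K : Subgroup P) : Set P) := by
    refine sup_le (Subgroup.centralizer_le ?_) (Subgroup.centralizer_le ?_)
    · exact fun x hx => (inf_le_left : H ⊓ K ≤ H) hx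
    · exact fun x hx => (inf_le_right : H ⊓ K ≤ K) hx
  have h5 := c1_mono h3
  have h6 := c1_mono h4
  unfold c1_m
  calc Nat.card H * Nat.card (Subgroup.centralizer (H : Set P)) *
        (Nat.card K * Nat.card (Subgroup.centralizer (K : Set P))) =
      (Nat.card H * Nat.card K) * (Nat.card (Subgroup.centralizer (H : Set P)) *
        Nat.card (Subgroup.centralizer (K : Set P))) := by ring
    _ ≤ (Nat.card (H ⊔ K : Subgroup P) * Nat.card (H ⊓ K : Subgroup P)) *
        (Nat.card (Subgroup.centralizer (H : Set P) ⊔ Subgroup.centralizer (K : Set P) : Subgroup P) *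
        Nat.card (Subgroup.centralizer (H : Set P) ⊓ Subgroup.centralizer (K : Set P) : Subgroup P)) :=
      Nat.mul_le_mul h1 h2
    _ ≤ (Nat.card (H ⊔ K : Subgroup P) * Nat.card (H ⊓ K : Subgroup P)) *
        (Nat.card (Subgroup.centralizer ((H ⊓ K : Subgroup P) : Set P)) *
        Nat.card (Subgroup.centralizer ((H ⊔ K : Subgroup P) : Set P))) :=
      Nat.mul_le_mul_left _ (Nat.mul_le_mul h6 h5)
    _ = _ := by ring

theorem c1_map {P : Type*} [Group P] [Finite P] (e : P ≃* P) (H : Subgroup P) :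
    c1_m H ≤ c1_m (H.map e.toMonoidHom) := by
  unfold c1_m
  have h1 : Nat.card (H.map e.toMonoidHom) = Nat.card H :=
    Subgroup.card_map_of_injective e.injective
  have h2 : Nat.card ((Subgroup.centralizer (H : Set P)).map e.toMonoidHom) =
      Nat.card (Subgroup.centralizer (H : Set P)) := Subgroup.card_map_of_injective e.injective
  rw [h1, ← h2]
  refine Nat.mul_le_mul_left _ (c1_mono ?_)
  rintro _ ⟨x, hx, rfl⟩
  rw [Subgroup.mem_centralizer_iff]
  rintro _ ⟨y, hy, rfl⟩
  have h3 := Subgroup.mem_centralizer_iff.1 hx y hy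
  rw [← map_mul, ← map_mul, h3]

theorem c1_pos {P : Type*} [Group P] [Finite P] (H : Subgroup P) : 0 < c1_m H :=
  Nat.mul_pos Nat.card_pos Nat.card_pos

theorem chermak_delgado {P : Type*} [Group P] [Finite P] (A : Subgroup P)
    (hA : ∀ a ∈ A, ∀ b ∈ A, a * b = b * a) :
    ∃ B : Subgroup P, B.Characteristic ∧ (∀ a ∈ B, ∀ b ∈ B, a * b = b * a) ∧
      B.index ≤ A.index ^ 2 := by
  obtain ⟨H0, hH0⟩ := Finite.exists_max (c1_m : Subgroup P → ℕ)
  have hinf : ∀ H K : Subgroup P, c1_m H = c1_m H0 → c1_m K = c1_m H0 → c1_m (H ⊓ K) = c1_m H0 := by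
    intro H K h1 h2
    have h3 := c1_mul H K
    rw [h1, h2] at h3
    refine le_antisymm (hH0 _) ?_
    have h4 : c1_m H0 * c1_m H0 ≤ c1_m H0 * c1_m (H ⊓ K) := h3.trans (Nat.mul_le_mul_right _ (hH0 _))
    exact Nat.le_of_mul_le_mul_left h4 (c1_pos H0)
  obtain ⟨B, hB, hBmin⟩ := Set.exists_min_image {H : Subgroup P | c1_m H = c1_m H0}
    (fun H => Nat.card H) (Set.toFinite _) ⟨H0, rfl⟩
  have hB' : c1_m B = c1_m H0 := hB
  have hBle : ∀ H : Subgroup P, c1_m H = c1_m H0 → B ≤ H := by
    intro H hH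
    have h1 := hBmin (H ⊓ B) (hinf H B hH hB)
    have h2 : H ⊓ B = B := Subgroup.eq_of_le_of_card_ge inf_le_right h1
    exact inf_eq_right.1 h2
  have hBn : B.Characteristic := by
    rw [Subgroup.characteristic_iff_le_map]
    intro φ
    exact hBle _ (le_antisymm (hH0 _) (hB'.symm.le.trans (c1_map φ B)))
  have hCB : B ≤ Subgroup.centralizer (B : Set P) := by
    apply hBle
    refine le_antisymm (hH0 _) ?_
    rw [← hB']
    unfold c1_m
    rw [mul_comm]
    refine Nat.mul_le_mul_left _ (c1_mono ?_)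
    rw [Subgroup.le_centralizer_iff]
  refine ⟨B, hBn, fun a ha b hb => ?_, ?_⟩
  · exact (Subgroup.mem_centralizer_iff.1 (hCB hb) a ha)
  · have hAC : A ≤ Subgroup.centralizer (A : Set P) := by
      intro a ha
      rw [Subgroup.mem_centralizer_iff]
      intro b hb
      exact hA b hb a ha
    have h1 : Nat.card A * Nat.card A ≤ Nat.card B * Nat.card P := by
      calc Nat.card A * Nat.card A ≤ c1_m A := Nat.mul_le_mul_left _ (c1_mono hAC)
        _ ≤ c1_m B := by
          rw [hB']
          exact hH0 A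
        _ ≤ Nat.card B * Nat.card P := Nat.mul_le_mul_left _ (Subgroup.card_le_card_group _)
    have h2 := A.card_mul_index
    have h3 := B.card_mul_index
    have h4 : 0 < Nat.card B * Nat.card P := Nat.mul_pos Nat.card_pos Nat.card_pos
    refine Nat.le_of_mul_le_mul_left (c := Nat.card B * Nat.card P) ?_ h4
    calc Nat.card B * Nat.card P * B.index = Nat.card P * (Nat.card B * B.index) := by ring
      _ = (Nat.card A * A.index) * (Nat.card A * A.index) := by rw [h3, h2]
      _ = Nat.card A * Nat.card A * A.index ^ 2 := by ring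
      _ ≤ Nat.card B * Nat.card P * A.index ^ 2 := Nat.mul_le_mul_right _ h1

end Pool.Agent.DLF
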