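import Mathlib

/-!
# [DLF-D1] derived series and lower central series

`derivedSeries Q n ≤ γ_{2^n}(Q)`; in Mathlib's numbering `γ_{i+1} = (⊤ : Subgroup Q).lowerCentralSeries i`.

Proof. First `⁅γ_i, γ_j⁆ ≤ γ_{i+j}`, i.e.
`⁅(⊤ : Subgroup Q).lowerCentralSeries i, (⊤).lowerCentralSeries j⁆ ≤ (⊤).lowerCentralSeries (i + j + 1)`:
induction on `j` (all `i`). `j = 0`: definition. Step: the terms are normal, and by the three subgroups
lemma (`Subgroup.commutator_commutator_eq_bot_of_rotate` is the `⊥` form; for the `≤` form pass to the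
quotient by the normal subgroup `γ_{i+j+2}`-term or search for the version with a normal subgroup) one has
`⁅⁅γ_j, ⊤⁆, γ_i⁆ ≤ ⁅⁅⊤, γ_i⁆, γ_j⁆ ⊔ ⁅⁅γ_i, γ_j⁆, ⊤⁆ ≤ γ_{i+j+1}` by induction.
Then induction on `n`: `derivedSeries Q (n+1) = ⁅D_n, D_n⁆ ≤ ⁅γ_{2^n}, γ_{2^n}⁆ ≤ γ_{2^{n+1}}`:
index `(2^n - 1) + (2^n - 1) + 1 = 2^(n+1) - 1`.
-/

set_option autoImplicit false

namespace Pool.Agent.DLF

private theorem d1_three {Q : Type*} [Group Q] (N H₁ H₂ H₃ : Subgroup Q) [N.Normal]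
    (h1 : ⁅⁅H₂, H₃⁆, H₁⁆ ≤ N) (h2 : ⁅⁅H₃, H₁⁆, H₂⁆ ≤ N) : ⁅⁅H₁, H₂⁆, H₃⁆ ≤ N := by
  have key : ∀ K : Subgroup Q, K ≤ N ↔ K.map (QuotientGroup.mk' N) = ⊥ := by
    intro K
    rw [Subgroup.map_eq_bot_iff, QuotientGroup.ker_mk']
  rw [key, Subgroup.map_commutator, Subgroup.map_commutator] at h1 h2 ⊢
  exact Subgroup.commutator_commutator_eq_bot_of_rotate h1 h2

private theorem d1_comm {Q : Type*} [Group Q] (j : ℕ) : ∀ i : ℕ,
    ⁅(⊤ : Subgroup Q).lowerCentralSeries i, (⊤ : Subgroup Q).lowerCentralSeries j⁆ ≤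
      (⊤ : Subgroup Q).lowerCentralSeries (i + j + 1) := by
  induction j with
  | zero => intro i; exact le_rfl
  | succ j ih =>
    intro i
    rw [Subgroup.lowerCentralSeries_succ (⊤ : Subgroup Q) j, Subgroup.commutator_comm]
    refine d1_three _ _ _ _ ?_ ?_
    · rw [Subgroup.commutator_comm ⊤, ← Subgroup.lowerCentralSeries_succ]
      have h := ih (i + 1)
      have e : i + 1 + j + 1 = i + (j + 1) + 1 := by ring
      rw [e] at h
      exact h
    · exact Subgroup.commutator_mono (ih i) le_rfl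

theorem derivedSeries_le_lcs {Q : Type*} [Group Q] (n : ℕ) :
    derivedSeries Q n ≤ (⊤ : Subgroup Q).lowerCentralSeries (2 ^ n - 1) := by
  induction n with
  | zero => simp
  | succ n ih =>
    rw [derivedSeries_succ]
    refine (Subgroup.commutator_mono ih ih).trans ((d1_comm _ _).trans ?_)
    have h : 1 ≤ 2 ^ n := Nat.one_le_two_pow
    have e : 2 ^ n - 1 + (2 ^ n - 1) + 1 = 2 ^ (n + 1) - 1 := by
      rw [pow_succ]
      omega
    rw [e]

end Pool.Agent.DLF
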