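import Mathlib

/-!
# [DLF-D2] class of a small nilpotent group

`Q` finite nilpotent, all primes dividing `|Q|` are `≥ q`, `2 ≤ q`, `|Q| ≤ q^t`. Then the `t`-th term
(Mathlib numbering) of the lower central series is trivial.

Proof. Write `L i = (⊤ : Subgroup Q).lowerCentralSeries i`, antitone, `L 0 = ⊤`. Suppose `L t ≠ ⊥`.
For `i ≤ t`, `L (i+1) < L i`: otherwise `L (i+1) = L i` and by induction `L j = L i` for `j ≥ i`
(`L (j+1) = ⁅L j, ⊤⁆`), but `L j = ⊥` for large `j` (nilpotent), so `L i = ⊥`, and `L t ≤ L i = ⊥`, a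
contradiction. Claim: `q ^ i * |L i| ≤ |Q|` for `i ≤ t + 1`: `|L i| = |L i : L (i+1)| * |L (i+1)|`
(`Subgroup.relIndex_mul_card` or similar), the relative index is `> 1` and divides `|Q|`, so it has a
prime factor `p` dividing `|Q|`, `p ≥ q`, so it is `≥ q`. For `i = t + 1`: `q^(t+1) ≤ |Q| ≤ q^t`, a
contradiction with `q ≥ 2`.
-/

set_option autoImplicit false

namespace Pool.Agent.DLF

theorem lcs_eq_bot {Q : Type*} [Group Q] [Finite Q] [Group.IsNilpotent Q] (q t : ℕ) (hq : 2 ≤ q)
    (hp : ∀ p : ℕ, p.Prime → p ∣ Nat.card Q → q ≤ p) (hcard : Nat.card Q ≤ q ^ t) :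
    (⊤ : Subgroup Q).lowerCentralSeries t = ⊥ := by
  by_contra hne
  have hanti := Subgroup.lowerCentralSeries_antitone (⊤ : Subgroup Q)
  have hlt : ∀ i : ℕ, i ≤ t → ¬ (⊤ : Subgroup Q).lowerCentralSeries i ≤
      (⊤ : Subgroup Q).lowerCentralSeries (i + 1) := by
    intro i hi hle
    have h1 : (⊤ : Subgroup Q).lowerCentralSeries (i + 1) = (⊤ : Subgroup Q).lowerCentralSeries i :=
      le_antisymm (hanti (Nat.le_succ i)) hle
    have h2 : ∀ j : ℕ, (⊤ : Subgroup Q).lowerCentralSeries (i + j) =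
        (⊤ : Subgroup Q).lowerCentralSeries i := by
      intro j
      induction j with
      | zero => rfl
      | succ j ih =>
        rw [← add_assoc, Subgroup.lowerCentralSeries_succ, ih, ← Subgroup.lowerCentralSeries_succ, h1]
    obtain ⟨n, hn⟩ := Subgroup.nilpotent_iff_lowerCentralSeries.1 (inferInstance : Group.IsNilpotent Q)
    apply hne
    rw [eq_bot_iff]
    refine (hanti hi).trans ?_
    rw [← h2 n, ← hn]
    exact hanti (Nat.le_add_left n i)
  have hcl : ∀ i : ℕ, i ≤ t + 1 →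
      q ^ i * Nat.card ((⊤ : Subgroup Q).lowerCentralSeries i) ≤ Nat.card Q := by
    intro i
    induction i with
    | zero =>
      intro _
      rw [pow_zero, one_mul]
      exact Nat.le_of_dvd Nat.card_pos (Subgroup.card_subgroup_dvd_card _)
    | succ i ih =>
      intro hi
      have h1 := ih (by omega)
      have h2 := Subgroup.relIndex_mul_relIndex (⊥ : Subgroup Q)
        ((⊤ : Subgroup Q).lowerCentralSeries (i + 1)) ((⊤ : Subgroup Q).lowerCentralSeries i) bot_le
        (hanti (Nat.le_succ i))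
      rw [Subgroup.relIndex_bot_left, Subgroup.relIndex_bot_left] at h2
      set k := ((⊤ : Subgroup Q).lowerCentralSeries (i + 1)).relIndex
        ((⊤ : Subgroup Q).lowerCentralSeries i) with hk
      have hk1 : k ≠ 1 := by
        rw [hk, Ne, Subgroup.relIndex_eq_one]
        exact hlt i (by omega)
      have hkd : k ∣ Nat.card Q := by
        refine dvd_trans ?_ (Subgroup.card_subgroup_dvd_card ((⊤ : Subgroup Q).lowerCentralSeries i))
        exact ⟨_, by rw [← h2, mul_comm]⟩
      have hk0 : 0 < k := Nat.pos_of_dvd_of_pos hkd Nat.card_pos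
      have hqk : q ≤ k := (hp _ (Nat.minFac_prime hk1) (dvd_trans (Nat.minFac_dvd k) hkd)).trans
        (Nat.minFac_le hk0)
      calc q ^ (i + 1) * Nat.card ((⊤ : Subgroup Q).lowerCentralSeries (i + 1))
          = q ^ i * (Nat.card ((⊤ : Subgroup Q).lowerCentralSeries (i + 1)) * q) := by ring
        _ ≤ q ^ i * (Nat.card ((⊤ : Subgroup Q).lowerCentralSeries (i + 1)) * k) := by gcongr
        _ = q ^ i * Nat.card ((⊤ : Subgroup Q).lowerCentralSeries i) := by rw [h2]
        _ ≤ Nat.card Q := h1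
  have h1 := hcl (t + 1) le_rfl
  have h2 : 0 < Nat.card ((⊤ : Subgroup Q).lowerCentralSeries (t + 1)) := Nat.card_pos
  have h3 : q ^ (t + 1) ≤ q ^ t := by
    calc q ^ (t + 1) = q ^ (t + 1) * 1 := (mul_one _).symm
      _ ≤ q ^ (t + 1) * Nat.card ((⊤ : Subgroup Q).lowerCentralSeries (t + 1)) := by gcongr; omega
      _ ≤ q ^ t := h1.trans hcard
  have h4 : q ^ t < q ^ (t + 1) := Nat.pow_lt_pow_right (by omega) (Nat.lt_succ_self t)
  omega

end Pool.Agent.DLF
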