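import Pool.Agent.DLF.A7
import Pool.Agent.DLF.C1
import Pool.Agent.DLF.D1
import Pool.Agent.DLF.D2

/-!
# [DLF-D3] derived length and the largest degree
-/

set_option autoImplicit false

namespace Pool.Agent.DLF

theorem derivedSeries_eq_bot_of_degree_le {P : Type*} [Group P] [Finite P] [Group.IsNilpotent P]
    (q k : ℕ) (hq : 2 ≤ q) (hp : ∀ p : ℕ, p.Prime → p ∣ Nat.card P → q ≤ p)
    (hdeg : ∀ (d : ℕ) (ρ : P →* Matrix (Fin d) (Fin d) ℂ), 0 < d → Irr ρ → d ≤ q ^ k) :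
    derivedSeries P (5 + Nat.log 2 k) = ⊥ := by
  obtain ⟨A, hA, d, ρ, hd, hρ, hidx⟩ := exists_abelian P
  obtain ⟨B, hBc, hB, hBidx⟩ := chermak_delgado A hA
  have hBn : B.Normal := inferInstance
  have hdk := hdeg d ρ hd hρ
  have hcard : Nat.card (P ⧸ B) ≤ q ^ (8 * k) := by
    have : Nat.card (P ⧸ B) = B.index := rfl
    rw [this]
    calc B.index ≤ A.index ^ 2 := hBidx
      _ ≤ (d ^ 4) ^ 2 := Nat.pow_le_pow_left hidx 2
      _ = d ^ 8 := by ring
      _ ≤ (q ^ k) ^ 8 := Nat.pow_le_pow_left hdk 8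
      _ = q ^ (8 * k) := by rw [← pow_mul, mul_comm]
  have hpB : ∀ p : ℕ, p.Prime → p ∣ Nat.card (P ⧸ B) → q ≤ p := by
    intro p hp1 hp2
    exact hp p hp1 (hp2.trans (Subgroup.card_quotient_dvd_card B))
  have h1 := lcs_eq_bot (Q := P ⧸ B) q (8 * k) hq hpB hcard
  have h2 : derivedSeries (P ⧸ B) (4 + Nat.log 2 k) = ⊥ := by
    rw [eq_bot_iff]
    refine (derivedSeries_le_lcs _).trans ?_
    rw [← h1]
    apply Subgroup.lowerCentralSeries_antitone
    have h3 : k < 2 ^ (Nat.log 2 k + 1) := Nat.lt_pow_succ_log_self (by norm_num) k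
    have h4 : 2 ^ (4 + Nat.log 2 k) = 8 * 2 ^ (Nat.log 2 k + 1) := by
      rw [show 4 + Nat.log 2 k = 3 + (Nat.log 2 k + 1) by ring, pow_add]
      norm_num
    omega
  have h5 : derivedSeries P (4 + Nat.log 2 k) ≤ B := by
    have h6 := map_derivedSeries_le_derivedSeries (QuotientGroup.mk' B) (4 + Nat.log 2 k)
    rw [h2] at h6
    have h7 := Subgroup.map_le_iff_le_comap.1 h6
    rw [MonoidHom.comap_bot, QuotientGroup.ker_mk'] at h7
    exact h7
  rw [show 5 + Nat.log 2 k = (4 + Nat.log 2 k) + 1 by ring, derivedSeries_succ, eq_bot_iff]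
  rw [Subgroup.commutator_le]
  intro a ha b hb
  rw [Subgroup.mem_bot, commutatorElement_eq_one_iff_mul_comm]
  exact hB a (h5 ha) b (h5 hb)

end Pool.Agent.DLF
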