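import Mathlib

/-!
# [DLF] definitions

Irreducible complex matrix representations in the sense of the frozen statements of
MP_1f936f_al, the set `cd(G|N)` and the span of the matrix coefficients of bounded degree.
-/

set_option autoImplicit false

namespace Pool.Agent.DLF

/-- Every subspace invariant under all `ρ g` is `⊥` or `⊤` (the irreducibility condition of the
frozen statements of MP_1f936f_al; degree `0` is excluded separately). -/
def Irr {G : Type*} [Group G] {d : ℕ} (ρ : G →* Matrix (Fin d) (Fin d) ℂ) : Prop :=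
  ∀ W : Submodule ℂ (Fin d → ℂ),
    (∀ g : G, ∀ v ∈ W, Matrix.mulVec (ρ g) v ∈ W) → W = ⊥ ∨ W = ⊤

/-- The set `cd(G|N)` of the degrees of the irreducible complex representations of `G` that are
not trivial on `N`. -/
def cdOver (G : Type*) [Group G] (N : Subgroup G) : Set ℕ :=
  {d : ℕ | 0 < d ∧ ∃ ρ : G →* Matrix (Fin d) (Fin d) ℂ, Irr ρ ∧ ∃ x ∈ N, ρ x ≠ 1}

/-- The occupied scales of a set `C` of natural numbers: the `k` such that `C` contains an element of
`[β^(2^k), β^(2^(k+1)))`. -/
def scales (β : ℕ) (C : Set ℕ) : Set ℕ :=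
  {k | ∃ d ∈ C, β ^ 2 ^ k ≤ d ∧ d < β ^ 2 ^ (k + 1)}

/-- The span (in the functions on `G`) of all matrix coefficients of the irreducible
representations of `G` of degree at most `n`. -/
def coeffSpan (G : Type*) [Group G] (n : ℕ) : Submodule ℂ (G → ℂ) :=
  Submodule.span ℂ {f | ∃ d : ℕ, 0 < d ∧ d ≤ n ∧ ∃ ρ : G →* Matrix (Fin d) (Fin d) ℂ, Irr ρ ∧
    ∃ i j : Fin d, f = fun g => ρ g i j}

theorem coeffSpan_mono (G : Type*) [Group G] {m n : ℕ} (h : m ≤ n) :
    coeffSpan G m ≤ coeffSpan G n := by
  apply Submodule.span_mono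
  rintro f ⟨d, hd, hdm, ρ, hρ, i, j, hf⟩
  exact ⟨d, hd, hdm.trans h, ρ, hρ, i, j, hf⟩

theorem irr_of_one {G : Type*} [Group G] (ρ : G →* Matrix (Fin 1) (Fin 1) ℂ) : Irr ρ := by
  intro W _
  by_cases h : W = ⊥
  · exact Or.inl h
  · right
    obtain ⟨w, hw, hw0⟩ := (Submodule.ne_bot_iff W).1 h
    rw [eq_top_iff]
    intro v _
    have hw1 : w 0 ≠ 0 := by
      intro h0
      apply hw0
      funext i
      have : i = 0 := Subsingleton.elim _ _
      rw [this, h0]; rfl
    have : v = (v 0 / w 0) • w := by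
      funext i
      have hi : i = 0 := Subsingleton.elim _ _
      rw [hi]
      simp [hw1]
    rw [this]
    exact W.smul_mem _ hw

theorem const_mem_coeffSpan (G : Type*) [Group G] {n : ℕ} (hn : 1 ≤ n) (c : ℂ) :
    (fun _ : G => c) ∈ coeffSpan G n := by
  have h1 : (fun _ : G => (1 : ℂ)) ∈ coeffSpan G n := by
    apply Submodule.subset_span
    refine ⟨1, one_pos, hn, 1, irr_of_one 1, 0, 0, ?_⟩
    funext g
    simp
  have : (fun _ : G => c) = c • (fun _ : G => (1 : ℂ)) := by
    funext g; simp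
  rw [this]
  exact Submodule.smul_mem _ _ h1

/-- The space of `K`-equivariant linear maps. -/
def homK {K V W : Type*} [Group K] [AddCommGroup V] [Module ℂ V] [AddCommGroup W] [Module ℂ W]
    (ρ : K →* Module.End ℂ V) (σ : K →* Module.End ℂ W) : Submodule ℂ (V →ₗ[ℂ] W) where
  carrier := {f | ∀ k : K, ∀ v : V, f (ρ k v) = σ k (f v)}
  add_mem' := by
    intro a b ha hb k v
    simp only [LinearMap.add_apply, map_add, ha k v, hb k v]
  zero_mem' := by
    intro k v
    simp
  smul_mem' := by
    intro c a ha k v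
    simp only [LinearMap.smul_apply, map_smul, ha k v]

end Pool.Agent.DLF
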