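import Mathlib

/-!
# [DLF-E1] Fitting's theorem (finite groups)

The product of two nilpotent normal subgroups of a finite group is nilpotent, and so the subgroup
generated by all nilpotent normal subgroups is nilpotent and normal.

Proof of (a). Let `L = M ⊔ N`. A finite group is nilpotent if and only if all its Sylow subgroups are
normal (`Group.isNilpotent_of_finite_tfae`). Let `p` be a prime, `M_p`, `N_p` the (unique) Sylow
`p`-subgroups of `M`, `N`; they are characteristic in `M`, `N`, hence (as subgroups of `G`) normal in `G`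
(`Sylow.characteristic_of_normal`), so `P = M_p ⊔ N_p` is a normal `p`-subgroup of `G`
(`IsPGroup.to_sup_of_normal_right` or similar), contained in `L`. Its index in `L` is prime to `p`:
`|L : P|` divides ... : `|M ⊔ N| = |M| |N| / |M ⊓ N|`; let `x ∈ L` have order a power of `p` modulo `P`;
simplest: `L / P` is generated by the images of `M` and `N`, which are normal subgroups of order prime to
`p` (quotients of `M / M_p`, `N / N_p`), so `|L / P|` divides `|M/M_p| * |N/N_p|`, prime to `p`. So `P` is a
Sylow `p`-subgroup of `L`, normal, so every Sylow `p`-subgroup of `L` is normal.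
(Any other proof is fine, e.g. with the lower central series:
`L.lowerCentralSeries n ≤ ⨆_{i+j=n+1} (M.lowerCentralSeries (i-1) ⊓ N.lowerCentralSeries (j-1))`-type
estimates, or with the upper central series.)
Proof of (b). `G` is finite: let `H` be a nilpotent normal subgroup of largest order; by (a) it contains
every nilpotent normal subgroup, so it is the supremum.
-/

set_option autoImplicit false

namespace Pool.Agent.DLF

theorem e1_meet {G : Type*} [Group G] [hG : Group.IsNilpotent G] (H : Subgroup G) [H.Normal]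
    (hH : H ≠ ⊥) : ∃ x ∈ H, x ≠ 1 ∧ x ∈ Subgroup.center G := by
  classical
  obtain ⟨n, hn⟩ := hG.nilpotent
  have hex : ∃ n, H ⊓ Subgroup.upperCentralSeries G n ≠ ⊥ := ⟨n, by rwa [hn, inf_top_eq]⟩
  have h1 := Nat.find_spec hex
  have h2 : ∀ m < Nat.find hex, H ⊓ Subgroup.upperCentralSeries G m = ⊥ := fun m hm =>
    not_not.1 (Nat.find_min hex hm)
  cases hk : Nat.find hex with
  | zero =>
    rw [hk, Subgroup.upperCentralSeries_zero, inf_bot_eq] at h1
    exact absurd rfl h1
  | succ m =>
    rw [hk] at h1 h2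
    have h3 := h2 m (Nat.lt_succ_self m)
    obtain ⟨⟨x, hxm⟩, hx1⟩ := Subgroup.ne_bot_iff_exists_ne_one.1 h1
    have hx1' : x ≠ 1 := fun h => hx1 (Subtype.ext h)
    refine ⟨x, hxm.1, hx1', ?_⟩
    rw [Subgroup.mem_center_iff]
    intro g
    have h4 : x * g * x⁻¹ * g⁻¹ ∈ H ⊓ Subgroup.upperCentralSeries G m := by
      refine ⟨?_, (Subgroup.mem_upperCentralSeries_succ_iff.1 hxm.2) g⟩
      have h5 : g * x⁻¹ * g⁻¹ ∈ H := Subgroup.Normal.conj_mem inferInstance _ (H.inv_mem hxm.1) g
      have h6 := H.mul_mem hxm.1 h5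
      have h7 : x * g * x⁻¹ * g⁻¹ = x * (g * x⁻¹ * g⁻¹) := by group
      rw [h7]
      exact h6
    rw [h3, Subgroup.mem_bot] at h4
    have h8 : x * g = g * x := by
      have := congrArg (fun y => y * g * x) h4
      simpa [mul_assoc] using this
    exact h8.symm

theorem e1_sup {G : Type*} [Group G] {M N : Subgroup G} (htop : M ⊔ N = ⊤) {x : G}
    (h1 : ∀ g ∈ M, g * x = x * g) (h2 : ∀ g ∈ N, g * x = x * g) : x ∈ Subgroup.center G := by
  rw [Subgroup.mem_center_iff]
  intro g
  have h3 : M ⊔ N ≤ Subgroup.centralizer {x} := by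
    refine sup_le ?_ ?_
    · intro y hy
      rw [Subgroup.mem_centralizer_singleton_iff]
      exact h1 y hy
    · intro y hy
      rw [Subgroup.mem_centralizer_singleton_iff]
      exact h2 y hy
  rw [htop] at h3
  have h4 := h3 (Subgroup.mem_top g)
  rw [Subgroup.mem_centralizer_singleton_iff] at h4
  exact h4

theorem e1_center {G : Type*} [Group G] [Nontrivial G] (M N : Subgroup G) [M.Normal] [N.Normal]
    (hM : Group.IsNilpotent ↥M) (hN : Group.IsNilpotent ↥N) (htop : M ⊔ N = ⊤) :
    ∃ x : G, x ≠ 1 ∧ x ∈ Subgroup.center G := by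
  by_cases hM0 : M = ⊥
  · rw [hM0, bot_sup_eq] at htop
    have hG : Group.IsNilpotent G := by
      rw [htop] at hN
      exact Group.nilpotent_of_mulEquiv (Subgroup.topEquiv (G := G))
    obtain ⟨⟨x, hx⟩, hx1⟩ := Subgroup.ne_bot_iff_exists_ne_one.1
      (Group.IsNilpotent.center_ne_bot (G := G))
    exact ⟨x, fun h => hx1 (Subtype.ext h), hx⟩
  have hMn : Nontrivial M := (Subgroup.nontrivial_iff_ne_bot M).2 hM0
  have hZn : ((Subgroup.center M).map M.subtype).Normal := ConjAct.normal_of_characteristic_of_normal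
  have hZc : ∀ z ∈ (Subgroup.center M).map M.subtype, ∀ g ∈ M, g * z = z * g := by
    rintro z ⟨z', hz', rfl⟩ g hg
    have h1 := Subgroup.mem_center_iff.1 hz' ⟨g, hg⟩
    exact congrArg Subtype.val h1
  by_cases hK : (Subgroup.center M).map M.subtype ⊓ N = ⊥
  · obtain ⟨⟨z, hz⟩, hz1⟩ := Subgroup.ne_bot_iff_exists_ne_one.1
      (Group.IsNilpotent.center_ne_bot (G := M))
    have hz1' : (z : G) ≠ 1 := fun h => hz1 (Subtype.ext (Subtype.ext h))
    have hzm : (z : G) ∈ (Subgroup.center M).map M.subtype := ⟨z, hz, rfl⟩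
    refine ⟨z, hz1', e1_sup htop (hZc z hzm) ?_⟩
    intro g hg
    exact (Subgroup.commute_of_normal_of_disjoint _ N hZn inferInstance
      (disjoint_iff.2 hK) (z : G) g hzm hg).symm
  · obtain ⟨⟨y, hy⟩, hy1⟩ := Subgroup.ne_bot_iff_exists_ne_one.1 hK
    have hKn : (((Subgroup.center M).map M.subtype ⊓ N).subgroupOf N).Normal :=
      Subgroup.normal_subgroupOf
    have hKne : ((Subgroup.center M).map M.subtype ⊓ N).subgroupOf N ≠ ⊥ := by
      intro hbot
      have h1 : (⟨y, hy.2⟩ : N) ∈ ((Subgroup.center M).map M.subtype ⊓ N).subgroupOf N := hy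
      rw [hbot, Subgroup.mem_bot] at h1
      have h2 : y = 1 := congrArg Subtype.val h1
      exact hy1 (Subtype.ext h2)
    obtain ⟨x, hx, hx1, hxc⟩ := e1_meet (((Subgroup.center M).map M.subtype ⊓ N).subgroupOf N) hKne
    refine ⟨x, fun h => hx1 (Subtype.ext h), e1_sup htop (hZc x hx.1) ?_⟩
    intro g hg
    exact congrArg Subtype.val (Subgroup.mem_center_iff.1 hxc ⟨g, hg⟩)

theorem e1_top (n : ℕ) : ∀ (G : Type*) [Group G] [Finite G] (M N : Subgroup G) [M.Normal]
    [N.Normal], Nat.card G = n → Group.IsNilpotent ↥M → Group.IsNilpotent ↥N → M ⊔ N = ⊤ →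
    Group.IsNilpotent G := by
  induction n using Nat.strong_induction_on with
  | _ n ih =>
    intro G _ _ M N _ _ hn hM hN htop
    rcases subsingleton_or_nontrivial G with hs | hs
    · exact Group.isNilpotent_of_subsingleton
    obtain ⟨x, hx1, hxc⟩ := e1_center M N hM hN htop
    apply Group.of_quotient_center_nilpotent
    have hsurj := QuotientGroup.mk'_surjective (Subgroup.center G)
    have i1 : (M.map (QuotientGroup.mk' (Subgroup.center G))).Normal :=
      Subgroup.Normal.map inferInstance _ hsurj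
    have i2 : (N.map (QuotientGroup.mk' (Subgroup.center G))).Normal :=
      Subgroup.Normal.map inferInstance _ hsurj
    refine ih (Nat.card (G ⧸ Subgroup.center G)) ?_ (G ⧸ Subgroup.center G)
      (M.map (QuotientGroup.mk' (Subgroup.center G))) (N.map (QuotientGroup.mk' (Subgroup.center G)))
      rfl ?_ ?_ ?_
    · rw [← hn, Subgroup.card_eq_card_quotient_mul_card_subgroup (Subgroup.center G)]
      have h1 : 1 < Nat.card (Subgroup.center G) := by
        rw [Finite.one_lt_card_iff_nontrivial]
        exact ⟨⟨⟨x, hxc⟩, 1, fun h => hx1 (congrArg Subtype.val h)⟩⟩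
      have h2 : 0 < Nat.card (G ⧸ Subgroup.center G) := Nat.card_pos
      nlinarith
    · exact Group.nilpotent_of_surjective _ (MonoidHom.subgroupMap_surjective
        (QuotientGroup.mk' (Subgroup.center G)) M)
    · exact Group.nilpotent_of_surjective _ (MonoidHom.subgroupMap_surjective
        (QuotientGroup.mk' (Subgroup.center G)) N)
    · rw [← Subgroup.map_sup, htop, ← MonoidHom.range_eq_map, MonoidHom.range_eq_top]
      exact hsurj

theorem nilpotent_sup {G : Type*} [Group G] [Finite G] (M N : Subgroup G) [M.Normal] [N.Normal]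
    (hM : Group.IsNilpotent ↥M) (hN : Group.IsNilpotent ↥N) :
    Group.IsNilpotent ↥(M ⊔ N : Subgroup G) := by
  have : (M.subgroupOf (M ⊔ N)).Normal := Subgroup.normal_subgroupOf
  have : (N.subgroupOf (M ⊔ N)).Normal := Subgroup.normal_subgroupOf
  refine e1_top _ ↥(M ⊔ N : Subgroup G) (M.subgroupOf (M ⊔ N)) (N.subgroupOf (M ⊔ N)) rfl ?_ ?_ ?_
  · exact Group.nilpotent_of_mulEquiv (Subgroup.subgroupOfEquivOfLe (le_sup_left : M ≤ M ⊔ N)).symm
  · exact Group.nilpotent_of_mulEquiv (Subgroup.subgroupOfEquivOfLe (le_sup_right : N ≤ M ⊔ N)).symm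
  · rw [← Subgroup.subgroupOf_sup le_sup_left le_sup_right, Subgroup.subgroupOf_self]

theorem fitting_nilpotent {G : Type*} [Group G] [Finite G] (F : Subgroup G)
    (hF : F = (⨆ (N : Subgroup G) (_ : N.Normal) (_ : Group.IsNilpotent N), N)) :
    F.Normal ∧ Group.IsNilpotent ↥F := by
  obtain ⟨H, hH⟩ := (Set.toFinite {N : Subgroup G | N.Normal ∧ Group.IsNilpotent N}).exists_maximal
    ⟨⊥, (inferInstance : (⊥ : Subgroup G).Normal), (inferInstance : Group.IsNilpotent (⊥ : Subgroup G))⟩
  have hHn : H.Normal := hH.prop.1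
  have hHN : Group.IsNilpotent H := hH.prop.2
  have hFH : F = H := by
    rw [hF]
    apply le_antisymm
    · refine iSup_le fun N => iSup_le fun hN => iSup_le fun hN' => ?_
      have h1 : H ⊔ N ∈ {N : Subgroup G | N.Normal ∧ Group.IsNilpotent N} :=
        ⟨Subgroup.sup_normal H N, nilpotent_sup H N hHN hN'⟩
      exact le_sup_right.trans (hH.le_of_ge h1 le_sup_left)
    · exact le_iSup_of_le H (le_iSup_of_le hHn (le_iSup_of_le hHN le_rfl))
  rw [hFH]
  exact ⟨hHn, hHN⟩

end Pool.Agent.DLF
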