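import Mathlib

/-!
# [DLF-G4] a subalgebra of the functions on a finite set is determined by its classes

`X` finite, `S` a subalgebra of `X → ℂ` (contains the constants). If `f` is constant on the classes
of the relation (all `h ∈ S` take the same value at `x` and `y`), then `f ∈ S`.

Proof. For `x : X` and `y` not equivalent to `x` choose `h_{xy} ∈ S` with `h x ≠ h y`; then
`e_{xy} = (h - h y) / (h x - h y) ∈ S` has value `1` at `x` and `0` at `y`. The product
`e_x = ∏_{y not equivalent to x} e_{xy} ∈ S` is `1` at `x` (hence on the class of `x`, because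
elements of `S` are constant on classes) and `0` outside of the class of `x`. Finally
`f = ∑_{classes} f(x) e_x`; to avoid representatives: `f = ∑ x, (f x / n_x) • e_x` where `n_x` is the
number of elements equivalent to `x` (a positive natural number, constant on the class).
Check: at `z` the sum is `∑_{x ~ z} (f x / n_x) = n_z * (f z / n_z) = f z`.
-/

set_option autoImplicit false

namespace Pool.Agent.DLF

theorem mem_of_separates {X : Type*} [Finite X] (S : Subalgebra ℂ (X → ℂ)) (f : X → ℂ)
    (hf : ∀ x y : X, (∀ h ∈ S, h x = h y) → f x = f y) : f ∈ S := by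
  classical
  have := Fintype.ofFinite X
  have hsep : ∀ x y : X, ∃ e ∈ S, e x = 1 ∧ ((¬ ∀ h ∈ S, h x = h y) → e y = 0) := by
    intro x y
    by_cases hxy : ∀ h ∈ S, h x = h y
    · exact ⟨1, S.one_mem, rfl, fun h => absurd hxy h⟩
    · have hxy' := hxy
      push Not at hxy'
      obtain ⟨h, hS, hne⟩ := hxy'
      refine ⟨(h x - h y)⁻¹ • (h - (h y) • (1 : X → ℂ)),
        S.smul_mem (S.sub_mem hS (S.smul_mem S.one_mem _)) _, ?_, ?_⟩
      · have h1 : h x - h y ≠ 0 := sub_ne_zero.2 hne
        simp only [Pi.smul_apply, Pi.sub_apply, Pi.one_apply, smul_eq_mul, mul_one]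
        exact inv_mul_cancel₀ h1
      · intro _
        simp only [Pi.smul_apply, Pi.sub_apply, Pi.one_apply, smul_eq_mul, mul_one, sub_self,
          mul_zero]
  choose e heS he1 he0 using hsep
  set EE : X → (X → ℂ) := fun x => ∏ y, e x y with hEE
  have hES : ∀ x, EE x ∈ S := fun x => S.prod_mem (fun y _ => heS x y)
  have hE1 : ∀ x y, (∀ h ∈ S, h x = h y) → EE x y = 1 := by
    intro x y hxy
    rw [← hxy _ (hES x), hEE]
    simp only [Finset.prod_apply]
    exact Finset.prod_eq_one (fun y _ => he1 x y)
  have hE0 : ∀ x y, ¬ (∀ h ∈ S, h x = h y) → EE x y = 0 := by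
    intro x y hxy
    rw [hEE]
    simp only [Finset.prod_apply]
    exact Finset.prod_eq_zero (Finset.mem_univ y) (he0 x y hxy)
  set n : X → ℕ := fun x => (Finset.univ.filter (fun y => ∀ h ∈ S, h x = h y)).card with hn
  have hn_eq : ∀ x z, (∀ h ∈ S, h x = h z) → n x = n z := by
    intro x z hxz
    rw [hn]
    simp only
    congr 1
    ext y
    simp only [Finset.mem_filter, Finset.mem_univ, true_and]
    constructor
    · intro h1 h hS
      rw [← hxz h hS, h1 h hS]
    · intro h1 h hS
      rw [hxz h hS, h1 h hS]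
  have hn_pos : ∀ z, (n z : ℂ) ≠ 0 := by
    intro z
    rw [Nat.cast_ne_zero]
    apply Finset.card_ne_zero_of_mem (a := z)
    simp
  have hfin : f = ∑ x, (f x / n x) • EE x := by
    funext z
    rw [Finset.sum_apply]
    have h1 : ∀ x, ((f x / n x) • EE x) z =
        if (∀ h ∈ S, h z = h x) then f z / n z else 0 := by
      intro x
      rw [Pi.smul_apply, smul_eq_mul]
      split_ifs with hzx
      · have hxz : ∀ h ∈ S, h x = h z := fun h hS => (hzx h hS).symm
        rw [hE1 x z hxz, mul_one, hf x z hxz, hn_eq x z hxz]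
      · have hxz : ¬ ∀ h ∈ S, h x = h z := fun h => hzx (fun g hS => (h g hS).symm)
        rw [hE0 x z hxz, mul_zero]
    rw [Finset.sum_congr rfl (fun x _ => h1 x), ← Finset.sum_filter, Finset.sum_const,
      nsmul_eq_mul]
    change f z = (n z : ℂ) * (f z / n z)
    field_simp [hn_pos z]
  rw [hfin]
  exact S.sum_mem (fun x _ => S.smul_mem (hES x) _)

end Pool.Agent.DLF
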