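import Pool.Agent.DLF.Defs

/-!
# [DLF-G5] degree bound from the coefficients (orthogonality)

`N` finite, `σ` irreducible of degree `s > 0`. If all coefficients of `σ` lie in the span of the
coefficients of (arbitrary) representations of `N` of degree `≤ v`, then `s ≤ v`.

Proof. Assume `v < s`.
(1) Let `τ : N →* Matrix (Fin t) (Fin t) ℂ` with `t ≤ v < s` and let
`T : Matrix (Fin s) (Fin t) ℂ` be any matrix. Put `A = ∑ n, σ n⁻¹ * T * τ n`
(`Fintype N` from `Fintype.ofFinite`). Then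
`σ m * A = A * τ m` for all `m` (reindex the sum: `σ m * A = ∑ n, σ (m n⁻¹) T τ n`, put `n = n' m`).
The range `W` of `A.mulVecLin` is invariant under all `σ m` and has dimension `≤ t < s`, so it is not
`⊤`; by `hσ` it is `⊥`, so `A = 0`.
(2) With `T = Matrix.single j k 1` this reads `∑ n, σ n⁻¹ i j * τ n k l = 0` for all `i j k l`.
So for all `i j` the linear functional `L_{ij} f = ∑ n, σ n⁻¹ i j * f n` vanishes on the span in `h`,
in particular `L_{ij} (fun n => σ n j i) = 0`.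
(3) But `∑ j, L_{ij} (fun n => σ n j i) = ∑ n, (σ n⁻¹ * σ n) i i = ∑ n, 1 = |N| ≠ 0` for
`i = ⟨0, hs⟩`, a contradiction.
-/

set_option autoImplicit false

namespace Pool.Agent.DLF

theorem g5_schur {N : Type*} [Group N] [Fintype N] {s t : ℕ} (hts : t < s)
    (σ : N →* Matrix (Fin s) (Fin s) ℂ) (hσ : Irr σ) (τ : N →* Matrix (Fin t) (Fin t) ℂ)
    (T : Matrix (Fin s) (Fin t) ℂ) : ∑ n : N, σ n⁻¹ * T * τ n = 0 := by
  set A := ∑ n : N, σ n⁻¹ * T * τ n with hA
  have hcomm : ∀ m, σ m * A = A * τ m := by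
    intro m
    rw [hA, Matrix.mul_sum, Matrix.sum_mul]
    apply Fintype.sum_equiv (Equiv.mulRight m⁻¹)
    intro n
    have h1 : (Equiv.mulRight m⁻¹) n = n * m⁻¹ := rfl
    rw [h1, mul_inv_rev, inv_inv, map_mul σ, map_mul τ]
    have h2 : τ m⁻¹ * τ m = 1 := by
      rw [← map_mul, inv_mul_cancel, map_one]
    simp only [Matrix.mul_assoc]
    rw [h2, Matrix.mul_one]
  have hinv : ∀ g : N, ∀ v ∈ LinearMap.range A.mulVecLin,
      Matrix.mulVec (σ g) v ∈ LinearMap.range A.mulVecLin := by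
    rintro g v ⟨x, rfl⟩
    refine ⟨Matrix.mulVec (τ g) x, ?_⟩
    rw [Matrix.mulVecLin_apply, Matrix.mulVecLin_apply, Matrix.mulVec_mulVec, Matrix.mulVec_mulVec,
      hcomm]
  rcases hσ _ hinv with h | h
  · rw [LinearMap.range_eq_bot] at h
    apply Matrix.ext
    intro i j
    have h2 := LinearMap.congr_fun h (Pi.single j 1)
    rw [Matrix.mulVecLin_apply, Matrix.mulVec_single_one] at h2
    exact congrFun h2 i
  · exfalso
    have h1 := LinearMap.finrank_range_le A.mulVecLin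
    rw [h, finrank_top, Module.finrank_fin_fun, Module.finrank_fin_fun] at h1
    omega

theorem degree_le_of_coeff_mem {N : Type*} [Group N] [Finite N] {s v : ℕ} (hs : 0 < s)
    (σ : N →* Matrix (Fin s) (Fin s) ℂ) (hσ : Irr σ)
    (h : ∀ i j : Fin s, (fun n => σ n i j) ∈ Submodule.span ℂ {f : N → ℂ | ∃ t : ℕ, t ≤ v ∧
      ∃ τ : N →* Matrix (Fin t) (Fin t) ℂ, ∃ k l : Fin t, f = fun n => τ n k l}) : s ≤ v := by
  by_contra hv
  have hvs : v < s := not_le.1 hv
  let _ : Fintype N := Fintype.ofFinite N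
  have key : ∀ (i j : Fin s) (f : N → ℂ),
      f ∈ Submodule.span ℂ {f : N → ℂ | ∃ t : ℕ, t ≤ v ∧
        ∃ τ : N →* Matrix (Fin t) (Fin t) ℂ, ∃ k l : Fin t, f = fun n => τ n k l} →
      ∑ n : N, σ n⁻¹ i j * f n = 0 := by
    intro i j f hf
    induction hf using Submodule.span_induction with
    | mem x hx =>
      obtain ⟨t, ht, τ, k, l, rfl⟩ := hx
      have h1 := g5_schur (lt_of_le_of_lt ht hvs) σ hσ τ (Matrix.single j k 1)
      have h2 := congrFun (congrFun h1 i) l
      rw [Matrix.sum_apply] at h2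
      rw [← show (0 : Matrix (Fin s) (Fin t) ℂ) i l = 0 from rfl, ← h2]
      apply Finset.sum_congr rfl
      intro n _
      rw [Matrix.mul_apply, Finset.sum_eq_single k]
      · rw [Matrix.mul_single_apply_same, mul_one]
      · intro b _ hb
        rw [Matrix.mul_single_apply_of_ne, zero_mul]
        exact hb
      · intro hk
        exact absurd (Finset.mem_univ k) hk
    | zero => simp
    | add x y _ _ hx hy =>
      have h3 : ∑ n : N, σ n⁻¹ i j * (x + y) n = ∑ n : N, σ n⁻¹ i j * x n +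
          ∑ n : N, σ n⁻¹ i j * y n := by
        rw [← Finset.sum_add_distrib]
        apply Finset.sum_congr rfl
        intro n _
        rw [Pi.add_apply, mul_add]
      rw [h3, hx, hy, add_zero]
    | smul c x _ hx =>
      have h3 : ∑ n : N, σ n⁻¹ i j * (c • x) n = c * ∑ n : N, σ n⁻¹ i j * x n := by
        rw [Finset.mul_sum]
        apply Finset.sum_congr rfl
        intro n _
        rw [Pi.smul_apply, smul_eq_mul]
        ring
      rw [h3, hx, mul_zero]
  have h0 : ∀ j : Fin s, ∑ n : N, σ n⁻¹ ⟨0, hs⟩ j * σ n j ⟨0, hs⟩ = 0 := by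
    intro j
    exact key ⟨0, hs⟩ j (fun n => σ n j ⟨0, hs⟩) (h j ⟨0, hs⟩)
  have h1 : ∑ j : Fin s, ∑ n : N, σ n⁻¹ ⟨0, hs⟩ j * σ n j ⟨0, hs⟩ = 0 := by
    apply Finset.sum_eq_zero
    intro j _
    exact h0 j
  rw [Finset.sum_comm] at h1
  have h2 : ∀ n : N, ∑ j : Fin s, σ n⁻¹ ⟨0, hs⟩ j * σ n j ⟨0, hs⟩ = 1 := by
    intro n
    rw [← Matrix.mul_apply, ← map_mul, inv_mul_cancel, map_one, Matrix.one_apply_eq]
  rw [Finset.sum_congr rfl (fun n _ => h2 n), Finset.sum_const, nsmul_eq_mul, mul_one] at h1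
  have h3 : (Finset.univ : Finset N).card = 0 := by exact_mod_cast h1
  have h4 : 0 < (Finset.univ : Finset N).card := Finset.card_pos.2 ⟨1, Finset.mem_univ 1⟩
  omega

end Pool.Agent.DLF
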