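import Pool.Agent.DLF.G2
import Pool.Agent.DLF.G4
import Pool.Agent.DLF.G5

/-!
# [DLF-G6] the gap lemma
-/

set_option autoImplicit false

namespace Pool.Agent.DLF

/-- If no element of `cd(G|N)` lies in `(v, v * D]`, then every irreducible representation of `N`
that is trivial on the common kernel (in `N`) of the irreducible representations of `G` of degree
at most `D` has degree at most `v`. -/
theorem gap {G : Type*} [Group G] [Finite G] (N : Subgroup G) {D v : ℕ} (hv : 1 ≤ v)
    (hgap : ∀ d ∈ cdOver G N, ¬ (v < d ∧ d ≤ v * D)) {s : ℕ} (hs : 0 < s)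
    (σ : ↥N →* Matrix (Fin s) (Fin s) ℂ) (hσ : Irr σ)
    (hker : ∀ x : ↥N, (∀ (d : ℕ) (ρ : G →* Matrix (Fin d) (Fin d) ℂ), Irr ρ → d ≤ D →
      ρ (x : G) = 1) → σ x = 1) : s ≤ v := by
  classical
  -- restriction of functions
  let res : (G → ℂ) →ₗ[ℂ] (↥N → ℂ) := LinearMap.funLeft ℂ ℂ (fun x : ↥N => (x : G))
  have hres : ∀ (f : G → ℂ) (x : ↥N), res f x = f (x : G) := fun f x => rfl
  let B : ℕ → Submodule ℂ (↥N → ℂ) := fun n => (coeffSpan G n).map res
  -- the gap
  have hB1 : ∀ f ∈ B (v * D), f ∈ B v := by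
    rintro f ⟨F, hF, rfl⟩
    have hF' : F ∈ coeffSpan G (v * D) := hF
    unfold coeffSpan at hF'
    refine Submodule.span_induction (p := fun F _ => res F ∈ B v) ?_ ?_ ?_ ?_ hF'
    · rintro F ⟨d, hd, hdn, ρ, hρ, i, j, rfl⟩
      by_cases hdv : d ≤ v
      · exact ⟨_, Submodule.subset_span ⟨d, hd, hdv, ρ, hρ, i, j, rfl⟩, rfl⟩
      · have htriv : ∀ x ∈ N, ρ x = 1 := by
          intro x hx
          by_contra hne
          exact hgap d ⟨hd, ρ, hρ, x, hx, hne⟩ ⟨by omega, hdn⟩
        have : res (fun g => ρ g i j) = res (fun _ => (1 : Matrix (Fin d) (Fin d) ℂ) i j) := by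
          funext x
          rw [hres, hres, htriv x x.2]
        rw [this]
        exact ⟨_, const_mem_coeffSpan G hv _, rfl⟩
    · rw [map_zero]; exact Submodule.zero_mem _
    · intro a b _ _ ha hb
      rw [map_add]; exact Submodule.add_mem _ ha hb
    · intro c a _ ha
      rw [map_smul]; exact Submodule.smul_mem _ _ ha
  have hBmul : ∀ f ∈ B v, ∀ h ∈ B D, f * h ∈ B v := by
    rintro f ⟨F, hF, rfl⟩ h ⟨H, hH, rfl⟩
    apply hB1
    exact ⟨F * H, mul_mem_coeffSpan hF hH, rfl⟩
  have hBone : (1 : ↥N → ℂ) ∈ B v := ⟨fun _ => 1, const_mem_coeffSpan G hv 1, rfl⟩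
  -- the subalgebra generated by `B D`
  let S : Subalgebra ℂ (↥N → ℂ) := Algebra.adjoin ℂ (B D : Set (↥N → ℂ))
  have hS : ∀ f ∈ S, f ∈ B v := by
    have key : ∀ f ∈ S, ∀ g ∈ B v, g * f ∈ B v := by
      intro f hf
      refine Algebra.adjoin_induction (p := fun f _ => ∀ g ∈ B v, g * f ∈ B v) ?_ ?_ ?_ ?_ hf
      · intro x hx g hg
        exact hBmul g hg x hx
      · intro r g hg
        have : g * algebraMap ℂ (↥N → ℂ) r = r • g := by
          rw [Algebra.algebraMap_eq_smul_one, mul_smul_comm, mul_one]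
        rw [this]
        exact Submodule.smul_mem _ _ hg
      · intro x y _ _ hx hy g hg
        rw [mul_add]
        exact Submodule.add_mem _ (hx g hg) (hy g hg)
      · intro x y _ _ hx hy g hg
        rw [← mul_assoc]
        exact hy _ (hx g hg)
    intro f hf
    have := key f hf 1 hBone
    rwa [one_mul] at this
  apply degree_le_of_coeff_mem hs σ hσ
  intro i j
  have h1 : (fun n => σ n i j) ∈ S := by
    apply mem_of_separates
    intro x y hxy
    have h2 : σ (x * y⁻¹) = 1 := by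
      apply hker
      intro d ρ hρ hdD
      rcases Nat.eq_zero_or_pos d with rfl | hd
      · ext i; exact i.elim0
      have h3 : ρ (x : G) = ρ (y : G) := by
        ext k l
        have h4 : (fun n : ↥N => ρ (n : G) k l) ∈ S := by
          apply Algebra.subset_adjoin
          exact ⟨fun g => ρ g k l, Submodule.subset_span ⟨d, hd, hdD, ρ, hρ, k, l, rfl⟩, rfl⟩
        exact hxy _ h4
      rw [Subgroup.coe_mul, map_mul, h3, ← map_mul]
      simp
    have h5 : σ x = σ y := by
      have : σ x = σ (x * y⁻¹) * σ y := by rw [← map_mul]; simp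
      rw [this, h2, one_mul]
    show σ x i j = σ y i j
    rw [h5]
  obtain ⟨F, hF, hFe⟩ := hS _ h1
  rw [← hFe]
  have hF' : F ∈ coeffSpan G v := hF
  unfold coeffSpan at hF'
  refine Submodule.span_induction (p := fun F _ => res F ∈ Submodule.span ℂ
    {f : ↥N → ℂ | ∃ t : ℕ, t ≤ v ∧
      ∃ τ : ↥N →* Matrix (Fin t) (Fin t) ℂ, ∃ k l : Fin t, f = fun n => τ n k l}) ?_ ?_ ?_ ?_ hF'
  · rintro F ⟨d, hd, hdn, ρ, hρ, i, j, rfl⟩
    apply Submodule.subset_span
    exact ⟨d, hdn, ρ.comp N.subtype, i, j, rfl⟩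
  · rw [map_zero]; exact Submodule.zero_mem _
  · intro a b _ _ ha hb
    rw [map_add]; exact Submodule.add_mem _ ha hb
  · intro c a _ ha
    rw [map_smul]; exact Submodule.smul_mem _ _ ha

end Pool.Agent.DLF
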