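import Pool.Agent.DLF.Defs

/-!
# [DLF-G7] pigeonhole and finiteness of `cd(G|N)`

(a) `cdOver G N` is finite for a finite group: an irreducible `ρ` of degree `d > 0` has
`d ≤ Nat.card G`: for `v ≠ 0` the span of the finitely many vectors `(ρ g).mulVec v` is invariant and
not `⊥`, so it is everything; so `d = finrank ≤ Nat.card G`.
(b) Let `S` be a finite set of natural numbers, `D ≥ 2` and `c = {d ∈ S | D < d}.ncard`. Among the
`c + 1` pairwise disjoint intervals `(D ^ i, D ^ (i + 1)]`, `i = 1, ..., c + 1` (all above `D`), one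
contains no element of `S`. (If each contained an element, we would get an injection from a set with
`c + 1` elements into `{d ∈ S | D < d}`; injectivity because `D ^ (i+1) ≤ D ^ j` for `i < j`.)
-/

set_option autoImplicit false

namespace Pool.Agent.DLF

theorem cdOver_finite (G : Type*) [Group G] [Finite G] (N : Subgroup G) : (cdOver G N).Finite := by
  refine (Set.finite_Iic (Nat.card G)).subset ?_
  rintro d ⟨hd, ρ, hρ, -⟩
  have : Fintype G := Fintype.ofFinite G
  set v : Fin d → ℂ := Pi.single ⟨0, hd⟩ 1 with hv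
  have hv0 : v ≠ 0 := by
    intro h
    have h1 := congrFun h ⟨0, hd⟩
    rw [hv, Pi.single_eq_same] at h1
    exact one_ne_zero h1
  set b : G → (Fin d → ℂ) := fun g => Matrix.mulVec (ρ g) v with hb
  have hmem : v ∈ Submodule.span ℂ (Set.range b) := by
    refine Submodule.subset_span ⟨1, ?_⟩
    rw [hb]
    simp only [map_one, Matrix.one_mulVec]
  have hinv : ∀ g : G, ∀ w ∈ Submodule.span ℂ (Set.range b), Matrix.mulVec (ρ g) w ∈ Submodule.span ℂ (Set.range b) := by
    intro g w hw
    induction hw using Submodule.span_induction with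
    | mem x hx =>
      obtain ⟨h, rfl⟩ := hx
      refine Submodule.subset_span ⟨g * h, ?_⟩
      rw [hb]
      simp only [map_mul, Matrix.mulVec_mulVec]
    | zero => rw [Matrix.mulVec_zero]; exact Submodule.zero_mem _
    | add x y _ _ hx hy => rw [Matrix.mulVec_add]; exact Submodule.add_mem _ hx hy
    | smul c x _ hx => rw [Matrix.mulVec_smul]; exact Submodule.smul_mem _ _ hx
  have htop : Submodule.span ℂ (Set.range b) = ⊤ := by
    rcases hρ _ hinv with h | h
    · rw [h, Submodule.mem_bot] at hmem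
      exact absurd hmem hv0
    · exact h
  have h1 : (Set.range b).finrank ℂ ≤ Fintype.card G := finrank_range_le_card b
  rw [Set.finrank, htop, finrank_top, Module.finrank_fin_fun] at h1
  rw [Set.mem_Iic, Nat.card_eq_fintype_card]
  exact h1

theorem exists_gap (S : Set ℕ) (hS : S.Finite) (D : ℕ) (hD : 2 ≤ D) :
    ∃ i : ℕ, 1 ≤ i ∧ i ≤ {d | d ∈ S ∧ D < d}.ncard + 1 ∧
      ∀ d ∈ S, ¬ (D ^ i < d ∧ d ≤ D ^ i * D) := by
  by_contra hcon
  push Not at hcon
  set T : Set ℕ := {d | d ∈ S ∧ D < d} with hT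
  have hTf : T.Finite := hS.subset fun d hd => hd.1
  choose! f hf1 hf2 hf3 using hcon
  have hD1 : 1 ≤ D := by omega
  have hmaps : ∀ i ∈ (Finset.Icc 1 (T.ncard + 1) : Finset ℕ), f i ∈ hTf.toFinset := by
    intro i hi
    rw [Finset.mem_Icc] at hi
    rw [Set.Finite.mem_toFinset]
    refine ⟨hf1 i hi.1 hi.2, ?_⟩
    calc D = D ^ 1 := (pow_one D).symm
      _ ≤ D ^ i := Nat.pow_le_pow_right hD1 hi.1
      _ < f i := hf2 i hi.1 hi.2
  have hlt : ∀ i j, 1 ≤ i → i < j → j ≤ T.ncard + 1 → f i < f j := by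
    intro i j hi hij hj
    calc f i ≤ D ^ i * D := hf3 i hi (by omega)
      _ = D ^ (i + 1) := (pow_succ D i).symm
      _ ≤ D ^ j := Nat.pow_le_pow_right hD1 hij
      _ < f j := hf2 j (by omega) hj
  have hinj : Set.InjOn f (Finset.Icc 1 (T.ncard + 1) : Finset ℕ) := by
    intro i hi j hj hij
    rw [Finset.mem_coe, Finset.mem_Icc] at hi hj
    rcases lt_trichotomy i j with h | h | h
    · exact absurd hij (hlt i j hi.1 h hj.2).ne
    · exact h
    · exact absurd hij (hlt j i hj.1 h hi.2).ne'
  have h1 := Finset.card_le_card_of_injOn f hmaps hinj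
  rw [Nat.card_Icc, ← Set.ncard_eq_toFinset_card T hTf] at h1
  omega

end Pool.Agent.DLF
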