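import Pool.Agent.DLF.D3
import Pool.Agent.DLF.G6
import Pool.Agent.DLF.G7

/-!
# [DLF] assembly
-/

set_option autoImplicit false

namespace Pool.Agent.DLF

/-- the common kernel, in `N`, of the irreducible representations of `G` of degree at most `D` -/
def lowKer {G : Type*} [Group G] (N : Subgroup G) (D : ℕ) : Subgroup ↥N where
  carrier := {x | ∀ (d : ℕ) (ρ : G →* Matrix (Fin d) (Fin d) ℂ), Irr ρ → d ≤ D →
    ρ (x : G) = 1}
  one_mem' := by
    intro d ρ _ _
    simp
  mul_mem' := by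
    intro a b ha hb d ρ hρ hd
    rw [Subgroup.coe_mul, map_mul, ha d ρ hρ hd, hb d ρ hρ hd, one_mul]
  inv_mem' := by
    intro a ha d ρ hρ hd
    have h1 := ha d ρ hρ hd
    have h2 : ρ ((a : G)⁻¹) * ρ (a : G) = 1 := by rw [← map_mul]; simp
    rw [h1, mul_one] at h2
    simpa using h2

instance {G : Type*} [Group G] (N : Subgroup G) (D : ℕ) : (lowKer N D).Normal where
  conj_mem := by
    intro a ha g d ρ hρ hd
    have h1 := ha d ρ hρ hd
    rw [Subgroup.coe_mul, Subgroup.coe_mul, map_mul, map_mul, h1, mul_one, ← map_mul]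
    simp

/-- The main theorem. -/
theorem main {G : Type*} [Group G] [Finite G] (N : Subgroup G) (hN : Group.IsNilpotent ↥N)
    (q m : ℕ) (hq : 2 ≤ q) (hm : 1 ≤ m)
    (hp : ∀ p : ℕ, p.Prime → p ∣ Nat.card ↥N → q ≤ p) {x : ↥N}
    (hx : x ∈ derivedSeries ↥N
      (5 + Nat.log 2 (m * ({d | d ∈ cdOver G N ∧ q ^ m < d}.ncard + 1))))
    {d : ℕ} (ρ : G →* Matrix (Fin d) (Fin d) ℂ) (hρ : Irr ρ) (hd : d ≤ q ^ m) :
    ρ (x : G) = 1 := by
  classical
  set c := {d | d ∈ cdOver G N ∧ q ^ m < d}.ncard with hc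
  have hD : 2 ≤ q ^ m := hq.trans (Nat.le_self_pow (by omega) q)
  obtain ⟨i, hi1, hic, hgap⟩ := exists_gap (cdOver G N) (cdOver_finite G N) (q ^ m) hD
  have hpow : (q ^ m) ^ i ≤ q ^ (m * (c + 1)) := by
    rw [← pow_mul]
    exact Nat.pow_le_pow_right (by omega) (Nat.mul_le_mul_left _ hic)
  let M := lowKer N (q ^ m)
  have hQ : derivedSeries (↥N ⧸ M) (5 + Nat.log 2 (m * (c + 1))) = ⊥ := by
    apply derivedSeries_eq_bot_of_degree_le q (m * (c + 1)) hq
    · intro p hp1 hp2
      exact hp p hp1 (hp2.trans (Subgroup.card_quotient_dvd_card M))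
    · intro s σ hs hσ
      refine le_trans ?_ hpow
      refine gap N (Nat.one_le_pow _ _ (by omega)) hgap hs (σ.comp (QuotientGroup.mk' M)) ?_ ?_
      · intro W hW
        apply hσ W
        intro g v hv
        obtain ⟨y, rfl⟩ := QuotientGroup.mk'_surjective M g
        exact hW y v hv
      · intro y hy
        have hyM : y ∈ M := hy
        have : (QuotientGroup.mk' M) y = 1 := by
          rw [QuotientGroup.mk'_apply, QuotientGroup.eq_one_iff]
          exact hyM
        rw [MonoidHom.comp_apply, this, map_one]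
  have h5 : derivedSeries ↥N (5 + Nat.log 2 (m * (c + 1))) ≤ M := by
    have h6 := map_derivedSeries_le_derivedSeries (QuotientGroup.mk' M)
      (5 + Nat.log 2 (m * (c + 1)))
    rw [hQ] at h6
    have h7 := Subgroup.map_le_iff_le_comap.1 h6
    rw [MonoidHom.comap_bot, QuotientGroup.ker_mk'] at h7
    exact h7
  exact h5 hx d ρ hρ hd

end Pool.Agent.DLF
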