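import Pool.Agent.DLF.Defs

/-!
# [DLF-G1] coefficients of an arbitrary representation (Maschke)

`G` finite, `ρ : G →* Module.End ℂ V`, `V` finite-dimensional. Every coefficient
`g ↦ φ (ρ g v)` lies in `coeffSpan G (finrank ℂ V)`.

Proof. Strong induction on `n = finrank ℂ V` (quantify over `V : Type u` with `finrank = n`).
* `n = 0`: `V` is trivial, the function is `0`.
* `n > 0`, and every `ρ`-invariant subspace of `V` is `⊥` or `⊤`: take a basis
  `b : Basis (Fin n) ℂ V` (`Module.finBasis`, or `Module.finBasisOfFinrankEq`); the matrix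
  representation `ρ' g = LinearMap.toMatrix b b (ρ g)` (a monoid homomorphism:
  `LinearMap.toMatrixAlgEquiv b`) is `Irr` of degree `n > 0` (an invariant subspace `W` of
  `Fin n → ℂ` is transported to `V` by `b.equivFun`:
  `b.equivFun (ρ g v) = (ρ' g).mulVec (b.equivFun v)`, `LinearMap.toMatrix_mulVec_repr`), and
  `φ (ρ g v) = ∑ i, ∑ j, φ (b i) * (ρ' g i j) * (b.repr v j)`, a linear combination of
  coefficients of `ρ'`.
* otherwise there is an invariant subspace `W`, `W ≠ ⊥`, `W ≠ ⊤`. It has an invariant complement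
  `U` (Maschke: `MonoidAlgebra.Submodule.exists_isCompl` via `Representation.asModule`, or average
  a linear projection `π : V → W` directly: `π' = (1/|G|) ∑ g, ρ g⁻¹ ∘ π ∘ ρ g` restricted, its
  kernel is invariant). Write `v = w + u`; then
  `φ (ρ g v) = (φ|_W) (ρ_W g w) + (φ|_U) (ρ_U g u)` and `finrank W, finrank U < n`, so both
  functions are in `coeffSpan G n` by induction and `coeffSpan_mono`.
It is allowed to use the separate lemma `exists_invariant_compl` stated below (prove it too).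
-/

set_option autoImplicit false

namespace Pool.Agent.DLF

open Module

/-- Maschke: invariant complements. -/
theorem exists_invariant_compl {G V : Type*} [Group G] [Finite G] [AddCommGroup V] [Module ℂ V]
    (ρ : G →* Module.End ℂ V) (W : Submodule ℂ V) (hW : ∀ g : G, ∀ v ∈ W, ρ g v ∈ W) :
    ∃ U : Submodule ℂ V, (∀ g : G, ∀ v ∈ U, ρ g v ∈ U) ∧ IsCompl W U := by
  classical
  have : Fintype G := Fintype.ofFinite G
  obtain ⟨π, hπ⟩ := LinearMap.exists_leftInverse_of_injective W.subtype W.ker_subtype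
  have hπ' : ∀ w ∈ W, W.subtype (π w) = w := by
    intro w hw
    have h1 : π (W.subtype ⟨w, hw⟩) = ⟨w, hw⟩ := by
      have h2 := LinearMap.congr_fun hπ ⟨w, hw⟩
      exact h2
    have h3 : π w = ⟨w, hw⟩ := h1
    rw [h3]
    rfl
  let p : V →ₗ[ℂ] V := ((Fintype.card G : ℂ)⁻¹) • ∑ g : G, (ρ g⁻¹) ∘ₗ (W.subtype ∘ₗ π) ∘ₗ (ρ g)
  have hp : ∀ v, p v = ((Fintype.card G : ℂ)⁻¹) • ∑ g : G, ρ g⁻¹ (W.subtype (π (ρ g v))) := by
    intro v
    show (((Fintype.card G : ℂ)⁻¹) • ∑ g : G, (ρ g⁻¹) ∘ₗ (W.subtype ∘ₗ π) ∘ₗ (ρ g)) v = _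
    rw [LinearMap.smul_apply, LinearMap.sum_apply]
    rfl
  have hmem : ∀ v, p v ∈ W := by
    intro v
    rw [hp]
    refine W.smul_mem _ (W.sum_mem fun g _ => hW _ _ ?_)
    exact (π (ρ g v)).2
  have hinv : ∀ g : G, ∀ v, ρ g⁻¹ (ρ g v) = v := by
    intro g v
    have h1 : ρ g⁻¹ * ρ g = 1 := by rw [← map_mul, inv_mul_cancel, map_one]
    have h2 := LinearMap.congr_fun h1 v
    exact h2
  have hcard : (Fintype.card G : ℂ) ≠ 0 := Nat.cast_ne_zero.2 Fintype.card_ne_zero
  have hid : ∀ w ∈ W, p w = w := by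
    intro w hw
    rw [hp]
    have h1 : ∀ g : G, ρ g⁻¹ (W.subtype (π (ρ g w))) = w := by
      intro g
      rw [hπ' _ (hW g w hw), hinv]
    rw [Finset.sum_congr rfl fun g _ => h1 g, Finset.sum_const, Finset.card_univ,
      ← Nat.cast_smul_eq_nsmul ℂ, smul_smul, inv_mul_cancel₀ hcard, one_smul]
  have hcomm : ∀ h : G, ∀ v, p (ρ h v) = ρ h (p v) := by
    intro h v
    rw [hp, hp, map_smul, map_sum]
    congr 1
    refine Fintype.sum_equiv (Equiv.mulRight h) _ _ fun g => ?_
    have h1 : ρ g (ρ h v) = ρ (g * h) v := by rw [map_mul]; rfl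
    have h2 : ∀ x, ρ g⁻¹ x = ρ h (ρ (g * h)⁻¹ x) := by
      intro x
      have h3 : ρ g⁻¹ = ρ h * ρ (g * h)⁻¹ := by
        rw [← map_mul, mul_inv_rev, mul_inv_cancel_left]
      rw [h3]
      rfl
    rw [h1, h2]
    rfl
  refine ⟨LinearMap.ker p, ?_, ?_⟩
  · intro g v hv
    rw [LinearMap.mem_ker] at hv ⊢
    rw [hcomm, hv, map_zero]
  · constructor
    · rw [Submodule.disjoint_def]
      intro x hx hx2
      rw [LinearMap.mem_ker, hid x hx] at hx2
      exact hx2
    · rw [codisjoint_iff, Submodule.eq_top_iff']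
      intro x
      rw [Submodule.mem_sup]
      refine ⟨p x, hmem x, x - p x, ?_, by abel⟩
      rw [LinearMap.mem_ker, map_sub, hid _ (hmem x), sub_self]

theorem g1_irr {G V : Type*} [Group G] [AddCommGroup V] [Module ℂ V]
    [FiniteDimensional ℂ V] (ρ : G →* Module.End ℂ V) (φ : V →ₗ[ℂ] ℂ) (v : V)
    (h0 : 0 < finrank ℂ V)
    (hirr : ∀ W : Submodule ℂ V, (∀ g : G, ∀ v ∈ W, ρ g v ∈ W) → W = ⊥ ∨ W = ⊤) :
    (fun g => φ (ρ g v)) ∈ coeffSpan G (finrank ℂ V) := by
  classical
  let b := Module.finBasis ℂ V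
  let ρ' : G →* Matrix (Fin (finrank ℂ V)) (Fin (finrank ℂ V)) ℂ :=
    ((LinearMap.toMatrixAlgEquiv b : _ ≃ₐ[ℂ] _) : Module.End ℂ V →* _).comp ρ
  have hρ' : ∀ g, ρ' g = LinearMap.toMatrix b b (ρ g) := fun g => rfl
  have hvec : ∀ g x, Matrix.mulVec (ρ' g) (b.equivFun x) = b.equivFun (ρ g x) := by
    intro g x
    rw [hρ']
    exact LinearMap.toMatrix_mulVec_repr b b (ρ g) x
  have hI : Irr ρ' := by
    intro W hW
    have h1 := hirr (W.comap (b.equivFun : V →ₗ[ℂ] _)) (by
      intro g x hx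
      rw [Submodule.mem_comap] at hx ⊢
      have h2 := hW g _ hx
      have h3 : Matrix.mulVec (ρ' g) ((b.equivFun : V →ₗ[ℂ] _) x) =
        (b.equivFun : V →ₗ[ℂ] _) (ρ g x) := hvec g x
      rw [h3] at h2
      exact h2)
    have h4 : (W.comap (b.equivFun : V →ₗ[ℂ] _)).map (b.equivFun : V →ₗ[ℂ] _) = W :=
      Submodule.map_comap_eq_of_surjective b.equivFun.surjective W
    rcases h1 with h1 | h1
    · left
      rw [← h4, h1, Submodule.map_bot]
    · right
      rw [← h4, h1, Submodule.map_top, LinearMap.range_eq_top]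
      exact b.equivFun.surjective
  have hfun : (fun g => φ (ρ g v)) =
      ∑ i, ∑ j, (φ (b i) * b.equivFun v j) • (fun g => ρ' g i j) := by
    funext g
    rw [Finset.sum_apply]
    have h5 : ρ g v = ∑ i, b.equivFun (ρ g v) i • b i := (b.sum_equivFun (ρ g v)).symm
    rw [h5, map_sum]
    refine Finset.sum_congr rfl fun i _ => ?_
    rw [Finset.sum_apply, map_smul, ← hvec, smul_eq_mul]
    show (∑ j, ρ' g i j * b.equivFun v j) * φ (b i) = _
    rw [Finset.sum_mul]
    refine Finset.sum_congr rfl fun j _ => ?_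
    show _ = (φ (b i) * b.equivFun v j) * ρ' g i j
    ring
  rw [hfun]
  refine Submodule.sum_mem _ fun i _ => Submodule.sum_mem _ fun j _ => Submodule.smul_mem _ _ ?_
  exact Submodule.subset_span ⟨_, h0, le_rfl, ρ', hI, i, j, rfl⟩

/-- the restriction to an invariant subspace -/
def g1_res {G V : Type*} [Group G] [AddCommGroup V] [Module ℂ V]
    (ρ : G →* Module.End ℂ V) (W : Submodule ℂ V) (hW : ∀ g : G, ∀ v ∈ W, ρ g v ∈ W) :
    G →* Module.End ℂ W where
  toFun g := (ρ g).restrict (hW g)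
  map_one' := by
    ext v
    rw [LinearMap.coe_restrict_apply, map_one]
    rfl
  map_mul' g h := by
    ext v
    rw [LinearMap.coe_restrict_apply, map_mul]
    rfl

theorem coeff_mem {G V : Type*} [Group G] [Finite G] [AddCommGroup V] [Module ℂ V]
    [FiniteDimensional ℂ V] (ρ : G →* Module.End ℂ V) (φ : V →ₗ[ℂ] ℂ) (v : V) :
    (fun g => φ (ρ g v)) ∈ coeffSpan G (finrank ℂ V) := by
  generalize hn : finrank ℂ V = n
  induction n using Nat.strong_induction_on generalizing V with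
  | _ n ih =>
    by_cases hirr : ∀ W : Submodule ℂ V, (∀ g : G, ∀ v ∈ W, ρ g v ∈ W) → W = ⊥ ∨ W = ⊤
    · rcases Nat.eq_zero_or_pos n with h0 | h0
      · subst h0
        have hs : Subsingleton V := Module.finrank_zero_iff.1 hn
        have h1 : (fun g => φ (ρ g v)) = 0 := by
          funext g
          rw [Subsingleton.elim (ρ g v) 0, map_zero]
          rfl
        rw [h1]
        exact Submodule.zero_mem _
      · rw [← hn]
        exact g1_irr ρ φ v (by rw [hn]; exact h0) hirr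
    · push Not at hirr
      obtain ⟨W, hW, hb, ht⟩ := hirr
      obtain ⟨U, hU, hWU⟩ := exists_invariant_compl ρ W hW
      have hv : v ∈ W ⊔ U := by
        rw [hWU.sup_eq_top]
        trivial
      obtain ⟨w, hw, u, hu, rfl⟩ := Submodule.mem_sup.1 hv
      have hUt : U ≠ ⊤ := by
        rintro rfl
        exact hb (by simpa using hWU.inf_eq_bot)
      have h1 := ih (finrank ℂ W) (by rw [← hn]; exact Submodule.finrank_lt ht) (g1_res ρ W hW)
        (φ ∘ₗ W.subtype) ⟨w, hw⟩ rfl
      have h2 := ih (finrank ℂ U) (by rw [← hn]; exact Submodule.finrank_lt hUt) (g1_res ρ U hU)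
        (φ ∘ₗ U.subtype) ⟨u, hu⟩ rfl
      have h3 : (fun g => φ (ρ g (w + u))) =
          (fun g => (φ ∘ₗ W.subtype) (g1_res ρ W hW g ⟨w, hw⟩)) +
            (fun g => (φ ∘ₗ U.subtype) (g1_res ρ U hU g ⟨u, hu⟩)) := by
        funext g
        rw [map_add, map_add]
        rfl
      rw [h3]
      refine Submodule.add_mem _ ?_ ?_
      · exact coeffSpan_mono G (by rw [← hn]; exact Submodule.finrank_le W) h1
      · exact coeffSpan_mono G (by rw [← hn]; exact Submodule.finrank_le U) h2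

end Pool.Agent.DLF
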