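import Pool.Agent.DLF.G1

/-!
# [DLF-G2] products of coefficients

`coeffSpan G a * coeffSpan G b ⊆ coeffSpan G (a * b)`.

Proof. By bilinearity (`Submodule.span_induction` twice, or `Submodule.mul_le`-like) it is enough to
treat `f = fun g => ρ g i j` (`ρ` of degree `d ≤ a`) and `h = fun g => τ g k l` (`τ` of degree
`e ≤ b`). On `V = (Fin d × Fin e → ℂ)` take the representation
`g ↦ Matrix.toLin' (Matrix.kroneckerMap (· * ·) (ρ g) (τ g))` (a monoid homomorphism:
`Matrix.mul_kronecker_mul`, `Matrix.one_kronecker_one`), the functional `LinearMap.proj (i, k)` and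
the vector `Pi.single (j, l) 1`: the coefficient is `ρ g i j * τ g k l`. Apply `coeff_mem` with
`finrank V = d * e ≤ a * b` and `coeffSpan_mono`.
-/

set_option autoImplicit false

namespace Pool.Agent.DLF

theorem g2_basic {G : Type*} [Group G] [Finite G] {a b d e : ℕ} (hd : d ≤ a) (he : e ≤ b)
    (ρ : G →* Matrix (Fin d) (Fin d) ℂ) (τ : G →* Matrix (Fin e) (Fin e) ℂ)
    (i j : Fin d) (k l : Fin e) :
    ((fun g => ρ g i j) * (fun g => τ g k l)) ∈ coeffSpan G (a * b) := by
  classical
  let R : G →* Module.End ℂ (Fin d × Fin e → ℂ) :=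
    { toFun := fun g => Matrix.toLin' (Matrix.kroneckerMap (· * ·) (ρ g) (τ g))
      map_one' := by
        rw [map_one, map_one, Matrix.one_kronecker_one, Matrix.toLin'_one]
        rfl
      map_mul' := by
        intro g h
        rw [map_mul, map_mul, Matrix.mul_kronecker_mul, Matrix.toLin'_mul]
        rfl }
  have h1 := coeff_mem R (LinearMap.proj (i, k)) (Pi.single (j, l) 1)
  have h2 : (fun g => (LinearMap.proj (i, k) : (Fin d × Fin e → ℂ) →ₗ[ℂ] ℂ)
      (R g (Pi.single (j, l) 1))) = (fun g => ρ g i j) * (fun g => τ g k l) := by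
    funext g
    show (Matrix.toLin' (Matrix.kroneckerMap (· * ·) (ρ g) (τ g)) (Pi.single (j, l) 1)) (i, k) = _
    rw [Matrix.toLin'_apply, Matrix.mulVec_single_one]
    rfl
  rw [h2] at h1
  refine coeffSpan_mono G ?_ h1
  rw [Module.finrank_fintype_fun_eq_card, Fintype.card_prod, Fintype.card_fin, Fintype.card_fin]
  exact Nat.mul_le_mul hd he

theorem mul_mem_coeffSpan {G : Type*} [Group G] [Finite G] {a b : ℕ} {f h : G → ℂ}
    (hf : f ∈ coeffSpan G a) (hh : h ∈ coeffSpan G b) : f * h ∈ coeffSpan G (a * b) := by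
  have h1 : coeffSpan G a ≤ (coeffSpan G (a * b)).comap (LinearMap.mulRight ℂ h) := by
    unfold coeffSpan
    rw [Submodule.span_le]
    rintro f ⟨d, hd0, hd, ρ, hρ, i, j, rfl⟩
    have h2 : coeffSpan G b ≤ (coeffSpan G (a * b)).comap
        (LinearMap.mulLeft ℂ (fun g => ρ g i j)) := by
      unfold coeffSpan
      rw [Submodule.span_le]
      rintro h ⟨e, he0, he, τ, hτ, k, l, rfl⟩
      exact g2_basic hd he ρ τ i j k l
    exact h2 hh
  exact h1 hf

end Pool.Agent.DLF
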