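import Pool.Agent.DLF.G1

/-!
# [DLF-H1] weight spaces of a normal subgroup acting by commuting operators

`G` finite, `ρ` an irreducible representation of `G` on `V ≠ 0`, `A` normal in `G` such that the
operators `ρ a`, `a ∈ A`, commute. Then `V` is the sum of `n ≤ dim V` subspaces `E i` on each of which
`A` acts by scalars, and `G` permutes the `E i` (through an action `π` on the index set).

Proof. For `w : A → ℂ` put `V_w = {v | ∀ a ∈ A, ρ a v = w a • v}`.
(1) some `V_w ≠ ⊥`: let `X ≠ ⊥` be an `A`-invariant subspace of minimal dimension. For `a ∈ A` the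
operator `ρ a` has an eigenvalue on `X` (`Module.End.exists_eigenvalue` for the restriction), its
eigenspace in `X` is `A`-invariant (the operators commute) and nonzero, so it is `X`. So all `a ∈ A` act on
`X` by scalars.
(2) the family `(V_w)_w` is independent (`iSupIndep`): either Mathlib's theory of joint eigenspaces, or
directly: if `∑ v_w = 0` (finite sum, `v_w ∈ V_w`) with as few nonzero terms as possible, `w ≠ w'` two of
them, `a` with `w a ≠ w' a`: apply `ρ a - w a` and get a shorter nontrivial relation.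
So `Ω = {w | V_w ≠ ⊥}` is finite with at most `dim V` elements
(`iSupIndep.subtype_ne_bot_le_finrank` or similar), and nonempty by (1).
(3) `ρ g` maps `V_w` into `V_{g • w}`, `(g • w) a = w (g⁻¹ a g)` (`A` normal):
`ρ a (ρ g v) = ρ g (ρ (g⁻¹ a g) v) = w (g⁻¹ a g) • ρ g v`; `ρ g` is injective, so `Ω` is mapped to
itself; `(g h) • w = g • (h • w)`, `1 • w = w`.
(4) `⨆ w ∈ Ω, V_w` is `G`-invariant and nonzero, so it is `⊤`.
Number `Ω` by `Fin n` (`n = Nat.card Ω`, `Finite.equivFin`), `E i = V_{w_i}`, `π` the transported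
action.
-/

set_option autoImplicit false

namespace Pool.Agent.DLF

open Module

/-- the joint eigenspace -/
noncomputable def h1_E {G V : Type*} [Group G] [AddCommGroup V] [Module ℂ V] (ρ : G →* Module.End ℂ V)
    (A : Subgroup G) (χ : A → ℂ) : Submodule ℂ V :=
  ⨅ a : A, (ρ a).maxGenEigenspace (χ a)

theorem h1_ss {G V : Type*} [Group G] [Finite G] [AddCommGroup V] [Module ℂ V]
    [FiniteDimensional ℂ V] (ρ : G →* Module.End ℂ V) (g : G) : (ρ g).IsSemisimple := by
  have hN : (Nat.card G : ℂ) ≠ 0 := Nat.cast_ne_zero.2 Nat.card_pos.ne'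
  have h1 : (Polynomial.X ^ Nat.card G - Polynomial.C (1 : ℂ)).Separable :=
    Polynomial.separable_X_pow_sub_C (1 : ℂ) hN one_ne_zero
  refine Module.End.isSemisimple_of_squarefree_aeval_eq_zero h1.squarefree ?_
  rw [map_sub, map_pow, Polynomial.aeval_X, Polynomial.aeval_C, ← map_pow, pow_card_eq_one', map_one,
    map_one, sub_self]

theorem h1_mem {G V : Type*} [Group G] [Finite G] [AddCommGroup V] [Module ℂ V]
    [FiniteDimensional ℂ V] (ρ : G →* Module.End ℂ V) (A : Subgroup G) (χ : A → ℂ) (v : V) :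
    v ∈ h1_E ρ A χ ↔ ∀ a : A, ρ a v = χ a • v := by
  unfold h1_E
  rw [Submodule.mem_iInf]
  refine forall_congr' fun a => ?_
  rw [(Module.End.isFinitelySemisimple_iff_isSemisimple.mpr (h1_ss ρ a)).maxGenEigenspace_eq_eigenspace,
    Module.End.mem_eigenspace_iff]

/-- conjugation on the normal subgroup -/
def h1_c {G : Type*} [Group G] (A : Subgroup G) [A.Normal] (g : G) (a : A) : A :=
  ⟨g⁻¹ * a * g, by
    have h1 := (inferInstance : A.Normal).conj_mem a.1 a.2 g⁻¹
    rwa [inv_inv] at h1⟩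

theorem h1_map {G V : Type*} [Group G] [Finite G] [AddCommGroup V] [Module ℂ V]
    [FiniteDimensional ℂ V] (ρ : G →* Module.End ℂ V) (A : Subgroup G) [A.Normal] (g : G) (χ : A → ℂ)
    {v : V} (hv : v ∈ h1_E ρ A χ) : ρ g v ∈ h1_E ρ A (fun a => χ (h1_c A g a)) := by
  rw [h1_mem] at hv ⊢
  intro a
  have h1 : (a : G) * g = g * (h1_c A g a : A) := by
    unfold h1_c
    simp only
    group
  rw [← Module.End.mul_apply, ← map_mul, h1, map_mul, Module.End.mul_apply, hv, map_smul]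

theorem exists_weights {G V : Type*} [Group G] [Finite G] [AddCommGroup V] [Module ℂ V]
    [FiniteDimensional ℂ V] [Nontrivial V] (ρ : G →* Module.End ℂ V)
    (hρ : ∀ W : Submodule ℂ V, (∀ g : G, ∀ v ∈ W, ρ g v ∈ W) → W = ⊥ ∨ W = ⊤)
    (A : Subgroup G) [A.Normal] (hA : ∀ a ∈ A, ∀ b ∈ A, ρ a * ρ b = ρ b * ρ a) :
    ∃ (n : ℕ) (E : Fin n → Submodule ℂ V) (w : Fin n → G → ℂ) (π : G → Fin n → Fin n),
      1 ≤ n ∧ n ≤ finrank ℂ V ∧ (⨆ i, E i = ⊤) ∧
      (∀ i, ∀ a ∈ A, ∀ v ∈ E i, ρ a v = w i a • v) ∧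
      (∀ i, π 1 i = i) ∧ (∀ g h i, π (g * h) i = π g (π h i)) ∧
      (∀ g i, ∀ v ∈ E i, ρ g v ∈ E (π g i)) := by
  classical
  have hcom : ∀ a b : A, Commute (ρ a) (ρ b) := fun a b => hA a a.2 b b.2
  have hind : iSupIndep (h1_E ρ A) :=
    Module.End.independent_iInf_maxGenEigenspace_of_forall_mapsTo (fun a : A => ρ a)
      (fun a b φ => Module.End.mapsTo_maxGenEigenspace_of_comm (hcom b a) φ)
  have htop : ⨆ χ, h1_E ρ A χ = ⊤ :=
    Module.End.iSup_iInf_maxGenEigenspace_eq_top_of_iSup_maxGenEigenspace_eq_top_of_commute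
      (fun a : A => ρ a) (fun a b _ => hcom a b) (fun a => Module.End.iSup_maxGenEigenspace_eq_top _)
  have hfin : Finite {χ // h1_E ρ A χ ≠ ⊥} := WellFoundedGT.finite_ne_bot_of_iSupIndep hind
  have : Fintype {χ // h1_E ρ A χ ≠ ⊥} := Fintype.ofFinite _
  have hcard := hind.subtype_ne_bot_le_finrank
  have hne : ∀ (g : G) (χ : A → ℂ), h1_E ρ A χ ≠ ⊥ → h1_E ρ A (fun a => χ (h1_c A g a)) ≠ ⊥ := by
    intro g χ h
    obtain ⟨v, hv, hv0⟩ := (Submodule.ne_bot_iff _).1 h
    refine (Submodule.ne_bot_iff _).2 ⟨ρ g v, h1_map ρ A g χ hv, fun h0 => hv0 ?_⟩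
    have h1 : ρ g⁻¹ (ρ g v) = v := by
      rw [← Module.End.mul_apply, ← map_mul, inv_mul_cancel, map_one]
      rfl
    rw [← h1, h0, map_zero]
  let e : Fin (Fintype.card {χ // h1_E ρ A χ ≠ ⊥}) ≃ {χ // h1_E ρ A χ ≠ ⊥} := (Fintype.equivFin _).symm
  have hsup : ⨆ i, h1_E ρ A (e i).1 = ⊤ := by
    rw [← htop, ← iSup_ne_bot_subtype (h1_E ρ A)]
    exact e.iSup_comp (g := fun χ : {χ // h1_E ρ A χ ≠ ⊥} => h1_E ρ A χ.1)
  refine ⟨Fintype.card {χ // h1_E ρ A χ ≠ ⊥}, fun i => h1_E ρ A (e i).1,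
    fun i g => if h : g ∈ A then (e i).1 ⟨g, h⟩ else 0,
    fun g i => e.symm ⟨fun a => (e i).1 (h1_c A g a), hne g _ (e i).2⟩, ?_, hcard, hsup, ?_, ?_, ?_, ?_⟩
  · by_contra hlt
    have h0 : Fintype.card {χ // h1_E ρ A χ ≠ ⊥} = 0 := by omega
    have h1 : IsEmpty (Fin (Fintype.card {χ // h1_E ρ A χ ≠ ⊥})) := by
      rw [h0]
      infer_instance
    rw [iSup_of_empty] at hsup
    exact bot_ne_top hsup
  · intro i a ha v hv
    simp only [dif_pos ha]
    exact (h1_mem ρ A _ v).1 hv ⟨a, ha⟩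
  · intro i
    rw [Equiv.symm_apply_eq]
    apply Subtype.ext
    funext a
    show (e i).1 (h1_c A 1 a) = (e i).1 a
    have h2 : h1_c A 1 a = a := by
      apply Subtype.ext
      show (1 : G)⁻¹ * a * 1 = a
      group
    rw [h2]
  · intro g h i
    rw [Equiv.symm_apply_eq, Equiv.apply_symm_apply]
    apply Subtype.ext
    funext a
    show (e i).1 (h1_c A (g * h) a) = (e (e.symm _)).1 (h1_c A g a)
    rw [Equiv.apply_symm_apply]
    show (e i).1 (h1_c A (g * h) a) = (e i).1 (h1_c A h (h1_c A g a))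
    have h2 : h1_c A (g * h) a = h1_c A h (h1_c A g a) := by
      apply Subtype.ext
      show (g * h)⁻¹ * a * (g * h) = h⁻¹ * (g⁻¹ * a * g) * h
      group
    rw [h2]
  · intro g i v hv
    have h1 := h1_map ρ A g _ hv
    simp only [Equiv.apply_symm_apply]
    exact h1

end Pool.Agent.DLF
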