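import Pool.Agent.DLF.T1

/-!
# [DLF-T2] the step of Taketa's theorem

`P` finite nilpotent, `ρ` irreducible of degree `d ≥ 2`, `x`, `y` in the kernel of every irreducible
representation of degree `≤ d - 1`. Then `ρ (x y x⁻¹ y⁻¹) = 1`.

Proof. Let `b` be a monomial basis of `V = Fin d → ℂ` for `ρ` (T1 applied to
`g ↦ Matrix.toLin' (ρ g)`; `n = d` by comparing dimensions, so take the index set `Fin n` with
`n = d`). For `g : P` and `i` there are a unique `j = π g i` and `c ≠ 0` with `ρ g (b i) = c • b j`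
(`c ≠ 0` since `ρ g` is injective; uniqueness by linear independence of `b`). `π (g h) = π g ∘ π h`,
`π 1 = id`.
Permutation representation: `τ g : (Fin n → ℂ) → (Fin n → ℂ)`, `(τ g f) i = f (π g⁻¹ i)`, a monoid
homomorphism `P →* Module.End ℂ (Fin n → ℂ)`. Its invariant subspaces `W₀ = {f | ∑ f = 0}` (dimension
`n - 1`) and the constants. Every coefficient `g ↦ (τ g f) i` lies in `coeffSpan P (n - 1)`:
`f = f₀ + const`, `f₀ ∈ W₀`; the coefficient of `f₀` is a coefficient of the restriction of `τ` to `W₀`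
(`coeff_mem`, `finrank W₀ = n - 1`), the coefficient of the constant is constant
(`const_mem_coeffSpan`, `1 ≤ n - 1`).
For `x` as above every `F ∈ coeffSpan P (d - 1)` satisfies `F x = F 1` (`Submodule.span_induction`).
So `τ x = 1`, so `π x = id`: `ρ x (b i) = c_i • b i` for all `i`; same for `y`. So `ρ x` and `ρ y`
commute (check on the basis) and `ρ (x y x⁻¹ y⁻¹) = 1`.
-/

set_option autoImplicit false

namespace Pool.Agent.DLF

open Module

/-- the sum functional -/
noncomputable def t2_s (d : ℕ) : (Fin d → ℂ) →ₗ[ℂ] ℂ := ∑ i, LinearMap.proj i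

theorem t2_s_apply {d : ℕ} (f : Fin d → ℂ) : t2_s d f = ∑ i, f i := by
  unfold t2_s
  rw [LinearMap.sum_apply]
  rfl

theorem t2_finrank {d : ℕ} (hd : 2 ≤ d) : finrank ℂ (LinearMap.ker (t2_s d)) = d - 1 := by
  have h1 := LinearMap.finrank_range_add_finrank_ker (t2_s d)
  have h2 : LinearMap.range (t2_s d) = ⊤ := by
    rw [LinearMap.range_eq_top]
    intro c
    refine ⟨Pi.single ⟨0, by omega⟩ c, ?_⟩
    rw [t2_s_apply, Finset.sum_eq_single ⟨0, by omega⟩]
    · rw [Pi.single_eq_same]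
    · intro b _ hb
      rw [Pi.single_eq_of_ne hb]
    · intro h
      exact absurd (Finset.mem_univ _) h
  rw [h2, finrank_top, finrank_self, Module.finrank_fin_fun] at h1
  omega

theorem t2_inv {P : Type*} [Group P] {d : ℕ} (π : P → Fin d → Fin d) (h1 : ∀ i, π 1 i = i)
    (hm : ∀ g h i, π (g * h) i = π g (π h i)) (g : P) :
    ∀ f ∈ LinearMap.ker (t2_s d), LinearMap.funLeft ℂ ℂ (π g) f ∈ LinearMap.ker (t2_s d) := by
  intro f hf
  rw [LinearMap.mem_ker, t2_s_apply] at hf ⊢
  have e : ∑ i, LinearMap.funLeft ℂ ℂ (π g) f i = ∑ i, f i := by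
    let σ : Fin d ≃ Fin d := ⟨π g, π g⁻¹, fun i => by rw [← hm, inv_mul_cancel, h1],
      fun i => by rw [← hm, mul_inv_cancel, h1]⟩
    exact Equiv.sum_comp σ f
  rw [e, hf]

theorem t2_perm {P : Type*} [Group P] [Finite P] {d : ℕ} (hd : 2 ≤ d) (π : P → Fin d → Fin d)
    (h1 : ∀ i, π 1 i = i) (hm : ∀ g h i, π (g * h) i = π g (π h i)) {x : P}
    (hx : ∀ F ∈ coeffSpan P (d - 1), F x = F 1) : ∀ i, π x i = i := by
  let τ : P →* Module.End ℂ (LinearMap.ker (t2_s d)) :=
    { toFun := fun g => (LinearMap.funLeft ℂ ℂ (π g⁻¹)).restrict (t2_inv π h1 hm g⁻¹)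
      map_one' := by
        apply LinearMap.ext
        intro v
        apply Subtype.ext
        funext i
        show (v : Fin d → ℂ) (π (1 : P)⁻¹ i) = (v : Fin d → ℂ) i
        rw [inv_one, h1]
      map_mul' := by
        intro g h
        apply LinearMap.ext
        intro v
        apply Subtype.ext
        funext i
        show (v : Fin d → ℂ) (π (g * h)⁻¹ i) = (v : Fin d → ℂ) (π h⁻¹ (π g⁻¹ i))
        rw [mul_inv_rev, hm] }
  have key : ∀ (v : LinearMap.ker (t2_s d)) (i : Fin d),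
      (v : Fin d → ℂ) (π x⁻¹ i) = (v : Fin d → ℂ) i := by
    intro v i
    have h2 := coeff_mem τ ((LinearMap.proj i).comp (LinearMap.ker (t2_s d)).subtype) v
    rw [t2_finrank hd] at h2
    have h3 := hx _ h2
    have h4 : (v : Fin d → ℂ) (π x⁻¹ i) = (v : Fin d → ℂ) (π (1 : P)⁻¹ i) := h3
    rw [h4, inv_one, h1]
  have key2 : ∀ i, π x⁻¹ i = i := by
    intro i
    by_contra hne
    have hv : (Pi.single i 1 - Pi.single (π x⁻¹ i) 1 : Fin d → ℂ) ∈ LinearMap.ker (t2_s d) := by
      rw [LinearMap.mem_ker, map_sub, t2_s_apply, t2_s_apply]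
      rw [Finset.sum_pi_single', Finset.sum_pi_single']
      simp
    have h2 := key ⟨_, hv⟩ i
    simp only [Pi.sub_apply] at h2
    rw [Pi.single_eq_of_ne hne, Pi.single_eq_same, Pi.single_eq_same,
      Pi.single_eq_of_ne (fun h => hne h.symm)] at h2
    norm_num at h2
  intro i
  have h5 := hm x x⁻¹ i
  rw [mul_inv_cancel, h1, key2] at h5
  exact h5.symm

theorem t2_uniq {V : Type*} [AddCommGroup V] [Module ℂ V] {d : ℕ} (b : Basis (Fin d) ℂ V)
    {i j : Fin d} {a c : ℂ} (ha : a ≠ 0) (h : a • b i = c • b j) : j = i := by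
  by_contra hne
  have h1 := congrArg (fun v => b.repr v i) h
  simp only [map_smul, Basis.repr_self, Finsupp.smul_apply, smul_eq_mul] at h1
  rw [Finsupp.single_eq_same, Finsupp.single_eq_of_ne (fun h => hne h.symm)] at h1
  simp at h1
  exact ha h1

theorem taketa_step {P : Type*} [Group P] [Finite P] [Group.IsNilpotent P] {d : ℕ} (hd : 2 ≤ d)
    (ρ : P →* Matrix (Fin d) (Fin d) ℂ) (hρ : Irr ρ) {x y : P}
    (hx : ∀ (e : ℕ) (τ : P →* Matrix (Fin e) (Fin e) ℂ), Irr τ → e ≤ d - 1 → τ x = 1)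
    (hy : ∀ (e : ℕ) (τ : P →* Matrix (Fin e) (Fin e) ℂ), Irr τ → e ≤ d - 1 → τ y = 1) :
    ρ (x * y * x⁻¹ * y⁻¹) = 1 := by
  have hspan : ∀ z : P, (∀ (e : ℕ) (τ : P →* Matrix (Fin e) (Fin e) ℂ), Irr τ → e ≤ d - 1 → τ z = 1) →
      ∀ F ∈ coeffSpan P (d - 1), F z = F 1 := by
    intro z hz F hF
    unfold coeffSpan at hF
    induction hF using Submodule.span_induction with
    | mem f hf =>
      obtain ⟨e, _, he, τ, hτ, i, j, rfl⟩ := hf
      simp only
      rw [hz e τ hτ he, map_one]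
    | zero => rfl
    | add f g _ _ hf hg => rw [Pi.add_apply, Pi.add_apply, hf, hg]
    | smul c f _ hf => rw [Pi.smul_apply, Pi.smul_apply, hf]
  let R : P →* Module.End ℂ (Fin d → ℂ) :=
    { toFun := fun g => Matrix.toLin' (ρ g)
      map_one' := by rw [map_one, Matrix.toLin'_one]; rfl
      map_mul' := by
        intro g h
        rw [map_mul, Matrix.toLin'_mul]
        rfl }
  have hR : ∀ g v, R g v = Matrix.mulVec (ρ g) v := by
    intro g v
    exact Matrix.toLin'_apply _ _
  have hnt : Nontrivial (Fin d → ℂ) := by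
    have : Nonempty (Fin d) := ⟨⟨0, by omega⟩⟩
    infer_instance
  obtain ⟨n, b, hb⟩ := exists_monomial_basis R (by
    intro W hW
    apply hρ W
    intro g v hv
    rw [← hR]
    exact hW g v hv)
  have hn : n = d := by
    have h1 := Module.finrank_eq_card_basis b
    rw [Module.finrank_fin_fun, Fintype.card_fin] at h1
    exact h1.symm
  subst hn
  choose π c hπ using hb
  have hc : ∀ g i, c g i ≠ 0 := by
    intro g i h0
    have h1 : R g⁻¹ (R g (b i)) = b i := by
      rw [← Module.End.mul_apply, ← map_mul, inv_mul_cancel, map_one]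
      rfl
    rw [hπ g i, h0, zero_smul, map_zero] at h1
    exact b.ne_zero i h1.symm
  have h1 : ∀ i, π 1 i = i := by
    intro i
    have h2 := hπ 1 i
    rw [map_one] at h2
    apply t2_uniq b (a := 1) one_ne_zero (c := c 1 i)
    rw [one_smul]
    exact h2
  have hm : ∀ g h i, π (g * h) i = π g (π h i) := by
    intro g h i
    have h2 := hπ (g * h) i
    rw [map_mul, Module.End.mul_apply, hπ h i, map_smul, hπ g (π h i), smul_smul] at h2
    exact t2_uniq b (mul_ne_zero (hc h i) (hc g (π h i))) h2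
  have px := t2_perm hd π h1 hm (hspan x hx)
  have py := t2_perm hd π h1 hm (hspan y hy)
  have hxy : R x * R y = R y * R x := by
    apply b.ext
    intro i
    rw [Module.End.mul_apply, Module.End.mul_apply, hπ y i, hπ x i, py, px, map_smul, map_smul,
      hπ x i, hπ y i, px, py, smul_smul, smul_smul, mul_comm]
  have hxy2 : ρ x * ρ y = ρ y * ρ x := by
    apply Matrix.toLin'.injective
    rw [Matrix.toLin'_mul, Matrix.toLin'_mul]
    exact hxy
  calc ρ (x * y * x⁻¹ * y⁻¹) = ρ x * ρ y * ρ x⁻¹ * ρ y⁻¹ := by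
        rw [map_mul, map_mul, map_mul]
    _ = ρ y * (ρ x * ρ x⁻¹) * ρ y⁻¹ := by rw [hxy2]; simp only [mul_assoc]
    _ = 1 := by
        rw [← map_mul ρ x, mul_inv_cancel, map_one, mul_one, ← map_mul, mul_inv_cancel, map_one]

end Pool.Agent.DLF
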