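import Pool.Agent.DLF.H1
import Pool.Agent.DLF.T2

/-!
# [DLF-H2] elements killed by all smaller degrees commute with `A`

`G` finite, `ρ` irreducible of degree `d ≥ 2`, `A` normal in `G` with commuting images, `x` in the
kernel of every irreducible representation of degree `≤ d - 1`. Then `ρ a` and `ρ x` commute for `a ∈ A`.

Proof. Apply `exists_weights` (H1) to `R g = Matrix.toLin' (ρ g)` on `V = Fin d → ℂ`
(`finrank V = d`): get `n ≤ d`, `E`, `w`, `π`. Claim: `π x i = i` for all `i`. If `n = 1`, clear
(`Fin 1` is a subsingleton). If `n ≥ 2`: `t2_perm` (in `T2.lean`, already proved there) with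
`d := n` gives it, because `F x = F 1` for every `F ∈ coeffSpan G (n - 1)`: as in the proof of
`taketa_step` (`Submodule.span_induction`; the generators are coefficients of irreducible
representations of degree `≤ n - 1 ≤ d - 1`).
So `R x` maps each `E i` into itself, and on `E i` each `a ∈ A` acts by the scalar `w i a`, so
`R a (R x v) = w i a • R x v = R x (R a v)` for `v ∈ E i`; as `⨆ i, E i = ⊤` this holds for all `v`
(`Submodule.iSup_induction`). Hence `ρ a * ρ x = ρ x * ρ a`.
-/

set_option autoImplicit false

namespace Pool.Agent.DLF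

theorem commute_of_normal {G : Type*} [Group G] [Finite G] {d : ℕ} (hd : 2 ≤ d)
    (ρ : G →* Matrix (Fin d) (Fin d) ℂ) (hρ : Irr ρ) (A : Subgroup G) [A.Normal]
    (hA : ∀ a ∈ A, ∀ b ∈ A, ρ a * ρ b = ρ b * ρ a) {x : G}
    (hx : ∀ (e : ℕ) (τ : G →* Matrix (Fin e) (Fin e) ℂ), Irr τ → e ≤ d - 1 → τ x = 1)
    {a : G} (ha : a ∈ A) : ρ a * ρ x = ρ x * ρ a := by
  let R : G →* Module.End ℂ (Fin d → ℂ) :=
    { toFun := fun g => Matrix.toLin' (ρ g)
      map_one' := by rw [map_one, Matrix.toLin'_one]; rfl
      map_mul' := by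
        intro g h
        rw [map_mul, Matrix.toLin'_mul]
        rfl }
  have hR : ∀ g v, R g v = Matrix.mulVec (ρ g) v := by
    intro g v
    exact Matrix.toLin'_apply _ _
  have hnt : Nontrivial (Fin d → ℂ) := by
    have : Nonempty (Fin d) := ⟨⟨0, by omega⟩⟩
    infer_instance
  obtain ⟨n, E, w, π, h1n, hnd, htop, hw, hπ1, hπm, hπE⟩ := exists_weights R (by
    intro W hW
    apply hρ W
    intro g v hv
    rw [← hR]
    exact hW g v hv) A (by
    intro a ha b hb
    show Matrix.toLin' (ρ a) * Matrix.toLin' (ρ b) = Matrix.toLin' (ρ b) * Matrix.toLin' (ρ a)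
    have h1 := congrArg Matrix.toLin' (hA a ha b hb)
    rw [Matrix.toLin'_mul, Matrix.toLin'_mul] at h1
    exact h1)
  rw [Module.finrank_fin_fun] at hnd
  have hfix : ∀ i, π x i = i := by
    rcases Nat.lt_or_ge n 2 with h2 | h2
    · intro i
      have h3 : n = 1 := by omega
      subst h3
      exact Subsingleton.elim _ _
    · refine t2_perm h2 π hπ1 hπm ?_
      intro F hF
      unfold coeffSpan at hF
      induction hF using Submodule.span_induction with
      | mem f hf =>
        obtain ⟨e, _, he, τ, hτ, i, j, rfl⟩ := hf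
        simp only
        rw [hx e τ hτ (by omega), map_one]
      | zero => rfl
      | add f g _ _ hf hg => rw [Pi.add_apply, Pi.add_apply, hf, hg]
      | smul c f _ hf => rw [Pi.smul_apply, Pi.smul_apply, hf]
  have hcom : ∀ v, R a (R x v) = R x (R a v) := by
    intro v
    have hv : v ∈ ⨆ i, E i := by
      rw [htop]
      trivial
    refine Submodule.iSup_induction E (motive := fun v => R a (R x v) = R x (R a v)) hv ?_ ?_ ?_
    · intro i v hv
      have h1 := hπE x i v hv
      rw [hfix] at h1
      rw [hw i a ha _ h1, hw i a ha _ hv, map_smul]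
    · rw [map_zero, map_zero, map_zero]
    · intro u v hu hv
      rw [map_add, map_add, map_add, map_add, hu, hv]
  apply Matrix.toLin'.injective
  rw [Matrix.toLin'_mul, Matrix.toLin'_mul]
  exact LinearMap.ext hcom

end Pool.Agent.DLF
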