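import Pool.Agent.DLF.H2

/-!
# [DLF-H3] `γ₃` of a nilpotent normal subgroup killed by all smaller degrees
-/

set_option autoImplicit false

namespace Pool.Agent.DLF

open scoped commutatorElement

theorem h3_three {Q : Type*} [Group Q] (N H₁ H₂ H₃ : Subgroup Q) [N.Normal]
    (h1 : ⁅⁅H₂, H₃⁆, H₁⁆ ≤ N) (h2 : ⁅⁅H₃, H₁⁆, H₂⁆ ≤ N) : ⁅⁅H₁, H₂⁆, H₃⁆ ≤ N := by
  have key : ∀ K : Subgroup Q, K ≤ N ↔ K.map (QuotientGroup.mk' N) = ⊥ := by
    intro K
    rw [Subgroup.map_eq_bot_iff, QuotientGroup.ker_mk']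
  rw [key, Subgroup.map_commutator, Subgroup.map_commutator] at h1 h2 ⊢
  exact Subgroup.commutator_commutator_eq_bot_of_rotate h1 h2

theorem h3_comm {Q : Type*} [Group Q] (K : Subgroup Q) [K.Normal] (j : ℕ) : ∀ i : ℕ,
    ⁅K.lowerCentralSeries i, K.lowerCentralSeries j⁆ ≤ K.lowerCentralSeries (i + j + 1) := by
  induction j with
  | zero => intro i; exact le_rfl
  | succ j ih =>
    intro i
    rw [Subgroup.lowerCentralSeries_succ K j, Subgroup.commutator_comm]
    refine h3_three _ _ _ _ ?_ ?_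
    · rw [Subgroup.commutator_comm K, ← Subgroup.lowerCentralSeries_succ]
      have h := ih (i + 1)
      have e : i + 1 + j + 1 = i + (j + 1) + 1 := by ring
      rw [e] at h
      exact h
    · exact Subgroup.commutator_mono (ih i) le_rfl

/-- two elements with commuting images have a commutator in the kernel -/
theorem map_commutator_eq_one {G : Type*} [Group G] {d : ℕ}
    (ρ : G →* Matrix (Fin d) (Fin d) ℂ) {a b : G} (h : ρ a * ρ b = ρ b * ρ a) :
    ρ ⁅a, b⁆ = 1 := by
  rw [commutatorElement_def, map_mul, map_mul, map_mul, h]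
  calc ρ b * ρ a * ρ a⁻¹ * ρ b⁻¹ = ρ b * (ρ a * ρ a⁻¹) * ρ b⁻¹ := by simp only [mul_assoc]
    _ = 1 := by
        rw [← map_mul ρ a, mul_inv_cancel, map_one, mul_one, ← map_mul, mul_inv_cancel, map_one]

theorem commute_of_map_commutator {G : Type*} [Group G] {d : ℕ}
    (ρ : G →* Matrix (Fin d) (Fin d) ℂ) {a b : G} (h : ρ ⁅a, b⁆ = 1) :
    ρ a * ρ b = ρ b * ρ a := by
  have h1 : a * b = ⁅a, b⁆ * (b * a) := by rw [commutatorElement_def]; group
  rw [← map_mul, h1, map_mul, h, one_mul, map_mul]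

/-- the kernel as a subgroup -/
def kerM {G : Type*} [Group G] {d : ℕ} (ρ : G →* Matrix (Fin d) (Fin d) ℂ) : Subgroup G where
  carrier := {x | ρ x = 1}
  one_mem' := map_one ρ
  mul_mem' := by
    intro a b ha hb
    show ρ (a * b) = 1
    rw [map_mul, show ρ a = 1 from ha, show ρ b = 1 from hb, one_mul]
  inv_mem' := by
    intro a ha
    have h1 : ρ a = 1 := ha
    have h2 : ρ a⁻¹ * ρ a = 1 := by rw [← map_mul]; simp
    rw [h1, mul_one] at h2
    exact h2

theorem mem_kerM {G : Type*} [Group G] {d : ℕ} {ρ : G →* Matrix (Fin d) (Fin d) ℂ} {x : G} :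
    x ∈ kerM ρ ↔ ρ x = 1 := Iff.rfl

theorem lcs_two_le_ker {G : Type*} [Group G] [Finite G] (K : Subgroup G) [K.Normal]
    (hK : Group.IsNilpotent ↥K) {d : ℕ} (ρ : G →* Matrix (Fin d) (Fin d) ℂ) (hρ : Irr ρ)
    (hKx : ∀ x ∈ K, ∀ (e : ℕ) (τ : G →* Matrix (Fin e) (Fin e) ℂ), Irr τ → e ≤ d - 1 → τ x = 1) :
    K.lowerCentralSeries 2 ≤ kerM ρ := by
  rcases Nat.lt_or_ge d 2 with hd | hd
  · -- degree at most one
    have hcomm : ∀ a b : G, ρ a * ρ b = ρ b * ρ a := by
      intro a b
      interval_cases d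
      · ext i; exact i.elim0
      · ext i j
        have hi : i = 0 := Subsingleton.elim _ _
        have hj : j = 0 := Subsingleton.elim _ _
        subst hi; subst hj
        simp [Matrix.mul_apply, mul_comm]
    rw [Subgroup.lowerCentralSeries_succ, Subgroup.commutator_le]
    intro a _ b _
    exact map_commutator_eq_one ρ (hcomm a b)
  · obtain ⟨m, hm⟩ := (Subgroup.isNilpotent_iff_lowerCentralSeries K).1 hK
    have step : ∀ j : ℕ, 2 ≤ j → K.lowerCentralSeries (j + 1) ≤ kerM ρ →
        K.lowerCentralSeries j ≤ kerM ρ := by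
      intro j hj h
      obtain ⟨i, rfl⟩ : ∃ i, j = i + 1 := ⟨j - 1, by omega⟩
      rw [Subgroup.lowerCentralSeries_succ, Subgroup.commutator_le]
      intro a ha x hx
      apply map_commutator_eq_one
      refine commute_of_normal hd ρ hρ (K.lowerCentralSeries i) ?_ (hKx x hx) ha
      intro u hu v hv
      apply commute_of_map_commutator
      have h1 : ⁅u, v⁆ ∈ K.lowerCentralSeries (i + i + 1) :=
        h3_comm K i i (Subgroup.commutator_mem_commutator hu hv)
      exact h (K.lowerCentralSeries_antitone (by omega) h1)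
    have main : ∀ k : ℕ, K.lowerCentralSeries (2 + k) ≤ kerM ρ →
        K.lowerCentralSeries 2 ≤ kerM ρ := by
      intro k
      induction k with
      | zero => intro h; exact h
      | succ k ih =>
        intro h
        apply ih
        apply step (2 + k) (by omega)
        exact h
    apply main m
    refine le_trans (K.lowerCentralSeries_antitone (by omega : m ≤ 2 + m)) ?_
    rw [hm]
    exact bot_le

end Pool.Agent.DLF
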