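import Pool.Agent.DLF.H3
import Pool.Agent.DLF.Final

/-!
# [DLF-H4] the chain above a given degree, and the final bounds
-/

set_option autoImplicit false

namespace Pool.Agent.DLF

open scoped commutatorElement

/-- a representation is monomial if some basis is permuted up to scalars -/
def IsMonomial {G : Type*} [Group G] {d : ℕ} (ρ : G →* Matrix (Fin d) (Fin d) ℂ) : Prop :=
  ∃ b : Module.Basis (Fin d) ℂ (Fin d → ℂ), ∀ (g : G) (i : Fin d), ∃ (j : Fin d) (c : ℂ),
    Matrix.mulVec (ρ g) (b i) = c • b j

theorem isMonomial_of_nilpotent {P : Type*} [Group P] [Finite P] [Group.IsNilpotent P] {d : ℕ}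
    (ρ : P →* Matrix (Fin d) (Fin d) ℂ) (hρ : Irr ρ) : IsMonomial ρ := by
  rcases Nat.eq_zero_or_pos d with rfl | hd
  · exact ⟨Pi.basisFun ℂ (Fin 0), fun g i => i.elim0⟩
  · let R : P →* Module.End ℂ (Fin d → ℂ) :=
      { toFun := fun g => Matrix.toLin' (ρ g)
        map_one' := by rw [map_one, Matrix.toLin'_one]; rfl
        map_mul' := by
          intro g h
          rw [map_mul, Matrix.toLin'_mul]
          rfl }
    have hR : ∀ g v, R g v = Matrix.mulVec (ρ g) v := by
      intro g v
      exact Matrix.toLin'_apply _ _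
    have hnt : Nontrivial (Fin d → ℂ) := by
      have : Nonempty (Fin d) := ⟨⟨0, by omega⟩⟩
      infer_instance
    obtain ⟨n, b, hb⟩ := exists_monomial_basis R (by
      intro W hW
      apply hρ W
      intro g v hv
      rw [← hR]
      exact hW g v hv)
    have hn : n = d := by
      have h1 := Module.finrank_eq_card_basis b
      rw [Module.finrank_fin_fun, Fintype.card_fin] at h1
      exact h1.symm
    subst hn
    exact ⟨b, fun g i => by
      obtain ⟨j, c, h⟩ := hb g i
      exact ⟨j, c, by rw [← hR]; exact h⟩⟩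

theorem span_const {G : Type*} [Group G] {d : ℕ} {z : G}
    (hz : ∀ (e : ℕ) (τ : G →* Matrix (Fin e) (Fin e) ℂ), Irr τ → e ≤ d → τ z = 1) :
    ∀ F ∈ coeffSpan G d, F z = F 1 := by
  intro F hF
  unfold coeffSpan at hF
  induction hF using Submodule.span_induction with
  | mem f hf =>
    obtain ⟨e, _, he, τ, hτ, i, j, rfl⟩ := hf
    simp only
    rw [hz e τ hτ he, map_one]
  | zero => rfl
  | add f g _ _ hf hg => rw [Pi.add_apply, Pi.add_apply, hf, hg]
  | smul c f _ hf => rw [Pi.smul_apply, Pi.smul_apply, hf]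

/-- Taketa's step for a monomial representation -/
theorem commute_of_monomial {G : Type*} [Group G] [Finite G] {d : ℕ} (hd : 2 ≤ d)
    (ρ : G →* Matrix (Fin d) (Fin d) ℂ) (hmon : IsMonomial ρ) {x y : G}
    (hx : ∀ (e : ℕ) (τ : G →* Matrix (Fin e) (Fin e) ℂ), Irr τ → e ≤ d - 1 → τ x = 1)
    (hy : ∀ (e : ℕ) (τ : G →* Matrix (Fin e) (Fin e) ℂ), Irr τ → e ≤ d - 1 → τ y = 1) :
    ρ x * ρ y = ρ y * ρ x := by
  let R : G →* Module.End ℂ (Fin d → ℂ) :=
    { toFun := fun g => Matrix.toLin' (ρ g)
      map_one' := by rw [map_one, Matrix.toLin'_one]; rfl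
      map_mul' := by
        intro g h
        rw [map_mul, Matrix.toLin'_mul]
        rfl }
  have hR : ∀ g v, R g v = Matrix.mulVec (ρ g) v := by
    intro g v
    exact Matrix.toLin'_apply _ _
  obtain ⟨b, hb'⟩ := hmon
  have hb : ∀ (g : G) (i : Fin d), ∃ (j : Fin d) (c : ℂ), R g (b i) = c • b j := by
    intro g i
    obtain ⟨j, c, h⟩ := hb' g i
    exact ⟨j, c, by rw [hR]; exact h⟩
  choose π c hπ using hb
  have hc : ∀ g i, c g i ≠ 0 := by
    intro g i h0
    have h1 : R g⁻¹ (R g (b i)) = b i := by
      rw [← Module.End.mul_apply, ← map_mul, inv_mul_cancel, map_one]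
      rfl
    rw [hπ g i, h0, zero_smul, map_zero] at h1
    exact b.ne_zero i h1.symm
  have h1 : ∀ i, π 1 i = i := by
    intro i
    have h2 := hπ 1 i
    rw [map_one] at h2
    apply t2_uniq b (a := 1) one_ne_zero (c := c 1 i)
    rw [one_smul]
    exact h2
  have hm : ∀ g h i, π (g * h) i = π g (π h i) := by
    intro g h i
    have h2 := hπ (g * h) i
    rw [map_mul, Module.End.mul_apply, hπ h i, map_smul, hπ g (π h i), smul_smul] at h2
    exact t2_uniq b (mul_ne_zero (hc h i) (hc g (π h i))) h2
  have px := t2_perm hd π h1 hm (span_const hx)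
  have py := t2_perm hd π h1 hm (span_const hy)
  have hxy : R x * R y = R y * R x := by
    apply b.ext
    intro i
    rw [Module.End.mul_apply, Module.End.mul_apply, hπ y i, hπ x i, py, px, map_smul, map_smul,
      hπ x i, hπ y i, px, py, smul_smul, smul_smul, mul_comm]
  apply Matrix.toLin'.injective
  rw [Matrix.toLin'_mul, Matrix.toLin'_mul]
  exact hxy

theorem kerUpTo_card {G : Type*} [Group G] [Finite G] (N : Subgroup G) {E : ℕ}
    (hE : Nat.card G ≤ E) : lowKer N E = ⊥ := by
  classical
  have : Fintype G := Fintype.ofFinite G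
  rw [eq_bot_iff]
  intro x hx
  rw [Subgroup.mem_bot]
  by_contra hx1
  have hx1' : (x : G) ≠ 1 := fun h => hx1 (Subtype.ext h)
  let R : G →* Module.End ℂ (G → ℂ) :=
    { toFun := fun g => LinearMap.funLeft ℂ ℂ (fun h : G => h * g)
      map_one' := by
        apply LinearMap.ext
        intro f
        funext h
        simp [LinearMap.funLeft_apply]
      map_mul' := by
        intro a b
        apply LinearMap.ext
        intro f
        funext h
        simp [LinearMap.funLeft_apply, mul_assoc] }
  have h1 := coeff_mem R (LinearMap.proj (1 : G)) (Pi.single (1 : G) (1 : ℂ))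
  have h2 : Module.finrank ℂ (G → ℂ) ≤ E := by
    rw [Module.finrank_fintype_fun_eq_card, ← Nat.card_eq_fintype_card]
    exact hE
  have h3 := span_const (z := (x : G)) (d := E) (fun e τ hτ he => hx e τ hτ he) _
    (coeffSpan_mono G h2 h1)
  simp [R, LinearMap.funLeft_apply, hx1'] at h3

/-- The chain: if each further degree costs at most `s` derived steps, then
`N^(n + s * #{degrees in (D, E]})` is contained in the kernels of all irreducible representations of
degree at most `E`. -/
theorem chain_aux {G : Type*} [Group G] [Finite G] (N : Subgroup G) (s : ℕ)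
    (hstep : ∀ (E n : ℕ), derivedSeries ↥N n ≤ lowKer N E →
      derivedSeries ↥N (n + s) ≤ lowKer N (E + 1))
    {D n : ℕ} (h0 : derivedSeries ↥N n ≤ lowKer N D) (E : ℕ) (hE : D ≤ E) :
    derivedSeries ↥N (n + s * {d | d ∈ cdOver G N ∧ D < d ∧ d ≤ E}.ncard) ≤ lowKer N E := by
  classical
  induction E, hE using Nat.le_induction with
  | base =>
    have : {d | d ∈ cdOver G N ∧ D < d ∧ d ≤ D} = ∅ := by
      ext d
      simp only [Set.mem_ofPred_eq, Set.mem_empty_iff_false, iff_false]; omega
    rw [this, Set.ncard_empty, mul_zero, add_zero]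
    exact h0
  | succ E hE ih =>
    have hfin : {d | d ∈ cdOver G N ∧ D < d ∧ d ≤ E}.Finite :=
      (cdOver_finite G N).subset (fun d hd => hd.1)
    by_cases hmem : E + 1 ∈ cdOver G N
    · have h1 : {d | d ∈ cdOver G N ∧ D < d ∧ d ≤ E + 1}
          = insert (E + 1) {d | d ∈ cdOver G N ∧ D < d ∧ d ≤ E} := by
        ext d
        simp only [Set.mem_ofPred_eq, Set.mem_insert_iff]
        constructor
        · rintro ⟨h1, h2, h3⟩
          by_cases h : d = E + 1
          · exact Or.inl h
          · exact Or.inr ⟨h1, h2, by omega⟩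
        · rintro (rfl | ⟨h1, h2, h3⟩)
          · exact ⟨hmem, by omega, le_rfl⟩
          · exact ⟨h1, h2, by omega⟩
      rw [h1, Set.ncard_insert_of_notMem (by
        simp only [Set.mem_ofPred_eq]; omega) hfin, mul_add, mul_one, ← add_assoc]
      exact hstep E _ ih
    · have h1 : {d | d ∈ cdOver G N ∧ D < d ∧ d ≤ E + 1}
          = {d | d ∈ cdOver G N ∧ D < d ∧ d ≤ E} := by
        ext d
        simp only [Set.mem_ofPred_eq]
        constructor
        · rintro ⟨h1, h2, h3⟩
          refine ⟨h1, h2, ?_⟩
          by_contra h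
          have : d = E + 1 := by omega
          rw [this] at h1
          exact hmem h1
        · rintro ⟨h1, h2, h3⟩
          exact ⟨h1, h2, by omega⟩
      rw [h1]
      intro x hx d ρ hρ hd
      have hx' := ih hx
      by_cases hdE : d ≤ E
      · exact hx' d ρ hρ hdE
      · have hd' : d = E + 1 := by omega
        subst hd'
        by_contra hne
        exact hmem ⟨by omega, ρ, hρ, x, x.2, hne⟩

theorem derivedSeries_eq_bot_of_chain {G : Type*} [Group G] [Finite G] (N : Subgroup G) (s : ℕ)
    (hstep : ∀ (E n : ℕ), derivedSeries ↥N n ≤ lowKer N E →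
      derivedSeries ↥N (n + s) ≤ lowKer N (E + 1))
    {D n : ℕ} (h0 : derivedSeries ↥N n ≤ lowKer N D) :
    derivedSeries ↥N (n + s * {d | d ∈ cdOver G N ∧ D < d}.ncard) = ⊥ := by
  classical
  let E := max D (Nat.card G)
  have h1 := chain_aux N s hstep h0 E (le_max_left _ _)
  rw [kerUpTo_card N (le_max_right _ _)] at h1
  rw [eq_bot_iff]
  refine le_trans ?_ h1
  apply derivedSeries_antitone
  apply Nat.add_le_add_left
  apply Nat.mul_le_mul_left
  apply Set.ncard_le_ncard
  · rintro d ⟨h1, h2, h3⟩
    exact ⟨h1, h2⟩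
  · exact (cdOver_finite G N).subset (fun d hd => hd.1)

/-- the general step: two derived steps for each degree, `N` normal and nilpotent -/
theorem step_two {G : Type*} [Group G] [Finite G] (N : Subgroup G) [N.Normal]
    (hN : Group.IsNilpotent ↥N) (E n : ℕ) (h : derivedSeries ↥N n ≤ lowKer N E) :
    derivedSeries ↥N (n + 2) ≤ lowKer N (E + 1) := by
  have hnil : Group.IsNilpotent ↥(derivedSeries ↥N n) := inferInstance
  let K : Subgroup G := (derivedSeries ↥N n).map N.subtype
  have hKn : K.Normal := inferInstance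
  have hKnil : Group.IsNilpotent ↥K := by
    have e := (derivedSeries ↥N n).equivMapOfInjective N.subtype N.subtype_injective
    exact Group.isNilpotent_congr e |>.1 hnil
  have hDK : (derivedSeries ↥N (n + 2)).map N.subtype ≤ K.lowerCentralSeries 2 := by
    rw [show n + 2 = (n + 1) + 1 by ring, derivedSeries_succ, derivedSeries_succ,
      Subgroup.map_commutator, Subgroup.map_commutator, Subgroup.lowerCentralSeries_succ,
      Subgroup.lowerCentralSeries_succ, Subgroup.lowerCentralSeries_zero]
    apply Subgroup.commutator_mono le_rfl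
    exact Subgroup.commutator_le_left _ _
  intro x hx d ρ hρ hd
  by_cases hdE : d ≤ E
  · exact h (derivedSeries_antitone _ (Nat.le_add_right n 2) hx) d ρ hρ hdE
  · have hd' : d = E + 1 := by omega
    subst hd'
    have h1 := lcs_two_le_ker K hKnil ρ hρ (by
      rintro _ ⟨y, hy, rfl⟩ e τ hτ he
      exact h hy e τ hτ (by omega))
    exact h1 (hDK ⟨x, hx, rfl⟩)

/-- the step for groups whose irreducible representations are monomial: one derived step -/
theorem step_one {G : Type*} [Group G] [Finite G] (N : Subgroup G)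
    (hM : ∀ (d : ℕ) (ρ : G →* Matrix (Fin d) (Fin d) ℂ), Irr ρ → IsMonomial ρ) (E n : ℕ)
    (h : derivedSeries ↥N n ≤ lowKer N E) :
    derivedSeries ↥N (n + 1) ≤ lowKer N (E + 1) := by
  rw [derivedSeries_succ, Subgroup.commutator_le]
  intro x hx y hy
  have hx' := h hx
  have hy' := h hy
  intro d ρ hρ hd
  rcases Nat.lt_or_ge d 2 with hd2 | hd2
  · have hcomm : ρ (x : G) * ρ (y : G) = ρ (y : G) * ρ (x : G) := by
      interval_cases d
      · ext i; exact i.elim0
      · ext i j
        have hi : i = 0 := Subsingleton.elim _ _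
        have hj : j = 0 := Subsingleton.elim _ _
        subst hi; subst hj
        simp [Matrix.mul_apply, mul_comm]
    exact map_commutator_eq_one ρ hcomm
  · apply map_commutator_eq_one ρ
    exact commute_of_monomial hd2 ρ (hM d ρ hρ)
      (fun e τ hτ he => hx' e τ hτ (by omega)) (fun e τ hτ he => hy' e τ hτ (by omega))

end Pool.Agent.DLF
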