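import Pool.Agent.DLF.T1

/-!
# [DLF-K1] irreducible representations of a `p`-group have degree a power of `p`

Proof. `P` is nilpotent (`IsPGroup.isNilpotent`). By T1 (`exists_monomial_basis`) there is a basis
`b : Basis (Fin n) ℂ V` with `ρ g (b i) = c • b j`. As in `T2.lean` (`t2_uniq`; you may copy the
argument) `j = π g i` is unique, `c ≠ 0`, and `π` is an action of `P` on `Fin n`
(`MulAction P (Fin n)` or `P →* Equiv.Perm (Fin n)`). It is transitive: for `i₀` (`n > 0` because
`V ≠ 0`), the span of the `b i`, `i` in the orbit of `i₀`, is invariant and nonzero, so it is `⊤`, so the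
orbit is everything (linear independence of `b`). Hence `n = |orbit|` is a power of `p`
(`IsPGroup.card_orbit`), and `finrank ℂ V = n`.
-/

set_option autoImplicit false

namespace Pool.Agent.DLF

open Module

theorem k1_uniq {V : Type*} [AddCommGroup V] [Module ℂ V] {d : ℕ} (b : Basis (Fin d) ℂ V)
    {i j : Fin d} {a c : ℂ} (ha : a ≠ 0) (h : a • b i = c • b j) : j = i := by
  by_contra hne
  have h1 := congrArg (fun v => b.repr v i) h
  simp only [map_smul, Basis.repr_self, Finsupp.smul_apply, smul_eq_mul] at h1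
  rw [Finsupp.single_eq_same, Finsupp.single_eq_of_ne (fun h => hne h.symm)] at h1
  simp at h1
  exact ha h1

theorem finrank_eq_pow {P V : Type*} [Group P] [Finite P] {p : ℕ} [Fact p.Prime]
    (hP : IsPGroup p P) [AddCommGroup V] [Module ℂ V] [FiniteDimensional ℂ V] [Nontrivial V]
    (ρ : P →* Module.End ℂ V)
    (hρ : ∀ W : Submodule ℂ V, (∀ g : P, ∀ v ∈ W, ρ g v ∈ W) → W = ⊥ ∨ W = ⊤) :
    ∃ e : ℕ, finrank ℂ V = p ^ e := by
  have hnil : Group.IsNilpotent P := hP.isNilpotent
  obtain ⟨n, b, hb⟩ := exists_monomial_basis ρ hρ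
  choose π c hπ using hb
  have hinv : ∀ g v, ρ g⁻¹ (ρ g v) = v := by
    intro g v
    rw [← Module.End.mul_apply, ← map_mul, inv_mul_cancel, map_one]
    rfl
  have hc : ∀ g i, c g i ≠ 0 := by
    intro g i h0
    have h1 := hinv g (b i)
    rw [hπ g i, h0, zero_smul, map_zero] at h1
    exact b.ne_zero i h1.symm
  have h1 : ∀ i, π 1 i = i := by
    intro i
    have h2 := hπ 1 i
    rw [map_one] at h2
    apply k1_uniq b (a := 1) one_ne_zero (c := c 1 i)
    rw [one_smul]
    exact h2
  have hm : ∀ g h i, π (g * h) i = π g (π h i) := by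
    intro g h i
    have h2 := hπ (g * h) i
    rw [map_mul, Module.End.mul_apply, hπ h i, map_smul, hπ g (π h i), smul_smul] at h2
    exact k1_uniq b (mul_ne_zero (hc h i) (hc g (π h i))) h2
  let act : MulAction P (Fin n) :=
    { smul := fun g i => π g i
      one_smul := h1
      mul_smul := hm }
  obtain ⟨i₀⟩ := b.index_nonempty
  have hW : Submodule.span ℂ (b '' (MulAction.orbit P i₀)) = ⊤ := by
    refine (hρ _ ?_).resolve_left ?_
    · intro g v hv
      induction hv using Submodule.span_induction with
      | mem v hv =>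
        obtain ⟨i, hi, rfl⟩ := hv
        rw [hπ g i]
        refine Submodule.smul_mem _ _ (Submodule.subset_span ⟨π g i, ?_, rfl⟩)
        obtain ⟨q, hq⟩ := hi
        have hq' : π q i₀ = i := hq
        refine ⟨g * q, ?_⟩
        show π (g * q) i₀ = π g i
        rw [hm, hq']
      | zero => rw [map_zero]; exact Submodule.zero_mem _
      | add u v _ _ hu hv => rw [map_add]; exact Submodule.add_mem _ hu hv
      | smul a v _ hv => rw [map_smul]; exact Submodule.smul_mem _ _ hv
    · intro h0
      have h2 : b i₀ ∈ Submodule.span ℂ (b '' (MulAction.orbit P i₀)) :=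
        Submodule.subset_span ⟨i₀, MulAction.mem_orbit_self i₀, rfl⟩
      rw [h0, Submodule.mem_bot] at h2
      exact b.ne_zero i₀ h2
  have horb : MulAction.orbit P i₀ = Set.univ := by
    rw [Set.eq_univ_iff_forall]
    intro i
    by_contra hi
    have h2 := b.linearIndependent.notMem_span_image hi
    rw [hW] at h2
    exact h2 Submodule.mem_top
  obtain ⟨e, he⟩ := hP.card_orbit i₀
  refine ⟨e, ?_⟩
  rw [finrank_eq_card_basis b, ← he, horb, Nat.card_congr (Equiv.Set.univ (Fin n)), Nat.card_eq_fintype_card]

end Pool.Agent.DLF
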