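import Pool.Agent.DLF.G1

/-!
# [DLF-K2] divisibility of the dimension

If `k` divides the dimension of every irreducible invariant subspace of `V`, then `k` divides `dim V`.

Proof. Show by strong induction on `finrank ℂ Y` that `k ∣ finrank ℂ Y` for every invariant subspace
`Y`, then take `Y = ⊤`. If `Y = ⊥`: `finrank = 0`. If `Y` is irreducible: hypothesis. Otherwise there
is an invariant `Z ≤ Y`, `Z ≠ ⊥`, `Z ≠ Y`; let `U` be an invariant complement of `Z` in `V`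
(`exists_invariant_compl`); `Y = Z ⊔ (Y ⊓ U)` (modular law), `Z ⊓ (Y ⊓ U) = ⊥`, so
`finrank Y = finrank Z + finrank (Y ⊓ U)` (`Submodule.finrank_sup_add_finrank_inf_eq`), both smaller than
`finrank Y` and both invariant.
-/

set_option autoImplicit false

namespace Pool.Agent.DLF

open Module

theorem k2_aux {G V : Type*} [Group G] [Finite G] [AddCommGroup V] [Module ℂ V]
    [FiniteDimensional ℂ V] (ρ : G →* Module.End ℂ V) (k : ℕ)
    (h : ∀ Y : Submodule ℂ V, (∀ g : G, ∀ v ∈ Y, ρ g v ∈ Y) → Y ≠ ⊥ →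
      (∀ Z : Submodule ℂ V, Z ≤ Y → (∀ g : G, ∀ v ∈ Z, ρ g v ∈ Z) → Z = ⊥ ∨ Z = Y) →
      k ∣ finrank ℂ Y) : ∀ (n : ℕ) (Y : Submodule ℂ V), (∀ g : G, ∀ v ∈ Y, ρ g v ∈ Y) →
      finrank ℂ Y = n → k ∣ finrank ℂ Y := by
  intro n
  induction n using Nat.strong_induction_on with
  | _ n ih =>
    intro Y hY hn
    by_cases hb : Y = ⊥
    · rw [hb, finrank_bot]
      exact dvd_zero k
    by_cases hirr : ∀ Z : Submodule ℂ V, Z ≤ Y → (∀ g : G, ∀ v ∈ Z, ρ g v ∈ Z) → Z = ⊥ ∨ Z = Y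
    · exact h Y hY hb hirr
    · push Not at hirr
      obtain ⟨Z, hZY, hZ, hZb, hZne⟩ := hirr
      obtain ⟨U, hU, hZU⟩ := exists_invariant_compl ρ Z hZ
      have h1 : Z ⊔ U ⊓ Y = Y := by
        rw [← sup_inf_assoc_of_le U hZY, hZU.sup_eq_top, top_inf_eq]
      have h2 : Z ⊓ (U ⊓ Y) = ⊥ := by
        rw [← inf_assoc, hZU.inf_eq_bot, bot_inf_eq]
      have h3 := Submodule.finrank_sup_add_finrank_inf_eq Z (U ⊓ Y)
      rw [h1, h2, finrank_bot, add_zero] at h3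
      have h4 : 0 < finrank ℂ Z := by
        rw [Nat.pos_iff_ne_zero, Ne, Submodule.finrank_eq_zero]
        exact hZb
      have h5 : finrank ℂ Z < finrank ℂ Y := Submodule.finrank_lt_finrank_of_lt (lt_of_le_of_ne hZY hZne)
      have h6 := ih (finrank ℂ Z) (by omega) Z hZ rfl
      have h7 := ih (finrank ℂ (U ⊓ Y : Submodule ℂ V)) (by omega) (U ⊓ Y)
        (fun g v hv => ⟨hU g v hv.1, hY g v hv.2⟩) rfl
      rw [h3]
      exact dvd_add h6 h7

theorem dvd_finrank {G V : Type*} [Group G] [Finite G] [AddCommGroup V] [Module ℂ V]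
    [FiniteDimensional ℂ V] (ρ : G →* Module.End ℂ V) (k : ℕ)
    (h : ∀ Y : Submodule ℂ V, (∀ g : G, ∀ v ∈ Y, ρ g v ∈ Y) → Y ≠ ⊥ →
      (∀ Z : Submodule ℂ V, Z ≤ Y → (∀ g : G, ∀ v ∈ Z, ρ g v ∈ Z) → Z = ⊥ ∨ Z = Y) →
      k ∣ finrank ℂ Y) : k ∣ finrank ℂ V := by
  have h1 := k2_aux ρ k h _ ⊤ (fun _ _ _ => Submodule.mem_top) rfl
  rwa [finrank_top] at h1

end Pool.Agent.DLF
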