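import Mathlib

/-!
# [DLF-K3] the induced representation

`P ≤ G` finite, `ψ` a representation of `P` on `U`. Let `W` be the subspace of the functions
`f : G → U` with `f (x * g) = ψ x (f g)` for `x ∈ P`, and `(R g f) h = f (h * g)`.
(1) `finrank ℂ W = P.index * finrank ℂ U`: restriction to representatives `t κ` of the right cosets
`P t` (`Quotient (QuotientGroup.rightRel P)`, its cardinality is `P.index`, see
`Subgroup.index`/`QuotientGroup.card_quotient_rightRel`; or use left cosets and `t κ⁻¹`) is a linear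
equivalence onto the functions from the set of cosets to `U`: each `g` is uniquely `x * t κ`, `x ∈ P`,
and `f g = ψ x (f (t κ))`. (`Module.finrank_pi_fintype`, `Module.finrank_pi`.)
(2) Let `L ≤ P` be normal in `G`, and suppose that only `0` is fixed by all `ψ x`, `x ∈ L`. Let `w ∈ W` be
fixed by all `R x`, `x ∈ L`. For `h : G`, `x ∈ L`: `ψ x (w h) = w (x * h) = w (h * (h⁻¹ * x * h)) =
(R (h⁻¹ * x * h) w) h = w h`. So `w h = 0` for all `h`.
-/

set_option autoImplicit false

namespace Pool.Agent.DLF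

open Module

/-- The functions `f : G → U` with `f (x * g) = ψ x (f g)` for `x ∈ P`. -/
private def k3_W {G : Type*} [Group G] (P : Subgroup G) {U : Type*}
    [AddCommGroup U] [Module ℂ U] (ψ : ↥P →* Module.End ℂ U) : Submodule ℂ (G → U) where
  carrier := {f | ∀ (x : P) (g : G), f (x * g) = ψ x (f g)}
  zero_mem' := by intro x g; simp
  add_mem' := by
    intro a b ha hb x g
    simp [ha x g, hb x g]
  smul_mem' := by
    intro c a ha x g
    simp [ha x g]

private theorem k3_mem {G : Type*} [Group G] {P : Subgroup G} {U : Type*}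
    [AddCommGroup U] [Module ℂ U] {ψ : ↥P →* Module.End ℂ U} {f : G → U} (hf : f ∈ k3_W P ψ)
    (x : P) (g : G) : f (x * g) = ψ x (f g) := hf x g

/-- Right translation on `k3_W`. -/
private def k3_R {G : Type*} [Group G] (P : Subgroup G) {U : Type*}
    [AddCommGroup U] [Module ℂ U] (ψ : ↥P →* Module.End ℂ U) :
    G →* Module.End ℂ ↥(k3_W P ψ) where
  toFun g :=
    { toFun := fun f => ⟨fun h => f.1 (h * g), by
        intro x h
        have := f.2 x (h * g)
        show f.1 (x * h * g) = ψ x (f.1 (h * g))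
        rw [← this, mul_assoc]⟩
      map_add' := by intro a b; rfl
      map_smul' := by intro c a; rfl }
  map_one' := by
    ext f h
    simp
  map_mul' := by
    intro a b
    ext f h
    simp [mul_assoc]

private theorem k3_R_apply {G : Type*} [Group G] {P : Subgroup G} {U : Type*}
    [AddCommGroup U] [Module ℂ U] {ψ : ↥P →* Module.End ℂ U} (g : G) (f : ↥(k3_W P ψ)) (h : G) :
    (k3_R P ψ g f).1 h = f.1 (h * g) := rfl

private theorem k3_out {G : Type*} [Group G] (P : Subgroup G) (g : G) :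
    g * ((QuotientGroup.mk g⁻¹ : G ⧸ P).out) ∈ P := by
  have h : (QuotientGroup.mk ((QuotientGroup.mk g⁻¹ : G ⧸ P).out) : G ⧸ P) =
      QuotientGroup.mk g⁻¹ := QuotientGroup.out_eq' _
  have h2 := QuotientGroup.eq.1 h.symm
  simpa using h2

private theorem k3_finrank {G : Type*} [Group G] [Finite G] (P : Subgroup G) {U : Type*}
    [AddCommGroup U] [Module ℂ U] [FiniteDimensional ℂ U] (ψ : ↥P →* Module.End ℂ U) :
    finrank ℂ (k3_W P ψ) = P.index * finrank ℂ U := by
  classical
  have : Fintype G := Fintype.ofFinite G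
  have : Fintype (G ⧸ P) := Fintype.ofFinite _
  let T : ↥(k3_W P ψ) →ₗ[ℂ] (G ⧸ P → U) :=
    { toFun := fun f κ => f.1 (κ.out)⁻¹
      map_add' := by intro a b; rfl
      map_smul' := by intro c a; rfl }
  have hT : ∀ (f : ↥(k3_W P ψ)) (κ : G ⧸ P), T f κ = f.1 (κ.out)⁻¹ := fun _ _ => rfl
  have hkey : ∀ (f : ↥(k3_W P ψ)) (g : G),
      f.1 g = ψ ⟨_, k3_out P g⟩ (T f (QuotientGroup.mk g⁻¹)) := by
    intro f g
    rw [hT, ← k3_mem f.2]
    simp
  have hinj : Function.Injective T := by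
    intro a b hab
    apply Subtype.ext
    funext g
    rw [hkey a g, hkey b g, hab]
  have hsurj : Function.Surjective T := by
    intro φ
    refine ⟨⟨fun g => ψ ⟨_, k3_out P g⟩ (φ (QuotientGroup.mk g⁻¹)), ?_⟩, ?_⟩
    · intro x g
      have h1 : (QuotientGroup.mk ((x : G) * g)⁻¹ : G ⧸ P) = QuotientGroup.mk g⁻¹ := by
        rw [mul_inv_rev]
        apply QuotientGroup.eq.2
        simp
      have h2 : (⟨_, k3_out P ((x : G) * g)⟩ : P) = x * ⟨_, k3_out P g⟩ := by
        apply Subtype.ext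
        show (x : G) * g * _ = (x : G) * (g * _)
        rw [h1, mul_assoc]
      show ψ ⟨_, k3_out P ((x : G) * g)⟩ (φ (QuotientGroup.mk ((x : G) * g)⁻¹)) =
        ψ x (ψ ⟨_, k3_out P g⟩ (φ (QuotientGroup.mk g⁻¹)))
      rw [h2, map_mul, h1]
      rfl
    · funext κ
      rw [hT]
      show ψ ⟨_, k3_out P (κ.out)⁻¹⟩ (φ (QuotientGroup.mk ((κ.out)⁻¹)⁻¹)) = φ κ
      have h1 : (QuotientGroup.mk ((κ.out)⁻¹)⁻¹ : G ⧸ P) = κ := by
        rw [inv_inv]
        exact QuotientGroup.out_eq' κ
      have h2 : (⟨_, k3_out P (κ.out)⁻¹⟩ : P) = 1 := by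
        apply Subtype.ext
        show (κ.out)⁻¹ * ((QuotientGroup.mk ((κ.out)⁻¹)⁻¹ : G ⧸ P).out) = 1
        rw [h1]
        simp
      rw [h2, map_one, h1]
      rfl
  have e := LinearEquiv.ofBijective T ⟨hinj, hsurj⟩
  rw [e.finrank_eq, Module.finrank_pi_fintype, Finset.sum_const, Finset.card_univ,
    smul_eq_mul, Subgroup.index, Nat.card_eq_fintype_card]

theorem exists_induced {G : Type*} [Group G] [Finite G] (P : Subgroup G) {U : Type*}
    [AddCommGroup U] [Module ℂ U] [FiniteDimensional ℂ U] (ψ : ↥P →* Module.End ℂ U) :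
    ∃ (W : Submodule ℂ (G → U)) (R : G →* Module.End ℂ ↥W),
      finrank ℂ W = P.index * finrank ℂ U ∧
      ∀ (L : Subgroup G) [L.Normal] (hL : L ≤ P),
        (∀ u : U, (∀ (x : G) (hx : x ∈ L), ψ ⟨x, hL hx⟩ u = u) → u = 0) →
        ∀ w : ↥W, (∀ x ∈ L, R x w = w) → w = 0 := by
  refine ⟨k3_W P ψ, k3_R P ψ, k3_finrank P ψ, ?_⟩
  intro L hLn hL hfix w hw
  apply Subtype.ext
  funext h
  show w.1 h = 0
  apply hfix
  intro x hx
  have h1 := k3_mem w.2 ⟨x, hL hx⟩ h
  rw [← h1]
  have h2 : h⁻¹ * x * h ∈ L := by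
    have := hLn.conj_mem x hx h⁻¹
    simpa using this
  have h3 := congrArg (fun v : ↥(k3_W P ψ) => v.1 h) (hw _ h2)
  simp only [k3_R_apply] at h3
  show w.1 (x * h) = w.1 h
  rw [← h3]
  group

end Pool.Agent.DLF
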