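import Pool.Agent.DLF.M1
import Pool.Agent.DLF.K1
import Pool.Agent.DLF.K2
import Pool.Agent.DLF.K3
import Pool.Agent.DLF.H4

/-!
# [DLF-K4] small degrees of a Sylow subgroup
-/

set_option autoImplicit false

namespace Pool.Agent.DLF

open Module
open scoped commutatorElement

/-- Let `L ≤ P` be normal in `G`, `P` a Sylow `p`-subgroup, and suppose that `L` is in the kernel of
every irreducible representation of `G` whose degree is not divisible by `p ^ a`. Then `L` is in
the kernel of every irreducible representation of `P` of degree less than `p ^ a`. -/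
theorem small_degree_kills {G : Type*} [Group G] [Finite G] {p : ℕ} [Fact p.Prime]
    (P : Sylow p G) (L : Subgroup G) [hLn : L.Normal] (hLP : L ≤ (P : Subgroup G)) (a : ℕ)
    (hL : ∀ (d : ℕ) (ρ : G →* Matrix (Fin d) (Fin d) ℂ), Irr ρ → ¬ p ^ a ∣ d → ∀ x ∈ L, ρ x = 1)
    (n : ℕ) (ψ : ↥(P : Subgroup G) →* Matrix (Fin n) (Fin n) ℂ) (hψ : Irr ψ) (hn : n < p ^ a)
    (x : G) (hx : x ∈ L) : ψ ⟨x, hLP hx⟩ = 1 := by
  classical
  rcases Nat.eq_zero_or_pos n with rfl | hn0
  · ext i; exact i.elim0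
  -- the space of vectors fixed by `L`
  let F : Submodule ℂ (Fin n → ℂ) :=
    { carrier := {u | ∀ (x : G) (hx : x ∈ L), Matrix.mulVec (ψ ⟨x, hLP hx⟩) u = u}
      add_mem' := by
        intro u v hu hv x hx
        rw [Matrix.mulVec_add, hu x hx, hv x hx]
      zero_mem' := by
        intro x hx
        rw [Matrix.mulVec_zero]
      smul_mem' := by
        intro c u hu x hx
        rw [Matrix.mulVec_smul, hu x hx] }
  have hFinv : ∀ g : ↥(P : Subgroup G), ∀ v ∈ F, Matrix.mulVec (ψ g) v ∈ F := by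
    intro g v hv x hx
    have hx' : (g : G)⁻¹ * x * (g : G)⁻¹⁻¹ ∈ L := hLn.conj_mem x hx _
    have h1 := hv _ hx'
    have h2 : (⟨x, hLP hx⟩ : ↥(P : Subgroup G)) * g
        = g * ⟨(g : G)⁻¹ * x * (g : G)⁻¹⁻¹, hLP hx'⟩ := by
      apply Subtype.ext
      simp only [Subgroup.coe_mul]
      group
    rw [Matrix.mulVec_mulVec, ← map_mul, h2, map_mul, ← Matrix.mulVec_mulVec, h1]
  rcases hψ F hFinv with hF | hF
  swap
  · -- everything is fixed
    have h1 : ∀ u : Fin n → ℂ, Matrix.mulVec (ψ ⟨x, hLP hx⟩) u = u := by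
      intro u
      have : u ∈ F := by rw [hF]; trivial
      exact this x hx
    apply Matrix.toLin'.injective
    apply LinearMap.ext
    intro u
    rw [Matrix.toLin'_apply, h1, Matrix.toLin'_one]
    rfl
  · exfalso
    obtain ⟨W, R, hdim, hfix⟩ := exists_induced (P : Subgroup G) (toEnd ψ)
    have hfix' := hfix L hLP (by
      intro u hu
      have : u ∈ F := by
        intro x hx
        have := hu x hx
        rwa [toEnd_apply] at this
      rw [hF] at this
      exact this)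
    have hdvd : p ^ a ∣ finrank ℂ W := by
      apply dvd_finrank R
      intro Y hYinv hY0 hYirr
      by_contra hnd
      obtain ⟨ρ', hρ', T, hTinj, hTr, hTe⟩ := exists_matrix_rep R Y hYinv hYirr
      have h1 := hL _ ρ' hρ' hnd
      apply hY0
      rw [eq_bot_iff]
      intro y hy
      rw [Submodule.mem_bot]
      apply hfix'
      intro x hx
      have h2 : y ∈ LinearMap.range T := by rw [hTr]; exact hy
      obtain ⟨v, rfl⟩ := h2
      rw [← hTe, h1 x hx, Matrix.one_mulVec]
    rw [hdim] at hdvd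
    have hcop : Nat.Coprime (p ^ a) (P : Subgroup G).index := by
      apply Nat.Coprime.pow_left
      rw [Nat.Prime.coprime_iff_not_dvd (Fact.out : p.Prime)]
      exact P.not_dvd_index
    have h3 : p ^ a ∣ finrank ℂ (Fin n → ℂ) := hcop.dvd_of_dvd_mul_left hdvd
    rw [Module.finrank_fin_fun] at h3
    exact absurd (Nat.le_of_dvd hn0 h3) (by omega)

/-- The step of the `p`-part version of Taketa's theorem. -/
theorem step_p {G : Type*} [Group G] [Finite G] {p : ℕ} [hp : Fact p.Prime]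
    (P : Sylow p G) (L : Subgroup G) [hLn : L.Normal] (hLP : L ≤ (P : Subgroup G)) (a : ℕ)
    (hL : ∀ (d : ℕ) (ρ : G →* Matrix (Fin d) (Fin d) ℂ), Irr ρ → ¬ p ^ a ∣ d → ∀ x ∈ L, ρ x = 1)
    (d : ℕ) (ρ : G →* Matrix (Fin d) (Fin d) ℂ) (hρ : Irr ρ) (hd : ¬ p ^ (a + 1) ∣ d) :
    ∀ z ∈ ⁅L, L⁆, ρ z = 1 := by
  classical
  have hLL : (⁅L, L⁆ : Subgroup G).Normal := inferInstance
  -- the space of vectors fixed by `⁅L, L⁆`
  let F : Submodule ℂ (Fin d → ℂ) :=
    { carrier := {u | ∀ z ∈ ⁅L, L⁆, Matrix.mulVec (ρ z) u = u}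
      add_mem' := by
        intro u v hu hv x hx
        rw [Matrix.mulVec_add, hu x hx, hv x hx]
      zero_mem' := by
        intro x hx
        rw [Matrix.mulVec_zero]
      smul_mem' := by
        intro c u hu x hx
        rw [Matrix.mulVec_smul, hu x hx] }
  have hFinv : ∀ g : G, ∀ v ∈ F, Matrix.mulVec (ρ g) v ∈ F := by
    intro g v hv x hx
    have hx' : g⁻¹ * x * g⁻¹⁻¹ ∈ ⁅L, L⁆ := hLL.conj_mem x hx _
    have h1 := hv _ hx'
    have h2 : x * g = g * (g⁻¹ * x * g⁻¹⁻¹) := by group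
    rw [Matrix.mulVec_mulVec, ← map_mul, h2, map_mul, ← Matrix.mulVec_mulVec, h1]
  have hFtop : F = ⊤ := by
    rcases hρ F hFinv with hF | hF
    swap
    · exact hF
    exfalso
    -- a small irreducible constituent of the restriction to `P`
    let RP : ↥(P : Subgroup G) →* Module.End ℂ (Fin d → ℂ) :=
      (toEnd ρ).comp (P : Subgroup G).subtype
    have hRP : ∀ (g : ↥(P : Subgroup G)) v, RP g v = Matrix.mulVec (ρ (g : G)) v := by
      intro g v
      exact toEnd_apply ρ _ v
    have hex : ∃ Y : Submodule ℂ (Fin d → ℂ), (∀ g : ↥(P : Subgroup G), ∀ v ∈ Y, RP g v ∈ Y) ∧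
        Y ≠ ⊥ ∧ (∀ Z : Submodule ℂ (Fin d → ℂ), Z ≤ Y →
          (∀ g : ↥(P : Subgroup G), ∀ v ∈ Z, RP g v ∈ Z) → Z = ⊥ ∨ Z = Y) ∧
        ¬ p ^ (a + 1) ∣ finrank ℂ Y := by
      by_contra hcon
      push Not at hcon
      apply hd
      have h1 := dvd_finrank RP (p ^ (a + 1)) (fun Y h1 h2 h3 => hcon Y h1 h2 h3)
      rwa [Module.finrank_fin_fun] at h1
    obtain ⟨Y, hYinv, hY0, hYirr, hYnd⟩ := hex
    obtain ⟨n, ψ, hn, hψ, T, hTinj, hTr, hTe⟩ := exists_matrix_rep' RP Y hYinv hYirr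
    rw [← hn] at hYnd
    have hn0 : 0 < n := by
      rw [hn]
      exact Module.finrank_pos_iff.2 ((Submodule.nontrivial_iff_ne_bot).2 hY0)
    have hnt : Nontrivial (Fin n → ℂ) := by
      have : Nonempty (Fin n) := ⟨⟨0, hn0⟩⟩
      infer_instance
    have hPp : IsPGroup p ↥(P : Subgroup G) := P.isPGroup'
    obtain ⟨e, he⟩ := finrank_eq_pow hPp (toEnd ψ) (by
      intro W hW
      apply hψ W
      intro g v hv
      have := hW g v hv
      rwa [toEnd_apply] at this)
    rw [Module.finrank_fin_fun] at he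
    have hea : e ≤ a := by
      by_contra hlt
      apply hYnd
      rw [he]
      exact pow_dvd_pow p (by omega)
    have hnpa : n ≤ p ^ a := by
      rw [he]
      exact Nat.pow_le_pow_right hp.out.pos hea
    have hnil : Group.IsNilpotent ↥(P : Subgroup G) := hPp.isNilpotent
    have hsmall : ∀ (x : G) (hx : x ∈ L) (m : ℕ)
        (τ : ↥(P : Subgroup G) →* Matrix (Fin m) (Fin m) ℂ), Irr τ → m ≤ n - 1 →
        τ ⟨x, hLP hx⟩ = 1 := by
      intro x hx m τ hτ hm
      exact small_degree_kills P L hLP a hL m τ hτ (by omega) x hx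
    have hcomm : ∀ (x : G) (hx : x ∈ L) (y : G) (hy : y ∈ L),
        ψ ⟨x, hLP hx⟩ * ψ ⟨y, hLP hy⟩ = ψ ⟨y, hLP hy⟩ * ψ ⟨x, hLP hx⟩ := by
      intro x hx y hy
      rcases Nat.lt_or_ge n 2 with h2 | h2
      · have hn1 : n = 1 := by omega
        subst hn1
        ext i j
        have hi : i = 0 := Subsingleton.elim _ _
        have hj : j = 0 := Subsingleton.elim _ _
        subst hi; subst hj
        simp [Matrix.mul_apply, mul_comm]
      · exact commute_of_monomial h2 ψ (isMonomial_of_nilpotent ψ hψ) (hsmall x hx) (hsmall y hy)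
    -- `⁅L, L⁆` is in the kernel of `ψ`
    have hkill : ∀ z (hz : z ∈ ⁅L, L⁆), ψ ⟨z, hLP (Subgroup.commutator_le_left L L hz)⟩ = 1 := by
      have hle : ⁅L, L⁆ ≤ (kerM ψ).map (P : Subgroup G).subtype := by
        rw [Subgroup.commutator_le]
        intro x hx y hy
        refine ⟨⁅(⟨x, hLP hx⟩ : ↥(P : Subgroup G)), (⟨y, hLP hy⟩ : ↥(P : Subgroup G))⁆, ?_, ?_⟩
        · exact map_commutator_eq_one ψ (hcomm x hx y hy)
        · rw [map_commutatorElement]
          rfl
      intro z hz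
      obtain ⟨w, hw, hwz⟩ := hle hz
      have : (⟨z, hLP (Subgroup.commutator_le_left L L hz)⟩ : ↥(P : Subgroup G)) = w := by
        apply Subtype.ext
        exact hwz.symm
      rw [this]
      exact hw
    -- so `Y ≤ F`
    apply hY0
    rw [eq_bot_iff, ← hF]
    intro y hy z hz
    have h2 : y ∈ LinearMap.range T := by rw [hTr]; exact hy
    obtain ⟨v, rfl⟩ := h2
    have h3 := hTe ⟨z, hLP (Subgroup.commutator_le_left L L hz)⟩ v
    rw [hRP, hkill z hz, Matrix.one_mulVec] at h3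
    exact h3.symm
  intro z hz
  apply Matrix.toLin'.injective
  apply LinearMap.ext
  intro u
  have hu : u ∈ F := by rw [hFtop]; trivial
  rw [Matrix.toLin'_apply, hu z hz, Matrix.toLin'_one]
  rfl

end Pool.Agent.DLF
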