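import Pool.Agent.DLF.G1

/-!
# [DLF-M1] matrix form of an irreducible invariant subspace
-/

set_option autoImplicit false

namespace Pool.Agent.DLF

open Module

theorem exists_matrix_rep {G V : Type*} [Group G] [AddCommGroup V] [Module ℂ V]
    [FiniteDimensional ℂ V] (ρ : G →* Module.End ℂ V) (Y : Submodule ℂ V)
    (hY : ∀ g : G, ∀ v ∈ Y, ρ g v ∈ Y)
    (hirr : ∀ Z : Submodule ℂ V, Z ≤ Y → (∀ g : G, ∀ v ∈ Z, ρ g v ∈ Z) → Z = ⊥ ∨ Z = Y) :
    ∃ ρ' : G →* Matrix (Fin (finrank ℂ Y)) (Fin (finrank ℂ Y)) ℂ, Irr ρ' ∧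
      ∃ T : (Fin (finrank ℂ Y) → ℂ) →ₗ[ℂ] V, Function.Injective T ∧ LinearMap.range T = Y ∧
        ∀ (g : G) (v : Fin (finrank ℂ Y) → ℂ), T (Matrix.mulVec (ρ' g) v) = ρ g (T v) := by
  classical
  let b := Module.finBasis ℂ Y
  let R : G →* Module.End ℂ Y :=
    { toFun := fun g => (ρ g).restrict (hY g)
      map_one' := by
        apply LinearMap.ext
        intro v
        apply Subtype.ext
        simp [LinearMap.restrict_apply]
      map_mul' := by
        intro g h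
        apply LinearMap.ext
        intro v
        apply Subtype.ext
        simp [LinearMap.restrict_apply] }
  have hR : ∀ g (v : Y), ((R g v : Y) : V) = ρ g v := fun g v => rfl
  let ρ' : G →* Matrix (Fin (finrank ℂ Y)) (Fin (finrank ℂ Y)) ℂ :=
    ((LinearMap.toMatrixAlgEquiv b : _ ≃ₐ[ℂ] _) : Module.End ℂ Y →* _).comp R
  have hρ' : ∀ g, ρ' g = LinearMap.toMatrix b b (R g) := fun g => rfl
  have hvec : ∀ g x, Matrix.mulVec (ρ' g) (b.equivFun x) = b.equivFun (R g x) := by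
    intro g x
    rw [hρ']
    exact LinearMap.toMatrix_mulVec_repr b b (R g) x
  let T : (Fin (finrank ℂ Y) → ℂ) →ₗ[ℂ] V := Y.subtype ∘ₗ b.equivFun.symm.toLinearMap
  have hT : ∀ v, T v = ((b.equivFun.symm v : Y) : V) := fun v => rfl
  have hTinj : Function.Injective T := by
    intro u v huv
    rw [hT, hT] at huv
    exact b.equivFun.symm.injective (Subtype.ext huv)
  have hTr : LinearMap.range T = Y := by
    ext x
    constructor
    · rintro ⟨v, rfl⟩
      rw [hT]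
      exact (b.equivFun.symm v).2
    · intro hx
      refine ⟨b.equivFun ⟨x, hx⟩, ?_⟩
      rw [hT, LinearEquiv.symm_apply_apply]
  have hTe : ∀ (g : G) (v : Fin (finrank ℂ Y) → ℂ), T (Matrix.mulVec (ρ' g) v) = ρ g (T v) := by
    intro g v
    have h1 := hvec g (b.equivFun.symm v)
    rw [LinearEquiv.apply_symm_apply] at h1
    rw [h1, hT, LinearEquiv.symm_apply_apply, hR, hT]
  refine ⟨ρ', ?_, T, hTinj, hTr, hTe⟩
  intro W hW
  rcases hirr (W.map T) (LinearMap.map_le_range.trans hTr.le) (by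
    rintro g _ ⟨v, hv, rfl⟩
    exact ⟨Matrix.mulVec (ρ' g) v, hW g v hv, hTe g v⟩) with h | h
  · left
    rw [eq_bot_iff]
    intro v hv
    have h1 : T v ∈ W.map T := ⟨v, hv, rfl⟩
    rw [h, Submodule.mem_bot] at h1
    rw [Submodule.mem_bot]
    exact hTinj (by rw [h1, map_zero])
  · right
    rw [eq_top_iff]
    intro v _
    have h1 : T v ∈ W.map T := by
      rw [h]
      exact hTr.le ⟨v, rfl⟩
    obtain ⟨w, hw, hwv⟩ := h1
    rw [← hTinj hwv]
    exact hw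

theorem exists_matrix_rep' {G V : Type*} [Group G] [AddCommGroup V] [Module ℂ V]
    [FiniteDimensional ℂ V] (ρ : G →* Module.End ℂ V) (Y : Submodule ℂ V)
    (hY : ∀ g : G, ∀ v ∈ Y, ρ g v ∈ Y)
    (hirr : ∀ Z : Submodule ℂ V, Z ≤ Y → (∀ g : G, ∀ v ∈ Z, ρ g v ∈ Z) → Z = ⊥ ∨ Z = Y) :
    ∃ (n : ℕ) (ρ' : G →* Matrix (Fin n) (Fin n) ℂ), n = finrank ℂ Y ∧ Irr ρ' ∧
      ∃ T : (Fin n → ℂ) →ₗ[ℂ] V, Function.Injective T ∧ LinearMap.range T = Y ∧
        ∀ (g : G) (v : Fin n → ℂ), T (Matrix.mulVec (ρ' g) v) = ρ g (T v) := by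
  obtain ⟨ρ', h1, T, h2, h3, h4⟩ := exists_matrix_rep ρ Y hY hirr
  exact ⟨_, ρ', rfl, h1, T, h2, h3, h4⟩

end Pool.Agent.DLF
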