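import Pool.Agent.DLF.G1

/-!
# [DLF-T1] irreducible representations of nilpotent groups are monomial

`P` finite nilpotent, `ρ` an irreducible representation of `P` on `V ≠ 0`. There is a basis `b` of `V`
such that each `ρ g` maps each `b i` to a multiple of some `b j`.

Proof. Strong induction on `Nat.card P` (for all `P`, `V` in fixed universes).
Let `Z = {z | ρ z is a scalar}`, a normal subgroup of `P`.
Case `Z = ⊤`: every subspace is invariant, so `dim V = 1` and any basis works.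
Case `Z ≠ ⊤`: `P ⧸ Z` is a nontrivial nilpotent group, so it has a nontrivial center
(`Group.IsNilpotent`: `Subgroup.nontrivial_center...` or `isNilpotent_of_...`; alternatively take the
largest `n` with `upperCentralSeries P n ≤ Z` and an element of the next term outside `Z`): there is
`a ∉ Z` with `⁅g, a⁆ = g a g⁻¹ a⁻¹ ∈ Z` for all `g`. So for each `g` there is a scalar `c g` with
`ρ (g a g⁻¹) = c g • ρ a`; `c g ≠ 0`, and `c : P →* ℂˣ` is a homomorphism (`ρ a` is invertible and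
nonzero, so `c g` is unique). Let `T = ker c`, a subgroup. `T ≠ ⊤`: otherwise `ρ a` commutes with all
`ρ g`; it has an eigenvalue (`Module.End.exists_eigenvalue`), the eigenspace is invariant and nonzero,
so it is `⊤` and `ρ a` is a scalar, `a ∈ Z`, a contradiction.
Let `μ` be an eigenvalue of `ρ a`, `E = Module.End.eigenspace (ρ a) μ ≠ ⊥`. `μ ≠ 0` as `ρ a` is
invertible. For `g : P`, `ρ g` maps `E` into `eigenspace (ρ a) (c g⁻¹ * μ)`-type eigenspaces:
`ρ a (ρ g v) = ρ g (ρ (g⁻¹ a g) v) = c(g⁻¹) μ ρ g v`. In particular `E` is invariant under `T`, and for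
`g ∉ T` the image `ρ g E` lies in an eigenspace for an eigenvalue `≠ μ`; more generally for
`g⁻¹ h ∉ T` the eigenvalues of `ρ g E` and `ρ h E` are different.
`E` is irreducible under `T`: let `X ≤ E`, `X ≠ ⊥` be `T`-invariant. `⨆ g, X.map (ρ g)` is
`P`-invariant and nonzero, so `⊤`. Let `v ∈ E`, write `v = ∑ ρ (g_i) x_i`; group by eigenvalues:
eigenspaces for different eigenvalues are independent (`Module.End.eigenspaces_iSupIndep`), so `v` is
the sum of the terms with `g_i ∈ T`, which are in `X`. So `X = E`.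
By the induction hypothesis for `T` acting on `E` (`Nat.card T < Nat.card P`, a subgroup of a
nilpotent group is nilpotent) there is a monomial basis `b' : Basis ι ℂ E`. Let
`t : P ⧸ T → P` be representatives (`Quotient.out`). The family `(κ, i) ↦ ρ (t κ) (b' i)` on
`(P ⧸ T) × ι` is a basis of `V`: it spans a `P`-invariant nonzero subspace; it is linearly independent
because the subspaces `ρ (t κ) E` lie in eigenspaces of pairwise different eigenvalues and `ρ (t κ)` is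
injective. It is monomial: `g * t κ = t κ' * s` with `s ∈ T`, so
`ρ g (ρ (t κ) (b' i)) = ρ (t κ') (ρ s (b' i)) = c • ρ (t κ') (b' j)`.
(The index type is `(P ⧸ T) × ι`; the statement asks for `ι : Type`, so reindex by a `Fin`:
`Fintype.equivFin`, `Module.Basis.reindex`.)
-/

set_option autoImplicit false

namespace Pool.Agent.DLF

open Module

universe u v

theorem t1_inj {P : Type u} {V : Type v} [Group P] [AddCommGroup V] [Module ℂ V]
    (ρ : P →* Module.End ℂ V) (g : P) : Function.Injective (ρ g) := by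
  intro x y h
  have h1 : ρ g⁻¹ (ρ g x) = ρ g⁻¹ (ρ g y) := by rw [h]
  have h2 : ∀ z, ρ g⁻¹ (ρ g z) = z := by
    intro z
    rw [← Module.End.mul_apply, ← map_mul, inv_mul_cancel, map_one, Module.End.one_apply]
  rwa [h2, h2] at h1

theorem t1_exists {P : Type u} {V : Type v} [Group P] [Group.IsNilpotent P] [AddCommGroup V]
    [Module ℂ V] (ρ : P →* Module.End ℂ V)
    (hZ : ¬ ∀ g : P, ∃ c : ℂ, ρ g = c • (1 : Module.End ℂ V)) :
    ∃ a : P, (¬ ∃ c : ℂ, ρ a = c • (1 : Module.End ℂ V)) ∧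
      ∀ g : P, ∃ s : ℂ, ρ a * ρ g = s • (ρ g * ρ a) := by
  classical
  obtain ⟨N, hN⟩ := Group.IsNilpotent.nilpotent P
  have hex : ∃ n : ℕ, ¬ ∀ z ∈ Subgroup.upperCentralSeries P n,
      ∃ c : ℂ, ρ z = c • (1 : Module.End ℂ V) := by
    refine ⟨N, fun h => hZ fun g => h g ?_⟩
    rw [hN]
    exact Subgroup.mem_top g
  obtain ⟨k, hk⟩ : ∃ k, Nat.find hex = k := ⟨_, rfl⟩
  have hspec := Nat.find_spec hex
  rw [hk] at hspec
  have hmin : ∀ m < k, ∀ z ∈ Subgroup.upperCentralSeries P m,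
      ∃ c : ℂ, ρ z = c • (1 : Module.End ℂ V) := by
    intro m hm
    have := Nat.find_min hex (m := m) (by omega)
    exact not_not.1 this
  push Not at hspec
  obtain ⟨a, ha, hac⟩ := hspec
  have hk0 : k ≠ 0 := by
    intro h0
    rw [h0, Subgroup.upperCentralSeries_zero, Subgroup.mem_bot] at ha
    apply hac 1
    rw [ha, map_one, one_smul]
  obtain ⟨m, hm⟩ := Nat.exists_eq_succ_of_ne_zero hk0
  rw [hm] at ha
  refine ⟨a, fun ⟨c, hc⟩ => hac c hc, fun g => ?_⟩
  obtain ⟨s, hs⟩ := hmin m (by omega) (a * g * a⁻¹ * g⁻¹) (Subgroup.mem_upperCentralSeries_succ_iff.1 ha g)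
  refine ⟨s, ?_⟩
  have e : a * g = (a * g * a⁻¹ * g⁻¹) * (g * a) := by
    group
  rw [← map_mul, e, map_mul, hs, map_mul, smul_mul_assoc, one_mul]

/-- the elements commuting with `ρ a` -/
def t1T {P : Type u} {V : Type v} [Group P] [AddCommGroup V] [Module ℂ V]
    (ρ : P →* Module.End ℂ V) (a : P) : Subgroup P where
  carrier := {g | ρ a * ρ g = ρ g * ρ a}
  mul_mem' := by
    intro x y hx hy
    show ρ a * ρ (x * y) = ρ (x * y) * ρ a
    have hx' : ρ a * ρ x = ρ x * ρ a := hx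
    have hy' : ρ a * ρ y = ρ y * ρ a := hy
    rw [map_mul, ← mul_assoc, hx', mul_assoc, hy', mul_assoc]
  one_mem' := by
    show ρ a * ρ 1 = ρ 1 * ρ a
    rw [map_one, mul_one, one_mul]
  inv_mem' := by
    intro x hx
    have hx' : ρ a * ρ x = ρ x * ρ a := hx
    show ρ a * ρ x⁻¹ = ρ x⁻¹ * ρ a
    have e1 : ρ x⁻¹ * ρ x = 1 := by rw [← map_mul, inv_mul_cancel, map_one]
    have e2 : ρ x * ρ x⁻¹ = 1 := by rw [← map_mul, mul_inv_cancel, map_one]
    calc ρ a * ρ x⁻¹ = (ρ x⁻¹ * ρ x) * (ρ a * ρ x⁻¹) := by rw [e1, one_mul]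
      _ = ρ x⁻¹ * (ρ x * ρ a) * ρ x⁻¹ := by simp only [mul_assoc]
      _ = ρ x⁻¹ * (ρ a * ρ x) * ρ x⁻¹ := by rw [hx']
      _ = ρ x⁻¹ * ρ a * (ρ x * ρ x⁻¹) := by simp only [mul_assoc]
      _ = ρ x⁻¹ * ρ a := by rw [e2, mul_one]

theorem t1_ne {P : Type u} {V : Type v} [Group P] [AddCommGroup V] [Module ℂ V] [Nontrivial V]
    {ρ : P →* Module.End ℂ V} {a : P} {s : P → ℂ} (hs : ∀ g, ρ a * ρ g = s g • (ρ g * ρ a)) (g : P) :
    s g ≠ 0 := by
  intro h0
  obtain ⟨v, hv⟩ := exists_ne (0 : V)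
  have h1 := congrArg (fun f : Module.End ℂ V => f v) (hs g)
  simp only [h0, zero_smul, LinearMap.zero_apply, Module.End.mul_apply] at h1
  apply hv
  apply t1_inj ρ g
  apply t1_inj ρ a
  rw [h1, map_zero, map_zero]

theorem t1_sep {P : Type u} {V : Type v} [Group P] [AddCommGroup V] [Module ℂ V] [Nontrivial V]
    {ρ : P →* Module.End ℂ V} {a : P} {s : P → ℂ} (hs : ∀ g, ρ a * ρ g = s g • (ρ g * ρ a))
    {g h : P} (hgh : s g = s h) : g⁻¹ * h ∈ t1T ρ a := by
  show ρ a * ρ (g⁻¹ * h) = ρ (g⁻¹ * h) * ρ a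
  have e1 : ρ g⁻¹ * ρ g = 1 := by rw [← map_mul, inv_mul_cancel, map_one]
  have e2 : ρ h = ρ g * ρ (g⁻¹ * h) := by rw [← map_mul, mul_inv_cancel_left]
  have h1 := hs h
  rw [e2, ← mul_assoc, hs g, ← hgh, smul_mul_assoc] at h1
  have h2 : ρ g * ρ a * ρ (g⁻¹ * h) = ρ g * ρ (g⁻¹ * h) * ρ a := smul_right_injective _ (t1_ne hs g) h1
  calc ρ a * ρ (g⁻¹ * h) = ρ g⁻¹ * (ρ g * ρ a * ρ (g⁻¹ * h)) := by
        rw [← mul_assoc, ← mul_assoc, e1, one_mul]
    _ = ρ g⁻¹ * (ρ g * ρ (g⁻¹ * h) * ρ a) := by rw [h2]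
    _ = ρ (g⁻¹ * h) * ρ a := by rw [← mul_assoc, ← mul_assoc, e1, one_mul]

theorem t1_eig {P : Type u} {V : Type v} [Group P] [AddCommGroup V] [Module ℂ V]
    {ρ : P →* Module.End ℂ V} {a : P} {s : P → ℂ} (hs : ∀ g, ρ a * ρ g = s g • (ρ g * ρ a))
    {μ : ℂ} {w : V} (hw : w ∈ Module.End.eigenspace (ρ a) μ) (g : P) :
    ρ g w ∈ Module.End.eigenspace (ρ a) (s g * μ) := by
  rw [Module.End.mem_eigenspace_iff] at hw ⊢
  have h1 := congrArg (fun f : Module.End ℂ V => f w) (hs g)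
  simp only [Module.End.mul_apply, LinearMap.smul_apply] at h1
  rw [h1, hw, map_smul, smul_smul]

theorem t1_irr {P : Type u} {V : Type v} [Group P] [AddCommGroup V] [Module ℂ V] [Nontrivial V]
    {ρ : P →* Module.End ℂ V}
    (hρ : ∀ W : Submodule ℂ V, (∀ g : P, ∀ v ∈ W, ρ g v ∈ W) → W = ⊥ ∨ W = ⊤)
    {a : P} {s : P → ℂ} (hs : ∀ g, ρ a * ρ g = s g • (ρ g * ρ a)) {μ : ℂ} (hμ : μ ≠ 0)
    (X : Submodule ℂ V) (hXE : X ≤ Module.End.eigenspace (ρ a) μ) (hX0 : X ≠ ⊥)
    (hXT : ∀ t ∈ t1T ρ a, ∀ v ∈ X, ρ t v ∈ X) : Module.End.eigenspace (ρ a) μ ≤ X := by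
  have h1 : (⨆ g : P, X.map (ρ g)) = ⊥ ∨ (⨆ g : P, X.map (ρ g)) = ⊤ := by
    apply hρ
    intro g v hv
    have h2 : (⨆ g : P, X.map (ρ g)).map (ρ g) ≤ ⨆ g : P, X.map (ρ g) := by
      rw [Submodule.map_iSup]
      apply iSup_le
      intro k
      refine le_trans ?_ (le_iSup (fun g : P => X.map (ρ g)) (g * k))
      rintro _ ⟨_, ⟨x, hx, rfl⟩, rfl⟩
      refine ⟨x, hx, ?_⟩
      rw [map_mul, Module.End.mul_apply]
    exact h2 (Submodule.mem_map_of_mem hv)
  have h2 : (⨆ g : P, X.map (ρ g)) = ⊤ := by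
    rcases h1 with h1 | h1
    · exfalso
      apply hX0
      rw [eq_bot_iff] at h1 ⊢
      intro x hx
      have h3 : x ∈ X.map (ρ 1) := ⟨x, hx, by rw [map_one, Module.End.one_apply]⟩
      exact h1 ((le_iSup (fun g : P => X.map (ρ g)) 1) h3)
    · exact h1
  have h3 : (⨆ g : P, X.map (ρ g)) ≤ X ⊔ ⨆ l : ℂ, ⨆ _ : l ≠ μ, Module.End.eigenspace (ρ a) l := by
    apply iSup_le
    intro g
    by_cases hg : g ∈ t1T ρ a
    · refine le_trans ?_ le_sup_left
      rintro _ ⟨x, hx, rfl⟩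
      exact hXT g hg x hx
    · refine le_trans ?_ le_sup_right
      have hne : s g * μ ≠ μ := by
        intro h4
        apply hg
        have h5 : s g = 1 := by
          have h6 : s g * μ = 1 * μ := by rw [h4, one_mul]
          exact mul_right_cancel₀ hμ h6
        show ρ a * ρ g = ρ g * ρ a
        rw [hs g, h5, one_smul]
      refine le_trans ?_ (le_iSup₂_of_le (s g * μ) hne le_rfl)
      rintro _ ⟨x, hx, rfl⟩
      exact t1_eig hs (hXE hx) g
  rw [h2] at h3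
  intro w hw
  obtain ⟨x, hx, y, hy, hxy⟩ := Submodule.mem_sup.1 (h3 (Submodule.mem_top (x := w)))
  have h4 : y ∈ Module.End.eigenspace (ρ a) μ := by
    have h5 : y = w - x := by rw [← hxy, add_sub_cancel_left]
    rw [h5]
    exact Submodule.sub_mem _ hw (hXE hx)
  have h5 := (Submodule.disjoint_def.1 (Module.End.eigenspaces_iSupIndep (ρ a) μ)) y h4 hy
  rw [h5, add_zero] at hxy
  rw [← hxy]
  exact hx

theorem t1_main (n : ℕ) : ∀ (P : Type u) (V : Type v) [Group P] [Finite P] [Group.IsNilpotent P]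
    [AddCommGroup V] [Module ℂ V] [FiniteDimensional ℂ V] [Nontrivial V]
    (ρ : P →* Module.End ℂ V)
    (_ : ∀ W : Submodule ℂ V, (∀ g : P, ∀ v ∈ W, ρ g v ∈ W) → W = ⊥ ∨ W = ⊤) (_ : Nat.card P = n),
    ∃ (n : ℕ) (b : Basis (Fin n) ℂ V), ∀ (g : P) (i : Fin n), ∃ (j : Fin n) (c : ℂ),
      ρ g (b i) = c • b j := by
  induction n using Nat.strong_induction_on with
  | _ n ih =>
  intro P V _ _ _ _ _ _ _ ρ hρ hn
  classical
  by_cases hZ : ∀ g : P, ∃ c : ℂ, ρ g = c • (1 : Module.End ℂ V)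
  · refine ⟨_, Module.finBasis ℂ V, fun g i => ?_⟩
    obtain ⟨c, hc⟩ := hZ g
    refine ⟨i, c, ?_⟩
    rw [hc]
    rfl
  obtain ⟨a, ha, hcomm⟩ := t1_exists ρ hZ
  choose s hs using hcomm
  obtain ⟨μ, hμ⟩ := Module.End.exists_eigenvalue (ρ a)
  have hE0 : Module.End.eigenspace (ρ a) μ ≠ ⊥ := hμ
  have hμ0 : μ ≠ 0 := by
    rintro rfl
    apply hE0
    rw [eq_bot_iff]
    intro x hx
    rw [Module.End.mem_eigenspace_iff, zero_smul] at hx
    rw [Submodule.mem_bot]
    apply t1_inj ρ a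
    rw [hx, map_zero]
  set E := Module.End.eigenspace (ρ a) μ with hE
  set T := t1T ρ a with hT
  have hTE : ∀ t : T, ∀ v ∈ E, ρ t v ∈ E := by
    intro t v hv
    rw [hE, Module.End.mem_eigenspace_iff] at hv ⊢
    have h1 : ρ a * ρ (t : P) = ρ (t : P) * ρ a := t.2
    have h2 := congrArg (fun f : Module.End ℂ V => f v) h1
    simp only [Module.End.mul_apply] at h2
    rw [h2, hv, map_smul]
  let σ : T →* Module.End ℂ E :=
    { toFun := fun t => (ρ (t : P)).restrict (hTE t)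
      map_one' := by
        ext x
        simp
      map_mul' := by
        intro x y
        ext z
        simp [LinearMap.restrict_apply] }
  have hσ : ∀ (t : T) (x : E), ((σ t x : E) : V) = ρ (t : P) (x : V) := fun t x => rfl
  have hTtop : T ≠ ⊤ := by
    intro h1
    have h2 : E = ⊥ ∨ E = ⊤ := by
      apply hρ
      intro g v hv
      exact hTE ⟨g, by rw [h1]; exact Subgroup.mem_top g⟩ v hv
    rcases h2 with h2 | h2
    · exact hE0 h2
    · apply ha
      refine ⟨μ, ?_⟩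
      ext v
      have h3 : v ∈ E := by rw [h2]; exact Submodule.mem_top
      rw [hE, Module.End.mem_eigenspace_iff] at h3
      rw [h3]
      rfl
  have hσirr : ∀ W : Submodule ℂ E, (∀ t : T, ∀ x ∈ W, σ t x ∈ W) → W = ⊥ ∨ W = ⊤ := by
    intro W hW
    by_cases hW0 : W = ⊥
    · exact Or.inl hW0
    right
    have h1 : E ≤ W.map E.subtype := by
      refine t1_irr hρ hs hμ0 (W.map E.subtype) ?_ ?_ ?_
      · rintro _ ⟨x, _, rfl⟩
        exact x.2
      · intro h2
        apply hW0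
        rw [eq_bot_iff]
        intro x hx
        have h3 : (x : V) ∈ W.map E.subtype := ⟨x, hx, rfl⟩
        rw [h2, Submodule.mem_bot] at h3
        rw [Submodule.mem_bot]
        exact Subtype.ext h3
      · rintro t ht _ ⟨x, hx, rfl⟩
        exact ⟨σ ⟨t, ht⟩ x, hW ⟨t, ht⟩ x hx, rfl⟩
    rw [eq_top_iff]
    intro x _
    obtain ⟨y, hy, hyx⟩ := h1 x.2
    have h2 : y = x := Subtype.ext hyx
    rw [← h2]
    exact hy
  have hcard : Nat.card T < n := by
    rw [← hn]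
    by_contra hcon
    exact hTtop (Subgroup.eq_top_of_le_card T (not_lt.1 hcon))
  have hEnt : Nontrivial E := Submodule.nontrivial_iff_ne_bot.2 hE0
  obtain ⟨m, b', hb'⟩ := ih (Nat.card T) hcard T E σ hσirr rfl
  -- representatives
  let r : P ⧸ T → P := Quotient.out
  have hr : ∀ κ : P ⧸ T, ((r κ : P) : P ⧸ T) = κ := fun κ => Quotient.out_eq' κ
  let W : P ⧸ T → Submodule ℂ V := fun κ => E.map (ρ (r κ))
  -- the step
  have hstep : ∀ (g : P) (κ : P ⧸ T), ∃ (κ' : P ⧸ T) (t : T), g * r κ = r κ' * (t : P) := by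
    intro g κ
    refine ⟨((g * r κ : P) : P ⧸ T), ⟨(r ((g * r κ : P) : P ⧸ T))⁻¹ * (g * r κ), ?_⟩, ?_⟩
    · rw [← QuotientGroup.eq]
      exact hr _
    · rw [mul_inv_cancel_left]
  have hWind : iSupIndep W := by
    have h1 := Module.End.eigenspaces_iSupIndep (ρ a)
    have hinj : Function.Injective (fun κ : P ⧸ T => s (r κ) * μ) := by
      intro κ κ' hκ
      have h2 : s (r κ) = s (r κ') := mul_right_cancel₀ hμ0 hκ
      have h3 := t1_sep hs h2
      rw [← hr κ, ← hr κ']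
      exact QuotientGroup.eq.2 h3
    refine (h1.comp hinj).mono ?_
    rintro κ _ ⟨x, hx, rfl⟩
    exact t1_eig hs hx (r κ)
  have hWtop : iSup W = ⊤ := by
    have h1 : iSup W = ⊥ ∨ iSup W = ⊤ := by
      apply hρ
      intro g v hv
      have h2 : (iSup W).map (ρ g) ≤ iSup W := by
        rw [Submodule.map_iSup]
        apply iSup_le
        intro κ
        obtain ⟨κ', t, ht⟩ := hstep g κ
        refine le_trans ?_ (le_iSup W κ')
        rintro _ ⟨_, ⟨x, hx, rfl⟩, rfl⟩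
        refine ⟨ρ (t : P) x, hTE t x hx, ?_⟩
        rw [← Module.End.mul_apply, ← map_mul, ← ht, map_mul, Module.End.mul_apply]
      exact h2 (Submodule.mem_map_of_mem hv)
    rcases h1 with h1 | h1
    · exfalso
      apply hE0
      rw [eq_bot_iff] at h1 ⊢
      intro x hx
      have h3 : ρ (r ((1 : P) : P ⧸ T)) x ∈ W ((1 : P) : P ⧸ T) := ⟨x, hx, rfl⟩
      have h4 := h1 ((le_iSup W ((1 : P) : P ⧸ T)) h3)
      rw [Submodule.mem_bot] at h4 ⊢
      apply t1_inj ρ (r ((1 : P) : P ⧸ T))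
      rw [h4, map_zero]
    · exact h1
  have hint : DirectSum.IsInternal W := DirectSum.isInternal_submodule_of_iSupIndep_of_iSup_eq_top hWind hWtop
  let bW : ∀ κ : P ⧸ T, Basis (Fin m) ℂ (W κ) := fun κ =>
    b'.map (Submodule.equivMapOfInjective (ρ (r κ)) (t1_inj ρ (r κ)) E)
  have hbW : ∀ (κ : P ⧸ T) (i : Fin m), ((bW κ i : W κ) : V) = ρ (r κ) (b' i : V) := by
    intro κ i
    show ((b'.map (Submodule.equivMapOfInjective (ρ (r κ)) (t1_inj ρ (r κ)) E)) i : V) = _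
    rw [Basis.map_apply]
    exact Submodule.coe_equivMapOfInjective_apply (ρ (r κ)) (t1_inj ρ (r κ)) E (b' i)
  let B : Basis (Σ _ : P ⧸ T, Fin m) ℂ V := hint.collectedBasis bW
  have hB : ∀ (κ : P ⧸ T) (i : Fin m), B ⟨κ, i⟩ = ρ (r κ) (b' i : V) := by
    intro κ i
    show hint.collectedBasis bW ⟨κ, i⟩ = _
    rw [DirectSum.IsInternal.collectedBasis_coe]
    exact hbW κ i
  have : Finite (P ⧸ T) := inferInstance
  have : Finite (Σ _ : P ⧸ T, Fin m) := inferInstance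
  let e : (Σ _ : P ⧸ T, Fin m) ≃ Fin (Nat.card (Σ _ : P ⧸ T, Fin m)) := Finite.equivFin _
  refine ⟨Nat.card (Σ _ : P ⧸ T, Fin m), B.reindex e, ?_⟩
  intro g i
  obtain ⟨⟨κ, j⟩, rfl⟩ := e.surjective i
  obtain ⟨κ', t, ht⟩ := hstep g κ
  obtain ⟨j', c, hc⟩ := hb' t j
  refine ⟨e ⟨κ', j'⟩, c, ?_⟩
  rw [Basis.reindex_apply, Basis.reindex_apply, Equiv.symm_apply_apply, Equiv.symm_apply_apply, hB, hB,
    ← Module.End.mul_apply, ← map_mul, ht, map_mul, Module.End.mul_apply, ← hσ, hc, Submodule.coe_smul, map_smul]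

theorem exists_monomial_basis {P V : Type*} [Group P] [Finite P] [Group.IsNilpotent P]
    [AddCommGroup V] [Module ℂ V] [FiniteDimensional ℂ V] [Nontrivial V]
    (ρ : P →* Module.End ℂ V)
    (hρ : ∀ W : Submodule ℂ V, (∀ g : P, ∀ v ∈ W, ρ g v ∈ W) → W = ⊥ ∨ W = ⊤) :
    ∃ (n : ℕ) (b : Basis (Fin n) ℂ V), ∀ (g : P) (i : Fin n), ∃ (j : Fin n) (c : ℂ),
      ρ g (b i) = c • b j := by
  exact t1_main (Nat.card P) P V ρ hρ rfl

end Pool.Agent.DLF
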