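import Pool.Agent.DLF.G1

/-!
# [DLF-V1] small normal sections are centralised

`G` finite, `N`, `U ≤ V` normal in `G`. If `N` is in the kernel of every irreducible representation of
`G` of degree less than `u`, and `⁅V, N⁆` is not contained in `U`, then `|V : U| ≥ u`.

Proof. Suppose `|V : U| < u`. `G` acts by conjugation on the finite set `X` of cosets of `U` in `V`
(`X = ↥V ⧸ U.subgroupOf V`, or the image of `V` in `G ⧸ U`), `Nat.card X = U.relIndex V`. Let
`R : G →* Module.End ℂ (X → ℂ)`, `(R g f) x = f (g⁻¹ • x)`. `finrank ℂ (X → ℂ) = |X| < u`. For `x ∈ X` and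
`f : X → ℂ` the coefficient `g ↦ (R g f) x` is in `coeffSpan G |X|` (`coeff_mem` of G1), and every
`F ∈ coeffSpan G |X|` satisfies `F n = F 1` for `n ∈ N` (`Submodule.span_induction`: the irreducible
representations of degree `≤ |X| < u` are trivial on `N`). So `R n = 1` for `n ∈ N`, hence `N` acts
trivially on `X`: `n v n⁻¹ ∈ v U` for all `v ∈ V`, so `⁅v, n⁆ ∈ U` and `⁅V, N⁆ ≤ U`, a contradiction.
-/

set_option autoImplicit false

namespace Pool.Agent.DLF

/-- conjugation on the quotient `V / U` -/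
noncomputable def v1_sig {G : Type*} [Group G] (U V : Subgroup G) [U.Normal] [V.Normal] (g : G) :
    ↥V ⧸ U.subgroupOf V →* ↥V ⧸ U.subgroupOf V :=
  QuotientGroup.map (U.subgroupOf V) (U.subgroupOf V) (MulAut.conjNormal g : MulAut V).toMonoidHom (by
    intro v hv
    rw [Subgroup.mem_comap, Subgroup.mem_subgroupOf]
    rw [Subgroup.mem_subgroupOf] at hv
    show ((MulAut.conjNormal g v : V) : G) ∈ U
    rw [MulAut.conjNormal_apply]
    exact (inferInstance : U.Normal).conj_mem _ hv g)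

theorem v1_sig_mk {G : Type*} [Group G] (U V : Subgroup G) [U.Normal] [V.Normal] (g : G) (v : V) :
    v1_sig U V g (QuotientGroup.mk v) = QuotientGroup.mk (MulAut.conjNormal g v) := rfl

theorem v1_sig_mul {G : Type*} [Group G] (U V : Subgroup G) [U.Normal] [V.Normal] (g h : G)
    (x : ↥V ⧸ U.subgroupOf V) : v1_sig U V (g * h) x = v1_sig U V g (v1_sig U V h x) := by
  induction x using QuotientGroup.induction_on with
  | H v =>
    rw [v1_sig_mk, v1_sig_mk, v1_sig_mk, map_mul]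
    rfl

theorem v1_sig_one {G : Type*} [Group G] (U V : Subgroup G) [U.Normal] [V.Normal]
    (x : ↥V ⧸ U.subgroupOf V) : v1_sig U V 1 x = x := by
  induction x using QuotientGroup.induction_on with
  | H v =>
    rw [v1_sig_mk, map_one]
    rfl

/-- the permutation representation -/
noncomputable def v1_rep {G : Type*} [Group G] (U V : Subgroup G) [U.Normal] [V.Normal] :
    G →* Module.End ℂ ((↥V ⧸ U.subgroupOf V) → ℂ) where
  toFun g := LinearMap.funLeft ℂ ℂ (v1_sig U V g⁻¹)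
  map_one' := by
    refine LinearMap.ext fun f => funext fun x => ?_
    rw [LinearMap.funLeft_apply, inv_one, v1_sig_one]
    rfl
  map_mul' g h := by
    refine LinearMap.ext fun f => funext fun x => ?_
    rw [LinearMap.funLeft_apply, mul_inv_rev, v1_sig_mul]
    rfl

theorem v1_const {G : Type*} [Group G] {N : Subgroup G} {u m : ℕ} (hm : m < u)
    (hdeg : ∀ (d : ℕ) (ρ : G →* Matrix (Fin d) (Fin d) ℂ), Irr ρ → d < u → ∀ x ∈ N, ρ x = 1)
    {F : G → ℂ} (hF : F ∈ coeffSpan G m) {x : G} (hx : x ∈ N) : F x = F 1 := by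
  unfold coeffSpan at hF
  induction hF using Submodule.span_induction with
  | mem F h =>
    obtain ⟨d, hd0, hdm, ρ, hρ, i, j, rfl⟩ := h
    show ρ x i j = ρ 1 i j
    rw [hdeg d ρ hρ (by omega) x hx, map_one]
  | zero => rfl
  | add F F' _ _ h h' =>
    rw [Pi.add_apply, Pi.add_apply, h, h']
  | smul c F _ h =>
    rw [Pi.smul_apply, Pi.smul_apply, h]

theorem le_relIndex {G : Type*} [Group G] [Finite G] (N U V : Subgroup G) [N.Normal] [U.Normal]
    [V.Normal] (hUV : U ≤ V) (u : ℕ)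
    (hdeg : ∀ (d : ℕ) (ρ : G →* Matrix (Fin d) (Fin d) ℂ), Irr ρ → d < u → ∀ x ∈ N, ρ x = 1)
    (hne : ¬ ⁅V, N⁆ ≤ U) : u ≤ U.relIndex V := by
  classical
  by_contra hlt
  push Not at hlt
  apply hne
  have hX : Finite (↥V ⧸ U.subgroupOf V) := inferInstance
  have hfin : Fintype (↥V ⧸ U.subgroupOf V) := Fintype.ofFinite _
  have hrank : Module.finrank ℂ ((↥V ⧸ U.subgroupOf V) → ℂ) = U.relIndex V := by
    rw [Module.finrank_fintype_fun_eq_card, ← Nat.card_eq_fintype_card]
    rfl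
  have hfix : ∀ n ∈ N, ∀ x : ↥V ⧸ U.subgroupOf V, v1_sig U V n⁻¹ x = x := by
    intro n hn x
    have h1 := coeff_mem (v1_rep U V) (LinearMap.proj x) (Pi.single x 1)
    rw [hrank] at h1
    have h2 := v1_const hlt hdeg h1 hn
    have h3 : (Pi.single x (1 : ℂ) : (↥V ⧸ U.subgroupOf V) → ℂ) (v1_sig U V n⁻¹ x) = 1 := by
      have h4 : (LinearMap.proj x : ((↥V ⧸ U.subgroupOf V) → ℂ) →ₗ[ℂ] ℂ)
          (v1_rep U V n (Pi.single x (1 : ℂ))) = 1 := by
        refine h2.trans ?_
        rw [map_one]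
        show (Pi.single x (1 : ℂ) : (↥V ⧸ U.subgroupOf V) → ℂ) x = 1
        rw [Pi.single_eq_same]
      exact h4
    by_contra hne'
    rw [Pi.single_eq_of_ne hne'] at h3
    exact zero_ne_one h3
  rw [Subgroup.commutator_le]
  intro v hv n hn
  have h1 := hfix n⁻¹ (N.inv_mem hn) (QuotientGroup.mk (⟨v, hv⟩ : V)⁻¹)
  rw [inv_inv, v1_sig_mk] at h1
  have h2 := QuotientGroup.eq.1 h1.symm
  rw [Subgroup.mem_subgroupOf] at h2
  have h3 : (((((⟨v, hv⟩ : V)⁻¹)⁻¹ * MulAut.conjNormal n ((⟨v, hv⟩ : V)⁻¹) : V)) : G) = v * n * v⁻¹ * n⁻¹ := by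
    rw [Subgroup.coe_mul, MulAut.conjNormal_apply, inv_inv, Subgroup.coe_inv]
    show v * (n * v⁻¹ * n⁻¹) = v * n * v⁻¹ * n⁻¹
    group
  rw [h3] at h2
  exact h2

end Pool.Agent.DLF
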