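import Pool.Agent.DLF.V1

/-!
# [DLF-V2] class bound relative to the smallest degree

`N` normal nilpotent in `G` finite, `B ≤ N` normal in `G`, `N` in the kernel of every irreducible
representation of `G` of degree `< u`, `2 ≤ u`, `|N : B| ≤ u^t`. Then `γ_{2t+3}(N) ≤ B`
(`N.lowerCentralSeries (2 * t + 2)` in Mathlib's numbering).

Proof. Let `L i = N.lowerCentralSeries i ⊔ B` (normal in `G`, antitone, `L 0 = N`). Suppose
`L (2t+2) ≠ B`. The `L i` decrease strictly until they reach `B`: if `L (i+1) = L i` then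
`L (i+2) = ⁅lcs (i+1), N⁆ ⊔ B`, and `⁅L (i+1), N⁆ ⊔ B = ⁅L i, N⁆ ⊔ B` gives `L (i+2) = L (i+1)`
(`⁅lcs i ⊔ B, N⁆ ≤ ⁅lcs i, N⁆ ⊔ B`, all subgroups normal), so `L j = L i` for all `j ≥ i`, and `L j = B`
for large `j` (`N` nilpotent: `Subgroup.isNilpotent_iff_lowerCentralSeries`). So `L (i+1) ≠ L i` for all
`i ≤ 2t+1` (otherwise `L (2t+2) = B`).
For `i ≤ t` apply `le_relIndex` (V1) with `V = L (2i)`, `U = L (2i+2)`: `⁅V, N⁆ ≤ U` would give
`L (2i+1) = ⁅lcs (2i), N⁆ ⊔ B ≤ ⁅V, N⁆ ⊔ B ≤ U = L (2i+2)`, so `L (2i+1) = L (2i+2)`, a contradiction as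
`2i+1 ≤ 2t+1`. So `(L (2i+2)).relIndex (L (2i)) ≥ u` for `i = 0, ..., t`, and by multiplicativity
(`Subgroup.relIndex_mul_relIndex`) `B.relIndex N ≥ (L (2t+2)).relIndex (L 0) ≥ u^(t+1) > u^t`, a
contradiction.
-/

set_option autoImplicit false

namespace Pool.Agent.DLF

open scoped commutatorElement in
private theorem v2_comm_sup {G : Type*} [Group G] (H B N : Subgroup G) [B.Normal] :
    ⁅H ⊔ B, N⁆ ≤ ⁅H, N⁆ ⊔ B := by
  rw [Subgroup.commutator_le]
  intro g hg n hn
  obtain ⟨h, hh, b, hb, rfl⟩ := Subgroup.mem_sup_of_normal_right.1 hg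
  have e : ⁅h * b, n⁆ = (h * ⁅b, n⁆ * h⁻¹) * ⁅h, n⁆ := by
    simp only [commutatorElement_def]
    group
  rw [e]
  apply Subgroup.mul_mem
  · apply (le_sup_right : B ≤ ⁅H, N⁆ ⊔ B)
    apply Subgroup.Normal.conj_mem inferInstance
    have e2 : ⁅b, n⁆ = b * (n * b⁻¹ * n⁻¹) := by
      simp only [commutatorElement_def]
      group
    rw [e2]
    exact B.mul_mem hb (Subgroup.Normal.conj_mem inferInstance _ (B.inv_mem hb) _)
  · exact (le_sup_left : ⁅H, N⁆ ≤ ⁅H, N⁆ ⊔ B) (Subgroup.commutator_mem_commutator hh hn)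

private theorem v2_lcs_normal {G : Type*} [Group G] (N : Subgroup G) [N.Normal] (i : ℕ) :
    (N.lowerCentralSeries i).Normal := by
  induction i with
  | zero => rw [Subgroup.lowerCentralSeries_zero]; infer_instance
  | succ i ih =>
    rw [Subgroup.lowerCentralSeries_succ]
    have := ih
    infer_instance

theorem lcs_le_of_relIndex {G : Type*} [Group G] [Finite G] (N B : Subgroup G) [N.Normal]
    [B.Normal] (hBN : B ≤ N) (hN : Group.IsNilpotent ↥N) (u t : ℕ) (hu : 2 ≤ u)
    (hdeg : ∀ (d : ℕ) (ρ : G →* Matrix (Fin d) (Fin d) ℂ), Irr ρ → d < u → ∀ x ∈ N, ρ x = 1)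
    (hidx : B.relIndex N ≤ u ^ t) : N.lowerCentralSeries (2 * t + 2) ≤ B := by
  by_contra hcon
  have hnorm : ∀ i, (N.lowerCentralSeries i).Normal := v2_lcs_normal N
  -- stationarity
  have hstat : ∀ i, N.lowerCentralSeries i ≤ N.lowerCentralSeries (i + 1) ⊔ B →
      N.lowerCentralSeries i ≤ B := by
    intro i hi
    have key : ∀ k, N.lowerCentralSeries i ≤ N.lowerCentralSeries (i + k) ⊔ B := by
      intro k
      induction k with
      | zero => exact le_sup_left
      | succ k ih =>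
        calc N.lowerCentralSeries i ≤ N.lowerCentralSeries (i + 1) ⊔ B := hi
          _ = ⁅N.lowerCentralSeries i, N⁆ ⊔ B := by rw [Subgroup.lowerCentralSeries_succ]
          _ ≤ ⁅N.lowerCentralSeries (i + k) ⊔ B, N⁆ ⊔ B :=
              sup_le_sup_right (Subgroup.commutator_mono ih le_rfl) B
          _ ≤ (⁅N.lowerCentralSeries (i + k), N⁆ ⊔ B) ⊔ B :=
              sup_le_sup_right (v2_comm_sup _ _ _) B
          _ = N.lowerCentralSeries (i + (k + 1)) ⊔ B := by
              rw [sup_assoc, sup_idem, ← add_assoc, Subgroup.lowerCentralSeries_succ]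
    obtain ⟨n, hn⟩ := (Subgroup.isNilpotent_iff_lowerCentralSeries N).1 hN
    have h1 := key n
    have h2 : N.lowerCentralSeries (i + n) = ⊥ := by
      rw [eq_bot_iff, ← hn]
      exact Subgroup.lowerCentralSeries_antitone N (Nat.le_add_left n i)
    rw [h2, bot_sup_eq] at h1
    exact h1
  have hlt : ∀ i, i ≤ 2 * t + 2 → ¬ N.lowerCentralSeries i ≤ N.lowerCentralSeries (i + 1) ⊔ B := by
    intro i hi h
    exact hcon ((Subgroup.lowerCentralSeries_antitone N hi).trans (hstat i h))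
  have hpow : ∀ s, s ≤ t + 1 → u ^ s ≤ (N.lowerCentralSeries (2 * s) ⊔ B).relIndex N := by
    intro s
    induction s with
    | zero =>
      intro _
      rw [pow_zero]
      have h1 : (N.lowerCentralSeries (2 * 0) ⊔ B).relIndex N ≠ 0 := by
        exact Subgroup.index_ne_zero_of_finite
      omega
    | succ s ih =>
      intro hs
      have ih' := ih (by omega)
      have i1 := hnorm (2 * s)
      have i2 := hnorm (2 * (s + 1))
      have hUV : N.lowerCentralSeries (2 * (s + 1)) ⊔ B ≤ N.lowerCentralSeries (2 * s) ⊔ B :=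
        sup_le_sup_right (Subgroup.lowerCentralSeries_antitone N (by omega)) B
      have hVN : N.lowerCentralSeries (2 * s) ⊔ B ≤ N :=
        sup_le ((Subgroup.lowerCentralSeries_antitone N (Nat.zero_le _)).trans
          (Subgroup.lowerCentralSeries_zero N).le) hBN
      have h1 : u ≤ (N.lowerCentralSeries (2 * (s + 1)) ⊔ B).relIndex
          (N.lowerCentralSeries (2 * s) ⊔ B) := by
        apply le_relIndex N _ _ hUV u hdeg
        intro hc
        apply hlt (2 * s + 1) (by omega)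
        calc N.lowerCentralSeries (2 * s + 1) = ⁅N.lowerCentralSeries (2 * s), N⁆ :=
              Subgroup.lowerCentralSeries_succ _ _
          _ ≤ ⁅N.lowerCentralSeries (2 * s) ⊔ B, N⁆ := Subgroup.commutator_mono le_sup_left le_rfl
          _ ≤ N.lowerCentralSeries (2 * (s + 1)) ⊔ B := hc
          _ = N.lowerCentralSeries (2 * s + 1 + 1) ⊔ B := by
              rw [show 2 * (s + 1) = 2 * s + 1 + 1 by ring]
      rw [← Subgroup.relIndex_mul_relIndex _ _ _ hUV hVN, pow_succ, mul_comm]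
      exact Nat.mul_le_mul h1 ih'
  have h1 := hpow (t + 1) le_rfl
  have h2 : (N.lowerCentralSeries (2 * (t + 1)) ⊔ B).relIndex N ≤ B.relIndex N := by
    apply Subgroup.relIndex_le_of_le_left le_sup_right
    exact Subgroup.index_ne_zero_of_finite
  have h3 : u ^ t < u ^ (t + 1) := Nat.pow_lt_pow_right (by omega) (by omega)
  omega

end Pool.Agent.DLF
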